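import Mathlib

/-!
# Big Cohen-Macaulay algebras and approximations: definitions

Everything the final statement uses is defined here.
-/

namespace Pool.Agent.Lib_helper40

open Filter

universe u v

/-! ### Big Cohen-Macaulay algebras -/

/-- `rs` is a system of parameters of the local ring `A`: its length is the Krull dimension of `A`
and it generates an ideal whose radical is the maximal ideal. -/
def IsSystemOfParameters (A : Type*) [CommRing A] [IsLocalRing A] (rs : List A) : Prop :=
  (rs.length : WithBot ℕ∞) = ringKrullDim A ∧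
    (Ideal.ofList rs).radical = IsLocalRing.maximalIdeal A

/-- `B` is a (balanced) big Cohen-Macaulay algebra over the local ring `A`: every system of
parameters of `A` is a regular sequence on `B`. -/
def IsBigCM (A : Type*) [CommRing A] [IsLocalRing A] (B : Type*) [CommRing B] [Algebra A B] :
    Prop :=
  ∀ rs : List A, IsSystemOfParameters A rs → RingTheory.Sequence.IsRegular B rs

/-! ### The local ring `K[x, y]_(x, y)` -/

/-- the ideal `(x, y)` of `K[x, y]` -/
noncomputable def originIdeal (K : Type*) [Field K] : Ideal (MvPolynomial (Fin 2) K) :=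
  Ideal.span {MvPolynomial.X 0, MvPolynomial.X 1}

theorem mem_originIdeal {K : Type*} [Field K] {P : MvPolynomial (Fin 2) K} :
    P ∈ originIdeal K ↔ MvPolynomial.constantCoeff P = 0 := by
  have h1 : originIdeal K = Ideal.span (MvPolynomial.X '' (Set.univ : Set (Fin 2))) := by
    rw [originIdeal]; congr 1
    ext z
    simp only [Set.mem_insert_iff, Set.mem_singleton_iff, Set.mem_image, Set.mem_univ, true_and]
    constructor
    · rintro (rfl | rfl)
      · exact ⟨0, rfl⟩
      · exact ⟨1, rfl⟩
    · rintro ⟨i, rfl⟩
      fin_cases i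
      · left; rfl
      · right; rfl
  rw [h1, MvPolynomial.mem_ideal_span_X_image]
  constructor
  · intro h
    rw [MvPolynomial.constantCoeff_eq]
    by_contra hne
    obtain ⟨i, _, hi⟩ := h 0 (MvPolynomial.mem_support_iff.mpr hne)
    exact hi rfl
  · intro h m hm
    by_contra hcon
    push Not at hcon
    have : m = 0 := by
      ext i
      exact hcon i (Set.mem_univ i)
    rw [this, MvPolynomial.mem_support_iff, ← MvPolynomial.constantCoeff_eq] at hm
    exact hm h

instance originIdeal_isMaximal (K : Type*) [Field K] : (originIdeal K).IsMaximal := by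
  have h1 : originIdeal K = RingHom.ker (MvPolynomial.constantCoeff (R := K) (σ := Fin 2)) := by
    ext P
    rw [mem_originIdeal, RingHom.mem_ker]
  rw [h1]
  exact RingHom.ker_isMaximal_of_surjective _
    (fun c => ⟨MvPolynomial.C c, MvPolynomial.constantCoeff_C _ c⟩)

instance originIdeal_isPrime (K : Type*) [Field K] : (originIdeal K).IsPrime :=
  (originIdeal_isMaximal K).isPrime

/-- the local ring `K[x, y]_(x, y)` -/
abbrev Rloc (K : Type*) [Field K] : Type _ := Localization.AtPrime (originIdeal K)

/-- The finitely presented algebra `R[Y_1, ..., Y_n] / (h_1, ..., h_r)`. -/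
abbrev PresAlg (R : Type*) [CommRing R] {n r : ℕ} (h : Fin r → MvPolynomial (Fin n) R) : Type _ :=
  MvPolynomial (Fin n) R ⧸ Ideal.span (Set.range h)

/-- A polynomial in `Y_1, ..., Y_n` with coefficients in `K[x, y]`, regarded as a polynomial with
coefficients in `K[x, y]_(x, y)`. -/
noncomputable def toLoc (K : Type*) [Field K] {n : ℕ}
    (h : MvPolynomial (Fin n) (MvPolynomial (Fin 2) K)) : MvPolynomial (Fin n) (Rloc K) :=
  MvPolynomial.map (algebraMap (MvPolynomial (Fin 2) K) (Rloc K)) h

/-- The `A`-algebra `S` admits an `A`-algebra homomorphism to some big Cohen-Macaulay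
`A`-algebra `B` (living in the universe `w`). -/
def MapsToBigCM.{w} (A : Type*) [CommRing A] [IsLocalRing A] (S : Type*) [CommRing S]
    [Algebra A S] : Prop :=
  ∃ (B : Type w) (_ : CommRing B) (_ : Algebra A B), IsBigCM A B ∧ Nonempty (S →ₐ[A] B)

/-- For polynomials `h_1, ..., h_r` in `Y_1, ..., Y_n` over `K[x, y]`: the algebra
`R[Y_1, ..., Y_n] / (h_1, ..., h_r)` over `R = K[x, y]_(x, y)` maps to some big Cohen-Macaulay
`R`-algebra. -/
def PresMapsToBigCM.{w} (K : Type*) [Field K] {n r : ℕ}
    (h : Fin r → MvPolynomial (Fin n) (MvPolynomial (Fin 2) K)) : Prop :=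
  MapsToBigCM.{w} (Rloc K) (PresAlg (Rloc K) fun j => toLoc K (h j))

/-! ### Ultraproducts -/

/-- the ideal of all families that vanish for almost all `i`, i.e. on a set of the ultrafilter -/
def nullIdeal {ι : Type u} (𝒰 : Ultrafilter ι) (A : ι → Type v) [∀ i, CommRing (A i)] :
    Ideal (∀ i, A i) where
  carrier := {f | ∀ᶠ i in (𝒰 : Filter ι), f i = 0}
  add_mem' := by
    intro f g hf hg
    filter_upwards [hf, hg] with i h1 h2
    rw [Pi.add_apply, h1, h2, add_zero]
  zero_mem' := Filter.Eventually.of_forall fun _ => rfl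
  smul_mem' := by
    intro c f hf
    filter_upwards [hf] with i h1
    rw [smul_eq_mul, Pi.mul_apply, h1, mul_zero]

/-- the ultraproduct of a family of commutative rings -/
abbrev UProd {ι : Type u} (𝒰 : Ultrafilter ι) (A : ι → Type v) [∀ i, CommRing (A i)] : Type _ :=
  (∀ i, A i) ⧸ nullIdeal 𝒰 A

/-- the class in the ultraproduct of a family of elements (the `ulim` of the family) -/
def umk {ι : Type u} {𝒰 : Ultrafilter ι} {A : ι → Type v} [∀ i, CommRing (A i)] (f : ∀ i, A i) :
    UProd 𝒰 A := Ideal.Quotient.mk _ f

/-! ### Approximations modulo `p` -/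

instance factPrimes (p : Nat.Primes) : Fact p.1.Prime := ⟨p.2⟩

/-- the algebraic closure of the field with `p` elements -/
abbrev Fbar (p : Nat.Primes) : Type := AlgebraicClosure (ZMod p.1)

/-- `α` chooses for every complex number `a` an approximation: a family `(a_p)` whose `ulim`
corresponds to `a` under the given isomorphism. -/
def IsApproximation {𝒰 : Ultrafilter Nat.Primes} (φ : UProd 𝒰 Fbar ≃+* ℂ)
    (α : ℂ → ∀ p : Nat.Primes, Fbar p) : Prop :=
  ∀ a : ℂ, φ (umk (α a)) = a

/-- the approximation `P_p` of a polynomial `P` over `ℂ`: every coefficient is replaced by its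
approximation -/
noncomputable def approxPoly (α : ℂ → ∀ p : Nat.Primes, Fbar p) (p : Nat.Primes)
    (P : MvPolynomial (Fin 2) ℂ) : MvPolynomial (Fin 2) (Fbar p) :=
  ∑ m ∈ P.support, MvPolynomial.monomial m (α (P.coeff m) p)

/-- the approximation of a polynomial in `Y_1, ..., Y_n` with coefficients in `ℂ[x, y]`: every
coefficient is replaced by its approximation -/
noncomputable def approxPolyY (α : ℂ → ∀ p : Nat.Primes, Fbar p) (p : Nat.Primes) {n : ℕ}
    (h : MvPolynomial (Fin n) (MvPolynomial (Fin 2) ℂ)) :
    MvPolynomial (Fin n) (MvPolynomial (Fin 2) (Fbar p)) :=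
  ∑ m ∈ h.support, MvPolynomial.monomial m (approxPoly α p (h.coeff m))

end Pool.Agent.Lib_helper40
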