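import Pool.Agent.Lib_helper40.NonSeed
import Pool.Agent.Lib_helper40.BCMDefs

namespace Pool.Agent.Lib_helper40

open RingTheory.Sequence Pointwise

theorem isRegular_pair_iff {A B : Type*} [CommRing A] [CommRing B] [Algebra A B] (r s : A) :
    IsRegular B [r, s] ↔ (∀ b : B, algebraMap A B r * b = 0 → b = 0) ∧
      (∀ b : B, algebraMap A B s * b ∈ Ideal.span {algebraMap A B r} →
        b ∈ Ideal.span {algebraMap A B r}) ∧
      (1 : B) ∉ Ideal.span {algebraMap A B r, algebraMap A B s} := by
  rw [isRegular_iff, isWeaklyRegular_cons_iff, isWeaklyRegular_singleton_iff, and_assoc]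
  have h1 : IsSMulRegular B r ↔ ∀ b : B, algebraMap A B r * b = 0 → b = 0 := by
    constructor
    · intro h b hb
      apply h
      show r • b = r • 0
      rw [Algebra.smul_def, hb, smul_zero]
    · intro h b c hbc
      have h2 : r • b = r • c := hbc
      rw [Algebra.smul_def, Algebra.smul_def] at h2
      have := h (b - c) (by rw [mul_sub, h2, sub_self])
      exact sub_eq_zero.mp this
  have hmem : ∀ b : B, b ∈ (r • (⊤ : Submodule A B)) ↔ b ∈ Ideal.span {algebraMap A B r} := by
    intro b
    rw [Submodule.mem_smul_pointwise_iff_exists, Ideal.mem_span_singleton]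
    constructor
    · rintro ⟨c, _, hc⟩
      exact ⟨c, by rw [← hc, Algebra.smul_def]⟩
    · rintro ⟨c, hc⟩
      exact ⟨c, Submodule.mem_top, by rw [hc, Algebra.smul_def]⟩
  have h2 : IsSMulRegular (QuotSMulTop r B) s ↔
      (∀ b : B, algebraMap A B s * b ∈ Ideal.span {algebraMap A B r} →
        b ∈ Ideal.span {algebraMap A B r}) := by
    rw [isSMulRegular_quotient_iff_mem_of_smul_mem]
    constructor
    · intro h b hb
      rw [← hmem] at hb ⊢
      apply h
      rwa [Algebra.smul_def]
    · intro h b hb
      rw [hmem] at hb ⊢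
      apply h
      rwa [Algebra.smul_def] at hb
  have h3 : ((⊤ : Submodule A B) ≠ Ideal.ofList [r, s] • ⊤) ↔
      (1 : B) ∉ Ideal.span {algebraMap A B r, algebraMap A B s} := by
    have h4 : Ideal.ofList [r, s] = Ideal.span {r, s} := by
      rw [Ideal.ofList_cons, Ideal.ofList_singleton, ← Ideal.span_union]; rfl
    have h5 : (Ideal.ofList [r, s] • (⊤ : Submodule A B)) =
        (Ideal.span {algebraMap A B r, algebraMap A B s}).restrictScalars A := by
      rw [Ideal.smul_top_eq_map, h4, Ideal.map_span]
      congr 2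
      rw [Set.image_pair]
    rw [h5, Ne, not_iff_not]
    constructor
    · intro h
      have h6 : (1 : B) ∈ (⊤ : Submodule A B) := Submodule.mem_top
      rw [h] at h6
      exact h6
    · intro h
      have h6 := (Ideal.eq_top_iff_one _).mpr h
      rw [h6]
      rfl
  rw [h1, h2, h3]

section saturation

universe u v

variable {R : Type u} [CommRing R] {T : Type v} [CommRing T] [Algebra R T]

/-- the saturation of a subalgebra at `x, y` -/
def satur (x y : R) (E : Subalgebra R T) : Subalgebra R T where
  carrier := {t | ∃ n : ℕ, algebraMap R T x ^ n * t ∈ E ∧ algebraMap R T y ^ n * t ∈ E}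
  mul_mem' := by
    rintro s t ⟨n, hn1, hn2⟩ ⟨m, hm1, hm2⟩
    refine ⟨n + m, ?_, ?_⟩
    · have : algebraMap R T x ^ (n + m) * (s * t) =
        (algebraMap R T x ^ n * s) * (algebraMap R T x ^ m * t) := by ring
      rw [this]; exact mul_mem hn1 hm1
    · have : algebraMap R T y ^ (n + m) * (s * t) =
        (algebraMap R T y ^ n * s) * (algebraMap R T y ^ m * t) := by ring
      rw [this]; exact mul_mem hn2 hm2
  add_mem' := by
    rintro s t ⟨n, hn1, hn2⟩ ⟨m, hm1, hm2⟩
    refine ⟨n + m, ?_, ?_⟩
    · have : algebraMap R T x ^ (n + m) * (s + t) =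
        algebraMap R T x ^ m * (algebraMap R T x ^ n * s) +
        algebraMap R T x ^ n * (algebraMap R T x ^ m * t) := by ring
      rw [this]
      exact add_mem (mul_mem (pow_mem (E.algebraMap_mem x) _) hn1)
        (mul_mem (pow_mem (E.algebraMap_mem x) _) hm1)
    · have : algebraMap R T y ^ (n + m) * (s + t) =
        algebraMap R T y ^ m * (algebraMap R T y ^ n * s) +
        algebraMap R T y ^ n * (algebraMap R T y ^ m * t) := by ring
      rw [this]
      exact add_mem (mul_mem (pow_mem (E.algebraMap_mem y) _) hn2)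
        (mul_mem (pow_mem (E.algebraMap_mem y) _) hm2)
  algebraMap_mem' := by
    intro r
    refine ⟨0, ?_, ?_⟩ <;> rw [pow_zero, one_mul] <;> exact E.algebraMap_mem r

theorem mem_satur {x y : R} {E : Subalgebra R T} {t : T} : t ∈ satur x y E ↔
    ∃ n : ℕ, algebraMap R T x ^ n * t ∈ E ∧ algebraMap R T y ^ n * t ∈ E := Iff.rfl

theorem le_satur {x y : R} {E : Subalgebra R T} : E ≤ satur x y E := by
  intro t ht
  refine ⟨0, ?_, ?_⟩ <;> rw [pow_zero, one_mul] <;> exact ht

theorem mem_satur_of {x y : R} {E : Subalgebra R T} {t : T} {N : ℕ}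
    (h1 : algebraMap R T x ^ N * t ∈ satur x y E) (h2 : algebraMap R T y ^ N * t ∈ satur x y E) :
    t ∈ satur x y E := by
  obtain ⟨n, hn, -⟩ := h1
  obtain ⟨m, -, hm⟩ := h2
  refine ⟨n + m + N, ?_, ?_⟩
  · have : algebraMap R T x ^ (n + m + N) * t =
      algebraMap R T x ^ m * (algebraMap R T x ^ n * (algebraMap R T x ^ N * t)) := by ring
    rw [this]
    exact mul_mem (pow_mem (E.algebraMap_mem x) _) hn
  · have : algebraMap R T y ^ (n + m + N) * t =
      algebraMap R T y ^ n * (algebraMap R T y ^ m * (algebraMap R T y ^ N * t)) := by ring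
    rw [this]
    exact mul_mem (pow_mem (E.algebraMap_mem y) _) hm

variable [IsDomain R] [IsLocalRing R] [IsNoetherianRing R]

/-- a system of parameters in dimension two -/
theorem sop_pair (hdim : ringKrullDim R = 2) {rs : List R} (h : IsSystemOfParameters R rs) :
    ∃ r s : R, rs = [r, s] ∧ r ≠ 0 ∧ (Ideal.span {r, s}).radical = IsLocalRing.maximalIdeal R := by
  obtain ⟨h1, h2⟩ := h
  rw [hdim] at h1
  have h3 : rs.length = 2 := by exact_mod_cast h1
  obtain ⟨r, s, rfl⟩ := List.length_eq_two.mp h3
  have h4 : Ideal.ofList [r, s] = Ideal.span {r, s} := by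
    rw [Ideal.ofList_cons, Ideal.ofList_singleton, ← Ideal.span_union]; rfl
  rw [h4] at h2
  refine ⟨r, s, rfl, ?_, h2⟩
  rintro rfl
  rw [Ideal.span_insert_zero] at h2
  have h5 : IsLocalRing.maximalIdeal R ∈ (Ideal.span {s}).minimalPrimes := by
    refine ⟨⟨inferInstance, ?_⟩, ?_⟩
    · rw [← h2]; exact Ideal.le_radical
    · intro q hq _
      rw [← h2]
      exact (hq.1.radical_le_iff).mpr hq.2
  have h6 := Ideal.height_le_one_of_isPrincipal_of_mem_minimalPrimes _ _ h5
  have h7 : ((IsLocalRing.maximalIdeal R).height : WithBot ℕ∞) = 2 := by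
    rw [IsLocalRing.maximalIdeal_height_eq_ringKrullDim, hdim]
  have h8 : (IsLocalRing.maximalIdeal R).height = 2 := WithBot.coe_injective (by rw [h7]; rfl)
  rw [h8] at h6
  exact absurd h6 (by norm_num)

theorem isBigCM_satur (hdim : ringKrullDim R = 2) (x y : R)
    (hm : IsLocalRing.maximalIdeal R = Ideal.span {x, y}) (E : Subalgebra R T)
    (hT : ∀ r : R, r ≠ 0 → IsUnit (algebraMap R T r))
    (hmon : ∀ n : ℕ, ∀ α β : T, α ∈ E → β ∈ E → algebraMap R T x ^ n * algebraMap R T y ^ n ≠
      algebraMap R T x ^ (n + 1) * α + algebraMap R T y ^ (n + 1) * β) :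
    IsBigCM R (satur x y E) := by
  intro rs hrs
  obtain ⟨r, s, rfl, hr0, hrad⟩ := sop_pair hdim hrs
  have hval : ∀ z : R, ((algebraMap R (satur x y E) z : satur x y E) : T) = algebraMap R T z :=
    fun z => rfl
  have hpow : ∀ z : R, z ∈ IsLocalRing.maximalIdeal R → ∃ (N : ℕ) (α β : R),
      z ^ N = α * r + β * s := by
    intro z hz
    rw [← hrad] at hz
    obtain ⟨N, hN⟩ := hz
    obtain ⟨α, β, h⟩ := Ideal.mem_span_pair.mp hN
    exact ⟨N, α, β, h.symm⟩
  have hx : x ∈ IsLocalRing.maximalIdeal R := by rw [hm]; exact Ideal.subset_span (by simp)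
  have hy : y ∈ IsLocalRing.maximalIdeal R := by rw [hm]; exact Ideal.subset_span (by simp)
  rw [isRegular_pair_iff]
  refine ⟨?_, ?_, ?_⟩
  · intro b hb
    apply Subtype.ext
    have h1 : algebraMap R T r * (b : T) = 0 := by
      have := congrArg (fun z : satur x y E => (z : T)) hb
      exact this
    exact ((hT r hr0).mul_right_eq_zero).mp h1
  · intro b hb
    rw [Ideal.mem_span_singleton] at hb ⊢
    obtain ⟨c, hc⟩ := hb
    have hc' : algebraMap R T s * (b : T) = algebraMap R T r * (c : T) := by
      have := congrArg (fun z : satur x y E => (z : T)) hc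
      exact this
    obtain ⟨t, ht⟩ : ∃ t : T, (b : T) = algebraMap R T r * t := by
      obtain ⟨w, hw⟩ := (hT r hr0)
      refine ⟨(w⁻¹ : Tˣ) * (b : T), ?_⟩
      rw [← hw, ← mul_assoc, Units.mul_inv, one_mul]
    have ht2 : algebraMap R T s * t = (c : T) := by
      apply (hT r hr0).mul_left_cancel
      rw [← hc', ht]; ring
    have hmem : ∀ z : R, z ∈ IsLocalRing.maximalIdeal R →
        ∃ N, algebraMap R T z ^ N * t ∈ satur x y E := by
      intro z hz
      obtain ⟨N, α, β, h⟩ := hpow z hz
      refine ⟨N, ?_⟩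
      have h1 : algebraMap R T z ^ N * t = algebraMap R T α * (b : T) +
          algebraMap R T β * (c : T) := by
        rw [← map_pow, h, map_add, map_mul, map_mul, ht, ← ht2]; ring
      rw [h1]
      exact add_mem (mul_mem (Subalgebra.algebraMap_mem _ _) b.2)
        (mul_mem (Subalgebra.algebraMap_mem _ _) c.2)
    obtain ⟨N1, hN1⟩ := hmem x hx
    obtain ⟨N2, hN2⟩ := hmem y hy
    have htmem : t ∈ satur x y E := by
      apply mem_satur_of (N := N1 + N2)
      · have : algebraMap R T x ^ (N1 + N2) * t =
          algebraMap R T x ^ N2 * (algebraMap R T x ^ N1 * t) := by ring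
        rw [this]
        exact mul_mem (pow_mem (Subalgebra.algebraMap_mem _ _) _) hN1
      · have : algebraMap R T y ^ (N1 + N2) * t =
          algebraMap R T y ^ N1 * (algebraMap R T y ^ N2 * t) := by ring
        rw [this]
        exact mul_mem (pow_mem (Subalgebra.algebraMap_mem _ _) _) hN2
    exact ⟨⟨t, htmem⟩, Subtype.ext ht⟩
  · intro h1
    have h2 : (1 : satur x y E) ∈ Ideal.span {algebraMap R (satur x y E) x,
        algebraMap R (satur x y E) y} := by
      have hle : Ideal.span {algebraMap R (satur x y E) r, algebraMap R (satur x y E) s} ≤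
          Ideal.span {algebraMap R (satur x y E) x, algebraMap R (satur x y E) y} := by
        have e1 : Ideal.span {algebraMap R (satur x y E) x, algebraMap R (satur x y E) y} =
            (IsLocalRing.maximalIdeal R).map (algebraMap R (satur x y E)) := by
          rw [hm, Ideal.map_span, Set.image_pair]
        have e2 : Ideal.span {algebraMap R (satur x y E) r, algebraMap R (satur x y E) s} =
            (Ideal.span {r, s}).map (algebraMap R (satur x y E)) := by
          rw [Ideal.map_span, Set.image_pair]
        rw [e1, e2, ← hrad]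
        exact Ideal.map_mono Ideal.le_radical
      exact hle h1
    obtain ⟨α, β, hαβ⟩ := Ideal.mem_span_pair.mp h2
    have hαβ' : (α : T) * algebraMap R T x + (β : T) * algebraMap R T y = 1 := by
      have := congrArg (fun z : satur x y E => (z : T)) hαβ
      exact this
    obtain ⟨n, hn1, hn2⟩ := α.2
    obtain ⟨m, hm1, hm2⟩ := β.2
    apply hmon (n + m) (algebraMap R T y ^ (n + m) * α) (algebraMap R T x ^ (n + m) * β)
    · have : algebraMap R T y ^ (n + m) * (α : T) =
        algebraMap R T y ^ m * (algebraMap R T y ^ n * α) := by ring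
      rw [this]
      exact mul_mem (pow_mem (Subalgebra.algebraMap_mem _ _) _) hn2
    · have : algebraMap R T x ^ (n + m) * (β : T) =
        algebraMap R T x ^ n * (algebraMap R T x ^ m * β) := by ring
      rw [this]
      exact mul_mem (pow_mem (Subalgebra.algebraMap_mem _ _) _) hm1
    · calc algebraMap R T x ^ (n + m) * algebraMap R T y ^ (n + m)
          = algebraMap R T x ^ (n + m) * algebraMap R T y ^ (n + m) *
            ((α : T) * algebraMap R T x + (β : T) * algebraMap R T y) := by rw [hαβ', mul_one]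
        _ = _ := by ring

/-- a torsion-free algebra satisfying the monomial condition maps to a big Cohen-Macaulay
algebra -/
theorem exists_bigCM (hdim : ringKrullDim R = 2) (x y : R)
    (hm : IsLocalRing.maximalIdeal R = Ideal.span {x, y}) (E : Type v) [CommRing E] [Algebra R E]
    (htf : ∀ (r : R) (e : E), r ≠ 0 → algebraMap R E r * e = 0 → e = 0)
    (hmon : ∀ n : ℕ, ∀ α β : E, algebraMap R E x ^ n * algebraMap R E y ^ n ≠
      algebraMap R E x ^ (n + 1) * α + algebraMap R E y ^ (n + 1) * β) :
    ∃ (B : Type v) (_ : CommRing B) (_ : Algebra R B), IsBigCM R B ∧ Nonempty (E →ₐ[R] B) := by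
  set M := Algebra.algebraMapSubmonoid E (nonZeroDivisors R) with hM
  set T := Localization M with hTdef
  have hMle : M ≤ nonZeroDivisors E := by
    rintro _ ⟨r, hr, rfl⟩
    rw [mem_nonZeroDivisors_iff_right]
    intro e he
    apply htf r e (nonZeroDivisors.ne_zero hr)
    rw [mul_comm]; exact he
  have hinj : Function.Injective (algebraMap E T) := IsLocalization.injective T hMle
  set ι : E →ₐ[R] T := IsScalarTower.toAlgHom R E T with hι
  have hιx : ∀ z : R, ι (algebraMap R E z) = algebraMap R T z := fun z => ι.commutes z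
  have hunit : ∀ r : R, r ≠ 0 → IsUnit (algebraMap R T r) := by
    intro r hr
    rw [IsScalarTower.algebraMap_apply R E T]
    exact IsLocalization.map_units T (⟨algebraMap R E r, r, mem_nonZeroDivisors_of_ne_zero hr,
      rfl⟩ : M)
  refine ⟨satur x y ι.range, inferInstance, inferInstance,
    isBigCM_satur hdim x y hm ι.range hunit ?_, ⟨?_⟩⟩
  · rintro n _ _ ⟨α, rfl⟩ ⟨β, rfl⟩ h
    apply hmon n α β
    apply hinj
    show ι _ = ι _
    rw [map_mul, map_pow, map_pow, map_add, map_mul, map_mul, map_pow, map_pow, hιx, hιx]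
    exact h
  · exact (Subalgebra.inclusion le_satur).comp ι.rangeRestrict

end saturation

end Pool.Agent.Lib_helper40
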