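import Pool.Agent.Lib_helper40.BCMDefs

namespace Pool.Agent.Lib_helper40

open Filter

universe u v

section basic

variable {ι : Type u} {𝒰 : Ultrafilter ι} {A : ι → Type v} [∀ i, CommRing (A i)]

theorem mem_nullIdeal {f : ∀ i, A i} : f ∈ nullIdeal 𝒰 A ↔ ∀ᶠ i in (𝒰 : Filter ι), f i = 0 :=
  Iff.rfl

theorem umk_surjective : Function.Surjective (umk : (∀ i, A i) → UProd 𝒰 A) :=
  Ideal.Quotient.mk_surjective

theorem umk_eq_iff {f g : ∀ i, A i} :
    (umk f : UProd 𝒰 A) = umk g ↔ ∀ᶠ i in (𝒰 : Filter ι), f i = g i := by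
  rw [umk, umk, Ideal.Quotient.mk_eq_mk_iff_sub_mem, mem_nullIdeal]
  constructor <;> intro h <;> filter_upwards [h] with i hi
  · exact sub_eq_zero.mp hi
  · exact sub_eq_zero.mpr hi

theorem umk_eq_zero_iff {f : ∀ i, A i} :
    (umk f : UProd 𝒰 A) = 0 ↔ ∀ᶠ i in (𝒰 : Filter ι), f i = 0 := by
  have : (0 : UProd 𝒰 A) = umk 0 := (map_zero (Ideal.Quotient.mk (nullIdeal 𝒰 A))).symm
  rw [this, umk_eq_iff]
  rfl

theorem umk_add (f g : ∀ i, A i) : (umk (fun i => f i + g i) : UProd 𝒰 A) = umk f + umk g :=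
  map_add (Ideal.Quotient.mk (nullIdeal 𝒰 A)) f g

theorem umk_mul (f g : ∀ i, A i) : (umk (fun i => f i * g i) : UProd 𝒰 A) = umk f * umk g :=
  map_mul (Ideal.Quotient.mk (nullIdeal 𝒰 A)) f g

theorem umk_neg (f : ∀ i, A i) : (umk (fun i => - f i) : UProd 𝒰 A) = - umk f :=
  map_neg (Ideal.Quotient.mk (nullIdeal 𝒰 A)) f

theorem umk_pow (f : ∀ i, A i) (n : ℕ) : (umk (fun i => f i ^ n) : UProd 𝒰 A) = umk f ^ n :=
  map_pow (Ideal.Quotient.mk (nullIdeal 𝒰 A)) f n

theorem umk_one : (umk (fun _ => 1) : UProd 𝒰 A) = 1 :=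
  map_one (Ideal.Quotient.mk (nullIdeal 𝒰 A))

theorem umk_zero : (umk (fun _ => 0) : UProd 𝒰 A) = 0 :=
  map_zero (Ideal.Quotient.mk (nullIdeal 𝒰 A))

theorem umk_sum {κ : Type*} (s : Finset κ) (f : κ → ∀ i, A i) :
    (umk (fun i => ∑ j ∈ s, f j i) : UProd 𝒰 A) = ∑ j ∈ s, umk (f j) := by
  have h := map_sum (Ideal.Quotient.mk (nullIdeal 𝒰 A)) f s
  have h2 : (fun i => ∑ j ∈ s, f j i) = ∑ j ∈ s, f j := by
    funext i; rw [Finset.sum_apply]
  rw [h2]
  exact h

instance [∀ i, Nontrivial (A i)] : Nontrivial (UProd 𝒰 A) := by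
  refine ⟨⟨0, 1, ?_⟩⟩
  intro h
  rw [← umk_one, eq_comm, umk_eq_zero_iff] at h
  obtain ⟨i, hi⟩ := h.exists
  exact one_ne_zero hi

instance [∀ i, IsDomain (A i)] : IsDomain (UProd 𝒰 A) := by
  have : NoZeroDivisors (UProd 𝒰 A) := by
    refine ⟨?_⟩
    intro a b hab
    obtain ⟨f, rfl⟩ := umk_surjective a
    obtain ⟨g, rfl⟩ := umk_surjective b
    rw [← umk_mul, umk_eq_zero_iff] at hab
    rw [umk_eq_zero_iff, umk_eq_zero_iff, ← Ultrafilter.eventually_or]
    filter_upwards [hab] with i hi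
    exact mul_eq_zero.mp hi
  exact NoZeroDivisors.to_isDomain _

theorem isUnit_umk {f : ∀ i, A i} (h : ∀ᶠ i in (𝒰 : Filter ι), IsUnit (f i)) :
    IsUnit (umk f : UProd 𝒰 A) := by
  refine IsUnit.of_mul_eq_one (umk fun i => Ring.inverse (f i)) ?_
  rw [← umk_mul, ← umk_one, umk_eq_iff]
  filter_upwards [h] with i hi
  exact Ring.mul_inverse_cancel _ hi

/-- functoriality -/
def umap {B : ι → Type*} [∀ i, CommRing (B i)] (φ : ∀ i, A i →+* B i) :
    UProd 𝒰 A →+* UProd 𝒰 B :=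
  Ideal.quotientMap (nullIdeal 𝒰 B) (RingHom.pi fun i => (φ i).comp (Pi.evalRingHom A i)) (by
    intro f hf
    rw [Ideal.mem_comap, mem_nullIdeal]
    filter_upwards [hf] with i hi
    show φ i (f i) = 0
    rw [hi, map_zero])

theorem umap_umk {B : ι → Type*} [∀ i, CommRing (B i)] (φ : ∀ i, A i →+* B i) (f : ∀ i, A i) :
    umap φ (umk f : UProd 𝒰 A) = umk (fun i => φ i (f i)) := rfl

end basic

section field

variable {ι : Type u} {𝒰 : Ultrafilter ι} {A : ι → Type v} [∀ i, Field (A i)]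

instance nullIdeal_isMaximal : (nullIdeal 𝒰 A).IsMaximal := by
  apply Ideal.Quotient.maximal_of_isField
  refine ⟨⟨0, 1, ?_⟩, mul_comm, ?_⟩
  · exact zero_ne_one
  · intro a ha
    obtain ⟨f, rfl⟩ := umk_surjective a
    have h1 : ∀ᶠ i in (𝒰 : Filter ι), IsUnit (f i) := by
      have h2 : ¬ ∀ᶠ i in (𝒰 : Filter ι), f i = 0 := fun h => ha (umk_eq_zero_iff.mpr h)
      rw [← Ultrafilter.eventually_not] at h2
      filter_upwards [h2] with i hi
      exact isUnit_iff_ne_zero.mpr hi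
    exact (isUnit_umk h1).exists_right_inv

noncomputable instance : Field (UProd 𝒰 A) := Ideal.Quotient.field _

end field

section algClosed

open Polynomial

variable {ι : Type u} {𝒰 : Ultrafilter ι} {A : ι → Type v} [∀ i, Field (A i)]
  [∀ i, IsAlgClosed (A i)]

instance : IsAlgClosed (UProd 𝒰 A) := by
  apply IsAlgClosed.of_exists_root
  intro P hP hirr
  have hdeg : 0 < P.natDegree := hirr.natDegree_pos
  choose lift hlift using (umk_surjective (𝒰 := 𝒰) (A := A))
  have hroot : ∀ i, ∃ x : A i, x ^ P.natDegree +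
      ∑ j ∈ Finset.range P.natDegree, lift (P.coeff j) i * x ^ j = 0 := by
    intro i
    set Q : (A i)[X] := X ^ P.natDegree + ∑ j ∈ Finset.range P.natDegree,
      C (lift (P.coeff j) i) * X ^ j with hQ
    have hQdeg : Q.degree ≠ 0 := by
      have h1 : (∑ j ∈ Finset.range P.natDegree, C (lift (P.coeff j) i) * X ^ j).degree <
          (P.natDegree : WithBot ℕ) := by
        refine (degree_sum_le _ _).trans_lt ?_
        rw [Finset.sup_lt_iff (WithBot.bot_lt_coe _)]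
        intro j hj
        refine (degree_C_mul_X_pow_le _ _).trans_lt ?_
        exact_mod_cast Finset.mem_range.mp hj
      rw [hQ, degree_add_eq_left_of_degree_lt (by rwa [degree_X_pow]), degree_X_pow]
      exact_mod_cast hdeg.ne'
    obtain ⟨x, hx⟩ := IsAlgClosed.exists_root Q hQdeg
    refine ⟨x, ?_⟩
    rw [IsRoot.def, hQ, eval_add, eval_pow, eval_X, eval_finsetSum] at hx
    rw [← hx]
    congr 1
    apply Finset.sum_congr rfl
    intro j _
    rw [eval_mul, eval_C, eval_pow, eval_X]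
  choose x hx using hroot
  refine ⟨umk x, ?_⟩
  have h1 : P.eval (umk x : UProd 𝒰 A) = umk (fun i => x i ^ P.natDegree +
      ∑ j ∈ Finset.range P.natDegree, lift (P.coeff j) i * x i ^ j) := by
    rw [umk_add, umk_pow, umk_sum]
    conv_lhs => rw [hP.as_sum]
    rw [eval_add, eval_pow, eval_X, eval_finsetSum]
    congr 1
    apply Finset.sum_congr rfl
    intro j _
    rw [eval_mul, eval_C, eval_pow, eval_X, umk_mul, umk_pow, hlift]
  rw [h1, umk_eq_zero_iff]
  exact Filter.Eventually.of_forall hx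

end algClosed

end Pool.Agent.Lib_helper40
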