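import Pool.Agent.Lib_helper40.CharZero

namespace Pool.Agent.Lib_helper40

open Filter Polynomial

theorem pointwise_rel {B : Type*} [CommRing B] {x y Ch Ah Bh G : B} {p m : ℕ} (hp : p = 4 * m + 3)
    (h : Ch * G ^ (m + 1) = (x ^ 4) ^ (2 * m + 1) * (y ^ 4) ^ (2 * m + 1) +
      (y ^ 4) ^ (3 * m + 2) * Bh + (x ^ 4) ^ (3 * m + 2) * Ah) :
    (x ^ p) ^ 2 * (y ^ p) ^ 2 = (-(Ah * x * y ^ 2)) * (x ^ p) ^ 3 +
      (-(Bh * x ^ 2 * y)) * (y ^ p) ^ 3 + (Ch * x ^ 2 * y ^ 2) * G ^ m * G := by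
  subst hp
  linear_combination (-(x ^ 2 * y ^ 2)) * h

theorem pointwise_frob {k : Type*} [Field k] {B : Type*} [CommRing B] [Algebra k B] {p m : ℕ}
    [Fact p.Prime] [CharP B p] (hp : p = 4 * m + 3) (x y : B) (t : k) :
    ((x ^ 8 + algebraMap k B t * x ^ 4 * y ^ 4 + y ^ 8) ^ m) ^ 4 *
      (x ^ 8 + algebraMap k B t * x ^ 4 * y ^ 4 + y ^ 8) ^ 3 =
      (x ^ p) ^ 8 + algebraMap k B (t ^ p) * (x ^ p) ^ 4 * (y ^ p) ^ 4 + (y ^ p) ^ 8 := by
  have h1 : ((x ^ 8 + algebraMap k B t * x ^ 4 * y ^ 4 + y ^ 8) ^ m) ^ 4 *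
      (x ^ 8 + algebraMap k B t * x ^ 4 * y ^ 4 + y ^ 8) ^ 3 =
      (x ^ 8 + algebraMap k B t * x ^ 4 * y ^ 4 + y ^ 8) ^ p := by
    rw [← pow_mul, ← pow_add, hp]; congr 1; ring
  rw [h1, add_pow_char, add_pow_char, mul_pow, mul_pow, map_pow]
  ring

/-- the big Cohen-Macaulay algebra over `ℂ[x, y]_(x, y)` -/
theorem exists_bigCM_complex (lam : ℂ) (hlam : Transcendental ℤ lam) :
    ∃ (B : Type) (_ : CommRing B) (_ : Algebra (Rloc ℂ) B), IsBigCM (Rloc ℂ) B ∧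
      ∃ v a b c : B,
        v ^ 4 = algebraMap (Rloc ℂ) B (algebraMap (MvPolynomial (Fin 2) ℂ) (Rloc ℂ)
          (MvPolynomial.X 0 ^ 8 + MvPolynomial.C lam * MvPolynomial.X 0 ^ 4 *
            MvPolynomial.X 1 ^ 4 + MvPolynomial.X 1 ^ 8)) ∧
        algebraMap (Rloc ℂ) B (algebraMap (MvPolynomial (Fin 2) ℂ) (Rloc ℂ)
          (MvPolynomial.X 0 ^ 2 * MvPolynomial.X 1 ^ 2)) =
          a * algebraMap (Rloc ℂ) B (algebraMap (MvPolynomial (Fin 2) ℂ) (Rloc ℂ)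
            (MvPolynomial.X 0 ^ 3)) +
          b * algebraMap (Rloc ℂ) B (algebraMap (MvPolynomial (Fin 2) ℂ) (Rloc ℂ)
            (MvPolynomial.X 1 ^ 3)) + c * v := by
  obtain ⟨t, ht, hτ⟩ := exists_generic_family
  obtain ⟨θ, hθ⟩ := exists_embed (UProd VV kk)
    (continuum_le_card VV_le (fun i => i.1) Subtype.val_injective (fun i => i.2.1.pos) kk)
    (umk (fun i => t i ^ i.1)) hτ lam hlam
  have hmi : ∀ i : I3, i.1 = 4 * (i.1 / 4) + 3 := by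
    intro i
    have := i.2.2
    omega
  have hgen : ∀ i : I3, ∃ C0 A0 B0 : (kk i)[X], C0.natDegree ≤ 2 * (i.1 / 4) ∧
      A0.natDegree < i.1 / 4 + 1 ∧ B0.natDegree < i.1 / 4 + 1 ∧
      C0 * qq (t i) ^ (i.1 / 4 + 1) = X ^ (i.1 / 4 + 1 + i.1 / 4) + B0 +
        X ^ (i.1 / 4 + 1 + 2 * (i.1 / 4) + 1) * A0 :=
    fun i => generic_params (by omega) (by omega) (ht i)
  choose C0 A0 B0 hC0 hA0 hB0 hCAB using hgen
  let x : ∀ i, PP i := fun i => MvPowerSeries.X 0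
  let y : ∀ i, PP i := fun i => MvPowerSeries.X 1
  let Gi : ∀ i, PP i := fun i =>
    x i ^ 8 + algebraMap (kk i) (PP i) (t i) * x i ^ 4 * y i ^ 4 + y i ^ 8
  let Ch : ∀ i, PP i := fun i => hev (2 * (i.1 / 4)) (C0 i) (x i ^ 4) (y i ^ 4)
  let Ah : ∀ i, PP i := fun i => hev (i.1 / 4) (A0 i) (x i ^ 4) (y i ^ 4)
  let Bh : ∀ i, PP i := fun i => hev (i.1 / 4) (B0 i) (x i ^ 4) (y i ^ 4)
  have hG2 : ∀ i, hev 2 (qq (t i)) (x i ^ 4) (y i ^ 4) = Gi i := by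
    intro i
    rw [hev_qq]
    show _ = x i ^ 8 + algebraMap (kk i) (PP i) (t i) * x i ^ 4 * y i ^ 4 + y i ^ 8
    ring
  have hhom : ∀ i, Ch i * Gi i ^ (i.1 / 4 + 1) =
      (x i ^ 4) ^ (2 * (i.1 / 4) + 1) * (y i ^ 4) ^ (2 * (i.1 / 4) + 1) +
      (y i ^ 4) ^ (3 * (i.1 / 4) + 2) * Bh i + (x i ^ 4) ^ (3 * (i.1 / 4) + 2) * Ah i := by
    intro i
    have := generic_hom (hC0 i) (hA0 i) (hB0 i) (hCAB i) (x i ^ 4) (y i ^ 4)
    rw [hG2] at this
    exact this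
  let G : DD := umk Gi
  let E : Type := AdjoinRoot (X ^ 4 - C G : DD[X])
  let o : DD →+* E := AdjoinRoot.of (X ^ 4 - C G : DD[X])
  let V : E := AdjoinRoot.root (X ^ 4 - C G : DD[X])
  have hV : V ^ 4 = o G := adjoinRoot_root_pow G
  letI algE : Algebra (Rloc ℂ) E := (o.comp (PhiL θ)).toAlgebra
  have halg : ∀ r : Rloc ℂ, algebraMap (Rloc ℂ) E r = o (PhiL θ r) := fun r => rfl
  have hx0 : xD 0 = umk (fun i => x i ^ i.1) := rfl
  have hx1 : xD 1 = umk (fun i => y i ^ i.1) := rfl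
  have hcst : cstD θ lam = umk (fun i => algebraMap (kk i) (PP i) (t i ^ i.1)) := by
    rw [cstD, RingHom.comp_apply, hθ, umap_umk]
    rfl
  obtain ⟨B, hB1, hB2, hB3, ⟨f⟩⟩ := exists_bigCM (ringKrullDim_Rloc ℂ)
    (algebraMap (MvPolynomial (Fin 2) ℂ) (Rloc ℂ) (MvPolynomial.X 0))
    (algebraMap (MvPolynomial (Fin 2) ℂ) (Rloc ℂ) (MvPolynomial.X 1))
    (maximalIdeal_Rloc ℂ) E
    (by
      intro r e hr he
      rw [halg] at he
      exact adjoinRoot_torsion_free G (PhiL_ne_zero θ hr) he)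
    (by
      intro n α β h
      rw [halg, halg, PhiL_algebraMap, PhiL_algebraMap, PhiD_X, PhiD_X, ← map_pow, ← map_pow,
        ← map_pow, ← map_pow, ← map_mul] at h
      obtain ⟨a, b, hab⟩ := adjoinRoot_descend G h
      obtain ⟨a', rfl⟩ := umk_surjective a
      obtain ⟨b', rfl⟩ := umk_surjective b
      rw [hx0, hx1, ← umk_pow, ← umk_pow, ← umk_pow, ← umk_pow, ← umk_mul, ← umk_mul, ← umk_mul,
        ← umk_add, umk_eq_iff] at hab
      obtain ⟨i, hi⟩ := hab.exists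
      rw [← pow_mul, ← pow_mul, ← pow_mul, ← pow_mul] at hi
      have hlt : i.1 * n < i.1 * (n + 1) := Nat.mul_lt_mul_of_pos_left (by omega) i.2.1.pos
      exact ps_mono_ne hlt hlt _ _ hi)
  have hf : ∀ P : MvPolynomial (Fin 2) ℂ,
      algebraMap (Rloc ℂ) B (algebraMap (MvPolynomial (Fin 2) ℂ) (Rloc ℂ) P) =
        f (o (PhiD θ P)) := by
    intro P
    rw [← PhiL_algebraMap, ← halg, f.commutes]
  refine ⟨B, hB1, hB2, hB3, f (o (umk fun i => Gi i ^ (i.1 / 4)) * V ^ 3),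
    f (o (umk fun i => -(Ah i * x i * y i ^ 2))), f (o (umk fun i => -(Bh i * x i ^ 2 * y i))),
    f (o (umk fun i => Ch i * x i ^ 2 * y i ^ 2) * V), ?_, ?_⟩
  · rw [hf, ← map_pow]
    congr 1
    have h1 : (o (umk fun i => Gi i ^ (i.1 / 4)) * V ^ 3) ^ 4 =
        o ((umk fun i => Gi i ^ (i.1 / 4)) ^ 4 * G ^ 3) := by
      rw [mul_pow, map_mul, map_pow, map_pow, ← hV]; ring
    rw [h1]
    congr 1
    rw [map_add, map_add, map_mul, map_mul, map_pow, map_pow, map_pow, map_pow, PhiD_X, PhiD_X,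
      PhiD_C, hcst, hx0, hx1, ← umk_pow, ← umk_pow, ← umk_pow, ← umk_pow, ← umk_pow, ← umk_pow,
      ← umk_mul, ← umk_mul, ← umk_mul, ← umk_add, ← umk_add]
    congr 1
    funext i
    haveI := charP_ps (kk i) i.1
    exact pointwise_frob (hmi i) (x i) (y i) (t i)
  · rw [hf, hf, hf]
    have key : o (PhiD θ (MvPolynomial.X 0 ^ 2 * MvPolynomial.X 1 ^ 2)) =
        o (umk fun i => -(Ah i * x i * y i ^ 2)) * o (PhiD θ (MvPolynomial.X 0 ^ 3)) +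
        o (umk fun i => -(Bh i * x i ^ 2 * y i)) * o (PhiD θ (MvPolynomial.X 1 ^ 3)) +
        (o (umk fun i => Ch i * x i ^ 2 * y i ^ 2) * V) *
          (o (umk fun i => Gi i ^ (i.1 / 4)) * V ^ 3) := by
      have h1 : o (umk fun i => Ch i * x i ^ 2 * y i ^ 2) * V *
          (o (umk fun i => Gi i ^ (i.1 / 4)) * V ^ 3) =
          o ((umk fun i => Ch i * x i ^ 2 * y i ^ 2) * (umk fun i => Gi i ^ (i.1 / 4)) * G) := by
        rw [map_mul, map_mul, ← hV]; ring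
      rw [h1, ← map_mul o, ← map_mul o, ← map_add o, ← map_add o]
      congr 1
      rw [map_mul, map_pow, map_pow, map_pow, map_pow, PhiD_X, PhiD_X, hx0, hx1, ← umk_pow,
        ← umk_pow, ← umk_pow, ← umk_pow, ← umk_mul, ← umk_mul, ← umk_mul, ← umk_mul, ← umk_mul,
        ← umk_add, ← umk_add]
      congr 1
      funext i
      exact pointwise_rel (hmi i) (hhom i)
    have h2 := congrArg f key
    rw [map_add f, map_add f, map_mul f, map_mul f, map_mul f (o (umk fun i =>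
      Ch i * x i ^ 2 * y i ^ 2) * V)] at h2
    exact h2

end Pool.Agent.Lib_helper40
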