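import Pool.Agent.Lib_helper40.Final

namespace Pool.Agent.Lib_helper40

open Filter MvPolynomial

universe u v

section general

variable {ι : Type u} {𝒰 : Ultrafilter ι} {A : ι → Type v} [∀ i, CommRing (A i)]

theorem umk_prod {κ : Type*} (s : Finset κ) (f : κ → ∀ i, A i) :
    (umk (fun i => ∏ j ∈ s, f j i) : UProd 𝒰 A) = ∏ j ∈ s, umk (f j) := by
  have h := map_prod (Ideal.Quotient.mk (nullIdeal 𝒰 A)) f s
  have h2 : (fun i => ∏ j ∈ s, f j i) = ∏ j ∈ s, f j := by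
    funext i; rw [Finset.prod_apply]
  rw [h2]
  exact h

theorem umk_sub (f g : ∀ i, A i) : (umk (fun i => f i - g i) : UProd 𝒰 A) = umk f - umk g :=
  map_sub (Ideal.Quotient.mk (nullIdeal 𝒰 A)) f g

variable {R : Type*} [CommRing R] (σ : Type) [Fintype σ] (g : R →+* UProd 𝒰 A)

/-- the extension of a ring homomorphism into an ultraproduct to polynomial rings -/
noncomputable def psi : MvPolynomial σ R →+* UProd 𝒰 (fun i => MvPolynomial σ (A i)) :=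
  eval₂Hom ((umap (fun i => (C : A i →+* MvPolynomial σ (A i)))).comp g)
    (fun j => umk (fun _ => X j))

omit [Fintype σ] in
theorem psi_C (c : R) : psi σ g (C c) = umap (fun i => (C : A i →+* MvPolynomial σ (A i))) (g c) :=
  eval₂Hom_C _ _ _

omit [Fintype σ] in
theorem psi_X (j : σ) : psi σ g (X j) = umk (fun _ => X j) := eval₂Hom_X' _ _ _

theorem psi_eq {rep : R → ∀ i, A i} (hrep : ∀ c, umk (rep c) = g c) (P : MvPolynomial σ R) :
    psi σ g P = umk (fun i => ∑ m ∈ P.support, monomial m (rep (P.coeff m) i)) := by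
  rw [psi, coe_eval₂Hom, eval₂_eq', umk_sum]
  apply Finset.sum_congr rfl
  intro m _
  have h1 : ∀ i, monomial m (rep (P.coeff m) i) =
      C (rep (P.coeff m) i) * ∏ j : σ, (X j : MvPolynomial σ (A i)) ^ m j := by
    intro i
    rw [monomial_eq, Finsupp.prod_fintype _ _ (fun j => pow_zero _)]
  have h2 : (fun i => monomial m (rep (P.coeff m) i)) = (fun i =>
      C (rep (P.coeff m) i) * ∏ j : σ, (X j : MvPolynomial σ (A i)) ^ m j) := funext h1
  rw [h2, umk_mul, umk_prod, RingHom.comp_apply, ← hrep, umap_umk]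
  congr 1
end general

section approx

variable {𝒰 : Ultrafilter Nat.Primes} (φ : UProd 𝒰 Fbar ≃+* ℂ)

theorem psi1_eq {α : ℂ → ∀ p : Nat.Primes, Fbar p} (hα : IsApproximation φ α)
    (P : MvPolynomial (Fin 2) ℂ) :
    psi (Fin 2) (φ.symm : ℂ →+* UProd 𝒰 Fbar) P = umk (fun p => approxPoly α p P) := by
  rw [psi_eq (Fin 2) (φ.symm : ℂ →+* UProd 𝒰 Fbar) (rep := α)]
  · rfl
  · intro c
    apply φ.injective
    rw [hα c]
    exact (φ.apply_symm_apply c).symm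

theorem psi2_eq {α : ℂ → ∀ p : Nat.Primes, Fbar p} (hα : IsApproximation φ α) {n : ℕ}
    (h : MvPolynomial (Fin n) (MvPolynomial (Fin 2) ℂ)) :
    psi (Fin n) (psi (Fin 2) (φ.symm : ℂ →+* UProd 𝒰 Fbar)) h =
      umk (fun p => approxPolyY α p h) := by
  rw [psi_eq (Fin n) _ (rep := fun P p => approxPoly α p P)]
  · rfl
  · intro c
    exact (psi1_eq φ hα c).symm

/-- the polynomial rings in `Y_1, ..., Y_4` over `F_p[x, y]` -/
abbrev Q4 (p : Nat.Primes) : Type := MvPolynomial (Fin 4) (MvPolynomial (Fin 2) (Fbar p))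

theorem psi2_hrel_zero {lam : ℂ} {s : ∀ p : Nat.Primes, Fbar p} (hs : φ (umk s) = lam) :
    psi (Fin 4) (psi (Fin 2) (φ.symm : ℂ →+* UProd 𝒰 Fbar)) (hrel ℂ lam 0) =
      umk (fun p => hrel (Fbar p) (s p) 0) := by
  have h1 : (φ.symm : ℂ →+* UProd 𝒰 Fbar) lam = umk s := by
    rw [← hs]; exact φ.symm_apply_apply _
  simp only [hrel, Matrix.cons_val_zero]
  rw [umk_sub, umk_pow, map_sub, map_pow, psi_X, psi_C]
  congr 1
  rw [map_add (psi (Fin 2) _), map_add (psi (Fin 2) _), map_mul (psi (Fin 2) _),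
    map_mul (psi (Fin 2) _), map_pow (psi (Fin 2) _), map_pow (psi (Fin 2) _),
    map_pow (psi (Fin 2) _), map_pow (psi (Fin 2) _), psi_X, psi_X, psi_C, h1, umap_umk,
    ← umk_pow, ← umk_pow, ← umk_pow, ← umk_pow, ← umk_mul, ← umk_mul, ← umk_add, ← umk_add,
    umap_umk]

theorem psi2_hrel_one (lam : ℂ) (s : ∀ p : Nat.Primes, Fbar p) :
    psi (Fin 4) (psi (Fin 2) (φ.symm : ℂ →+* UProd 𝒰 Fbar)) (hrel ℂ lam 1) =
      umk (fun p => hrel (Fbar p) (s p) 1) := by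
  obtain ⟨Ψ, hΨ⟩ : ∃ Ψ : MvPolynomial (Fin 4) (MvPolynomial (Fin 2) ℂ) →+* UProd 𝒰 Q4,
    Ψ = psi (Fin 4) (psi (Fin 2) (φ.symm : ℂ →+* UProd 𝒰 Fbar)) := ⟨_, rfl⟩
  have e1 : Ψ (C (X 0 ^ 2 * X 1 ^ 2)) =
      (umk (fun _ => C (X 0 ^ 2 * X 1 ^ 2)) : UProd 𝒰 Q4) := by
    rw [hΨ, psi_C, map_mul, map_pow, map_pow, psi_X, psi_X, ← umk_pow, ← umk_pow, ← umk_mul,
      umap_umk]
  have e2 : Ψ (C (X 0 ^ 3)) = (umk (fun _ => C (X 0 ^ 3)) : UProd 𝒰 Q4) := by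
    rw [hΨ, psi_C, map_pow, psi_X, ← umk_pow, umap_umk]
  have e3 : Ψ (C (X 1 ^ 3)) = (umk (fun _ => C (X 1 ^ 3)) : UProd 𝒰 Q4) := by
    rw [hΨ, psi_C, map_pow, psi_X, ← umk_pow, umap_umk]
  have e4 : ∀ j, Ψ (X j) = (umk (fun _ => X j) : UProd 𝒰 Q4) := by
    intro j
    rw [hΨ]
    exact psi_X _ _ j
  rw [← hΨ]
  have e5 : Ψ (hrel ℂ lam 1) = Ψ (C (X 0 ^ 2 * X 1 ^ 2)) - (Ψ (X 1) * Ψ (C (X 0 ^ 3)) +
      Ψ (X 2) * Ψ (C (X 1 ^ 3)) + Ψ (X 3) * Ψ (X 0)) := by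
    rw [← map_mul Ψ, ← map_mul Ψ, ← map_mul Ψ, ← map_add Ψ, ← map_add Ψ, ← map_sub Ψ]
    rfl
  rw [e5, e1, e2, e3, e4, e4, e4, e4, ← umk_mul, ← umk_mul, ← umk_mul, ← umk_add, ← umk_add,
    ← umk_sub]
  rfl

theorem psi2_hrel {lam : ℂ} {s : ∀ p : Nat.Primes, Fbar p} (hs : φ (umk s) = lam) (j : Fin 2) :
    psi (Fin 4) (psi (Fin 2) (φ.symm : ℂ →+* UProd 𝒰 Fbar)) (hrel ℂ lam j) =
      umk (fun p => hrel (Fbar p) (s p) j) := by
  fin_cases j
  · exact psi2_hrel_zero φ hs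
  · exact psi2_hrel_one φ lam s

end approx

/-- **Main theorem.** -/
theorem main_theorem (𝒰 : Ultrafilter Nat.Primes) (h𝒰 : ∀ p : Nat.Primes, {p} ∉ 𝒰)
    (φ : UProd 𝒰 Fbar ≃+* ℂ) :
    ∃ (n r : ℕ) (h : Fin r → MvPolynomial (Fin n) (MvPolynomial (Fin 2) ℂ)),
      PresMapsToBigCM.{0} ℂ h ∧
      ∀ α : ℂ → ∀ p : Nat.Primes, Fbar p, IsApproximation φ α →
        {p : Nat.Primes | PresMapsToBigCM.{u} (Fbar p) (fun j => approxPolyY α p (h j))} ∉ 𝒰 := by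
  have hcof : (𝒰 : Filter Nat.Primes) ≤ cofinite := by
    rcases 𝒰.le_cofinite_or_eq_pure with h | ⟨p, hp⟩
    · exact h
    · exfalso
      apply h𝒰 p
      rw [hp]
      exact Filter.mem_pure.mpr rfl
  obtain ⟨s, hs1, hs2⟩ := exists_special_family
  have htr : Transcendental ℤ (umk s : UProd 𝒰 Fbar) := transcendental_umk hcof s hs2
  set lam : ℂ := φ (umk s) with hlam
  have hlamtr : Transcendental ℤ lam := by
    rw [transcendental_iff] at htr ⊢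
    intro F hF
    apply htr
    apply φ.injective
    rw [map_zero, ← hF, hlam]
    have := Polynomial.aeval_algHom_apply (φ : UProd 𝒰 Fbar →+* ℂ).toIntAlgHom (umk s) F
    exact this.symm
  refine ⟨4, 2, hrel ℂ lam, ?_, ?_⟩
  · obtain ⟨B, hB1, hB2, hB3, v, a, b, c, hv, hr⟩ := exists_bigCM_complex lam hlamtr
    refine ⟨B, hB1, hB2, hB3, ?_⟩
    rw [presAlg_hom_iff]
    refine ⟨![v, a, b, c], ?_⟩
    intro j
    fin_cases j
    · show aeval ![v, a, b, c] (toLoc ℂ (hrel ℂ lam 0)) = 0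
      rw [hrel_zero, sub_eq_zero]
      exact hv
    · show aeval ![v, a, b, c] (toLoc ℂ (hrel ℂ lam 1)) = 0
      rw [hrel_one, sub_eq_zero]
      exact hr
  · intro α hα hmem
    have hev : ∀ j : Fin 2, ∀ᶠ p in (𝒰 : Filter Nat.Primes),
        approxPolyY α p (hrel ℂ lam j) = hrel (Fbar p) (s p) j := by
      intro j
      rw [← umk_eq_iff, ← psi2_eq φ hα, psi2_hrel φ hlam.symm]
    have hlarge : ∀ᶠ p in (𝒰 : Filter Nat.Primes), 5 ≤ p.1 := by
      apply hcof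
      have hpr : Function.Injective (fun p : Nat.Primes => p.1) := Nat.Primes.coe_nat_injective
      have htend0 : Tendsto (fun p : Nat.Primes => p.1) cofinite atTop := by
        rw [← Nat.cofinite_eq_atTop]
        exact hpr.tendsto_cofinite
      exact htend0.eventually_ge_atTop 5
    obtain ⟨p, ⟨⟨h0, h1⟩, h5⟩, B, hB1, hB2, hB3, hB4⟩ :=
      ((((hev 0).and (hev 1)).and hlarge).and hmem).exists
    rw [presAlg_hom_iff] at hB4
    obtain ⟨y, hy⟩ := hB4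
    have hy0 : aeval y (toLoc (Fbar p) (approxPolyY α p (hrel ℂ lam 0))) = 0 := hy 0
    have hy1 : aeval y (toLoc (Fbar p) (approxPolyY α p (hrel ℂ lam 1))) = 0 := hy 1
    rw [h0] at hy0
    rw [h1] at hy1
    exact not_seed_of_isSpecial p.1 h5 (Fbar p) (hs1 p h5) B hB3 y hy0 hy1

end Pool.Agent.Lib_helper40
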