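import Pool.Agent.Lib_helper40.Special3

namespace Pool.Agent.Lib_helper40

open Polynomial

section hev

variable {F : Type*} [CommRing F] {E : Type*} [CommRing E] [Algebra F E]

/-- evaluation of the homogenization of degree `N` of a univariate polynomial -/
noncomputable def hev (N : ℕ) (P : F[X]) (a b : E) : E :=
  MvPolynomial.aeval ![a, b] (P.homogenize N)

theorem hev_add (N : ℕ) (P Q : F[X]) (a b : E) : hev N (P + Q) a b = hev N P a b + hev N Q a b := by
  simp [hev]

theorem hev_mul {N M : ℕ} {P Q : F[X]} (hP : P.natDegree ≤ N) (hQ : Q.natDegree ≤ M) (a b : E) :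
    hev (N + M) (P * Q) a b = hev N P a b * hev M Q a b := by
  rw [hev, homogenize_mul _ _ hP hQ, map_mul]; rfl

theorem hev_one (N : ℕ) (a b : E) : hev N (1 : F[X]) a b = b ^ N := by
  simp [hev]

theorem hev_C (N : ℕ) (c : F) (a b : E) : hev N (C c : F[X]) a b = algebraMap F E c * b ^ N := by
  simp [hev]

theorem hev_X_pow (N : ℕ) (a b : E) : hev N (X ^ N : F[X]) a b = a ^ N := by
  simp [hev]

theorem hev_X_pow_mul {N u : ℕ} {A : F[X]} (hA : A.natDegree ≤ N) (a b : E) :
    hev (u + N) (X ^ u * A) a b = a ^ u * hev N A a b := by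
  rw [hev_mul (natDegree_X_pow_le u) hA, hev_X_pow]

theorem hev_low {N u : ℕ} {A : F[X]} (hA : A.natDegree ≤ N) (a b : E) :
    hev (u + N) A a b = b ^ u * hev N A a b := by
  have h := hev_mul (N := u) (P := (1 : F[X])) (Q := A) (by simp) hA a b
  rw [one_mul, hev_one] at h
  exact h

theorem hev_pow {N : ℕ} {P : F[X]} (hP : P.natDegree ≤ N) (n : ℕ) (a b : E) :
    hev (n * N) (P ^ n) a b = hev N P a b ^ n := by
  induction n with
  | zero => rw [zero_mul, pow_zero, hev_one, pow_zero, pow_zero]
  | succ n ih =>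
    rw [pow_succ, Nat.succ_mul, hev_mul _ hP, ih, pow_succ]
    exact (natDegree_pow_le).trans (Nat.mul_le_mul_left n hP)

theorem hev_qq (s : F) (a b : E) :
    hev 2 (qq s) a b = a ^ 2 + algebraMap F E s * a * b + b ^ 2 := by
  rw [qq, hev_add, hev_add, hev_X_pow, hev_one]
  congr 2
  have h1 : hev 2 (C s * X : F[X]) a b = hev 1 (C s : F[X]) a b * hev 1 (X : F[X]) a b := by
    rw [← hev_mul]
    · simp
    · exact natDegree_X_le
  rw [h1, hev_C]
  have : hev 1 (X : F[X]) a b = a := by
    have := hev_X_pow (F := F) 1 a b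
    rwa [pow_one, pow_one] at this
  rw [this, pow_one]
  ring

end hev

end Pool.Agent.Lib_helper40
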