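import Pool.Agent.Lib_helper40.Embed
import Pool.Agent.Lib_helper40.Hom

namespace Pool.Agent.Lib_helper40

open Polynomial

section quartic

variable {D : Type*} [CommRing D]

theorem quartic_monic (G : D) : (X ^ 4 - C G : D[X]).Monic :=
  monic_X_pow_sub_C G (by norm_num)

theorem adjoinRoot_torsion_free [IsDomain D] (G : D) {d : D} (hd : d ≠ 0)
    {e : AdjoinRoot (X ^ 4 - C G : D[X])} (h : AdjoinRoot.of (X ^ 4 - C G : D[X]) d * e = 0) :
    e = 0 := by
  have hb := (AdjoinRoot.powerBasis' (quartic_monic G)).basis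
  have h1 : d • e = 0 := by
    rw [Algebra.smul_def]
    exact h
  have h2 : hb.repr (d • e) = 0 := by rw [h1, map_zero]
  rw [map_smul] at h2
  have h3 : hb.repr e = 0 := by
    ext i
    have := congrArg (fun z => z i) h2
    simp only [Finsupp.smul_apply, Finsupp.coe_zero, Pi.zero_apply, smul_eq_mul] at this
    rcases mul_eq_zero.mp this with h4 | h4
    · exact absurd h4 hd
    · exact h4
  exact hb.repr.map_eq_zero_iff.mp h3

theorem adjoinRoot_descend [Nontrivial D] (G : D) {d1 d2 d3 : D}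
    {α β : AdjoinRoot (X ^ 4 - C G : D[X])}
    (h : AdjoinRoot.of (X ^ 4 - C G : D[X]) d1 = AdjoinRoot.of (X ^ 4 - C G : D[X]) d2 * α +
      AdjoinRoot.of (X ^ 4 - C G : D[X]) d3 * β) : ∃ a b : D, d1 = d2 * a + d3 * b := by
  set pb := AdjoinRoot.powerBasis' (quartic_monic G) with hpb
  have hdim : pb.dim = 4 := by
    rw [hpb, AdjoinRoot.powerBasis'_dim, natDegree_X_pow_sub_C]
  have hpos : 0 < pb.dim := by rw [hdim]; norm_num
  have h1 : pb.basis ⟨0, hpos⟩ = 1 := by
    rw [pb.basis_eq_pow]; simp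
  let π := pb.basis.coord ⟨0, hpos⟩
  have hπ1 : π 1 = 1 := by
    show pb.basis.repr 1 ⟨0, hpos⟩ = 1
    rw [← h1, pb.basis.repr_self, Finsupp.single_eq_same]
  have hπ : ∀ (d : D) (e : AdjoinRoot (X ^ 4 - C G : D[X])),
      π (AdjoinRoot.of (X ^ 4 - C G : D[X]) d * e) = d * π e := by
    intro d e
    have h2 : AdjoinRoot.of (X ^ 4 - C G : D[X]) d * e = d • e := by
      rw [Algebra.smul_def]; rfl
    rw [h2, map_smul, smul_eq_mul]
  refine ⟨π α, π β, ?_⟩
  have h3 := congrArg π h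
  rw [map_add, hπ, hπ] at h3
  rw [← h3, ← mul_one (AdjoinRoot.of (X ^ 4 - C G : D[X]) d1), hπ, hπ1, mul_one]

theorem adjoinRoot_root_pow (G : D) : (AdjoinRoot.root (X ^ 4 - C G : D[X])) ^ 4 =
    AdjoinRoot.of (X ^ 4 - C G : D[X]) G := by
  have h := AdjoinRoot.eval₂_root (X ^ 4 - C G : D[X])
  rw [eval₂_sub, eval₂_X_pow, eval₂_C, sub_eq_zero] at h
  exact h

end quartic

section generic

variable {k : Type*} [Field k] {B : Type*} [CommRing B] [Algebra k B]

theorem generic_hom {m : ℕ} {s : k} {C0 A0 B0 : k[X]} (hC : C0.natDegree ≤ 2 * m)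
    (hA : A0.natDegree < m + 1) (hB : B0.natDegree < m + 1)
    (h : C0 * qq s ^ (m + 1) = X ^ (m + 1 + m) + B0 + X ^ (m + 1 + 2 * m + 1) * A0) (a b : B) :
    hev (2 * m) C0 a b * (hev 2 (qq s) a b) ^ (m + 1) =
      a ^ (2 * m + 1) * b ^ (2 * m + 1) + b ^ (3 * m + 2) * hev m B0 a b +
        a ^ (3 * m + 2) * hev m A0 a b := by
  have h1 : hev (2 * m + (m + 1) * 2) (C0 * qq s ^ (m + 1)) a b =
      hev (2 * m + (m + 1) * 2) (X ^ (m + 1 + m) + B0 + X ^ (m + 1 + 2 * m + 1) * A0) a b := by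
    rw [h]
  have hq : (qq s ^ (m + 1)).natDegree ≤ (m + 1) * 2 :=
    (natDegree_pow_le).trans (Nat.mul_le_mul_left _ (qq_natDegree_le s))
  have e1 : hev (2 * m + (m + 1) * 2) (X ^ (m + 1 + m) : k[X]) a b =
      a ^ (2 * m + 1) * b ^ (2 * m + 1) := by
    have h2 := hev_X_pow_mul (F := k) (N := 2 * m + 1) (u := m + 1 + m) (A := 1) (by simp) a b
    rw [mul_one, hev_one] at h2
    rw [show 2 * m + (m + 1) * 2 = m + 1 + m + (2 * m + 1) by ring, h2]
    congr 2; ring
  rw [hev_mul hC hq, hev_pow (qq_natDegree_le s), hev_add, hev_add, e1,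
    show 2 * m + (m + 1) * 2 = (m + 1 + 2 * m + 1) + m by ring,
    hev_X_pow_mul (by omega), hev_low (by omega)] at h1
  rw [h1]
  ring

end generic

section ps

variable {k : Type*} [Field k]

instance : IsDomain (MvPowerSeries (Fin 2) k) := NoZeroDivisors.to_isDomain _

theorem charP_ps (k : Type*) [Field k] (p : ℕ) [CharP k p] : CharP (MvPowerSeries (Fin 2) k) p :=
  charP_of_injective_algebraMap (algebraMap k (MvPowerSeries (Fin 2) k)).injective p

theorem ps_mono_ne {a b a' b' : ℕ} (ha : a < a') (hb : b < b')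
    (u w : MvPowerSeries (Fin 2) k) :
    (MvPowerSeries.X 0 ^ a * MvPowerSeries.X 1 ^ b : MvPowerSeries (Fin 2) k) ≠
      MvPowerSeries.X 0 ^ a' * u + MvPowerSeries.X 1 ^ b' * w := by
  classical
  intro h
  set m : Fin 2 →₀ ℕ := Finsupp.single 0 a + Finsupp.single 1 b with hm
  have hm0 : m 0 = a := by simp [hm]
  have hm1 : m 1 = b := by simp [hm]
  have h1 := congrArg (MvPowerSeries.coeff m) h
  rw [map_add, MvPowerSeries.X_pow_dvd_iff.mp (Dvd.intro u rfl) m (by rw [hm0]; exact ha),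
    MvPowerSeries.X_pow_dvd_iff.mp (Dvd.intro w rfl) m (by rw [hm1]; exact hb), add_zero,
    MvPowerSeries.X_pow_eq, MvPowerSeries.X_pow_eq, MvPowerSeries.monomial_mul_monomial,
    MvPowerSeries.coeff_monomial, if_pos rfl] at h1
  simp at h1

end ps

end Pool.Agent.Lib_helper40
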