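import Mathlib
import Pool.Agent.Lib_helper68.UH.Length

/-!
# Borel actions of Polish groups and continuous actions on compact metrizable spaces

Every Borel action of a Polish group on a standard Borel space embeds, by an injective equivariant
Borel map, in a continuous action on a compact metrizable space.
-/

set_option autoImplicit false

open Set Topology Filter

noncomputable section

namespace Pool.Agent.BorelAct

/-! ### The category quantifier -/

section Cat

variable {G : Type} [TopologicalSpace G] [MeasurableSpace G] [BorelSpace G]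

/-- A Borel set which is not meagre is comeagre in a nonempty open set. -/
theorem exists_open {T : Set G} (hT : MeasurableSet T) {W : Set G} (hW : IsOpen W)
    (h : ¬ IsMeagre (T ∩ W)) :
    ∃ V : Set G, IsOpen V ∧ V.Nonempty ∧ V ⊆ W ∧ IsMeagre (V \ T) := by
  obtain ⟨U, hU, hTU⟩ := hT.residualEq_isOpen
  have h1 : IsMeagre (T \ U) := by
    have h2 : T ≤ᶠ[residual G] U := hTU.le
    rw [IsMeagre]
    filter_upwards [h2] with x hx hx'
    exact hx'.2 (hx hx'.1)
  have h3 : IsMeagre (U \ T) := by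
    have h2 : U ≤ᶠ[residual G] T := hTU.symm.le
    rw [IsMeagre]
    filter_upwards [h2] with x hx hx'
    exact hx'.2 (hx hx'.1)
  refine ⟨U ∩ W, hU.inter hW, ?_, inter_subset_right, h3.mono ?_⟩
  · by_contra hne
    rw [not_nonempty_iff_eq_empty] at hne
    refine h (h1.mono ?_)
    rintro x ⟨hx, hxW⟩
    exact ⟨hx, fun hxU => (hne ▸ (⟨hxU, hxW⟩ : x ∈ U ∩ W) : x ∈ (∅ : Set G))⟩
  · rintro x ⟨⟨hx, -⟩, hxT⟩
    exact ⟨hx, hxT⟩

theorem compl_iff [BaireSpace G] [SecondCountableTopology G] {T U : Set G} (hT : MeasurableSet T)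
    (hU : IsOpen U) : ¬ IsMeagre (Tᶜ ∩ U) ↔
      ∃ V ∈ TopologicalSpace.countableBasis G, V ⊆ U ∧ IsMeagre (T ∩ V) := by
  constructor
  · intro h
    obtain ⟨W, hW, ⟨x, hx⟩, hWU, hm⟩ := exists_open hT.compl hU h
    obtain ⟨V, hV, hxV, hVW⟩ :=
      (TopologicalSpace.isBasis_countableBasis G).exists_subset_of_mem_open hx hW
    refine ⟨V, hV, hVW.trans hWU, hm.mono ?_⟩
    rintro z ⟨hz, hzV⟩
    exact ⟨hVW hzV, fun h => h hz⟩
  · rintro ⟨V, hV, hVU, hm⟩ h
    refine not_isMeagre_of_isOpen (TopologicalSpace.isOpen_of_mem_countableBasis hV)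
      (TopologicalSpace.nonempty_of_mem_countableBasis hV) ((hm.union h).mono ?_)
    intro z hz
    by_cases hzT : z ∈ T
    · exact Or.inl ⟨hzT, hz⟩
    · exact Or.inr ⟨hzT, hVU hz⟩

/-- The theorem of Montgomery and Novikov. -/
theorem measurableSet_nonmeagre [BaireSpace G] [SecondCountableTopology G] {Y : Type} [MeasurableSpace Y]
    (P : Set (Y × G)) (hP : MeasurableSet P) :
    ∀ U : Set G, IsOpen U → MeasurableSet {y | ¬ IsMeagre (Prod.mk y ⁻¹' P ∩ U)} := by
  have hgen : (Prod.instMeasurableSpace : MeasurableSpace (Y × G)) =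
      MeasurableSpace.generateFrom (image2 (· ×ˢ ·) {s : Set Y | MeasurableSet s}
        {t : Set G | MeasurableSet t}) := generateFrom_prod.symm
  have hP' : @MeasurableSet _ (MeasurableSpace.generateFrom (image2 (· ×ˢ ·)
      {s : Set Y | MeasurableSet s} {t : Set G | MeasurableSet t})) P := hgen ▸ hP
  induction P, hP' using MeasurableSpace.generateFrom_induction with
  | hC t ht _ =>
    obtain ⟨A, hA, B, hB, rfl⟩ := ht
    intro U hU
    by_cases hm : IsMeagre (B ∩ U)
    · have h1 : {y : Y | ¬ IsMeagre (Prod.mk y ⁻¹' (A ×ˢ B) ∩ U)} = ∅ := by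
        rw [eq_empty_iff_forall_notMem]
        intro y hy
        refine hy (hm.mono ?_)
        rintro z ⟨hz, hzU⟩
        exact ⟨hz.2, hzU⟩
      rw [h1]
      exact MeasurableSet.empty
    · have h1 : {y : Y | ¬ IsMeagre (Prod.mk y ⁻¹' (A ×ˢ B) ∩ U)} = A := by
        ext y
        constructor
        · intro hy
          obtain ⟨z, hz⟩ := nonempty_of_not_isMeagre hy
          exact hz.1.1
        · intro hy hy'
          refine hm (hy'.mono ?_)
          rintro z ⟨hz, hzU⟩
          exact ⟨⟨hy, hz⟩, hzU⟩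
      rw [h1]
      exact hA
  | empty =>
    intro U hU
    have h1 : {y : Y | ¬ IsMeagre (Prod.mk y ⁻¹' (∅ : Set (Y × G)) ∩ U)} = ∅ := by
      rw [eq_empty_iff_forall_notMem]
      intro y hy
      apply hy
      rw [preimage_empty, empty_inter]
      exact IsMeagre.empty
    rw [h1]
    exact MeasurableSet.empty
  | compl t ht ih =>
    intro U hU
    have htm : MeasurableSet t := by rw [hgen]; exact ht
    have h1 : {y : Y | ¬ IsMeagre (Prod.mk y ⁻¹' tᶜ ∩ U)} =
        ⋃ V ∈ {V ∈ TopologicalSpace.countableBasis G | V ⊆ U},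
          {y : Y | ¬ IsMeagre (Prod.mk y ⁻¹' t ∩ V)}ᶜ := by
      ext y
      have h2 := compl_iff (T := Prod.mk y ⁻¹' t) (measurable_prodMk_left htm) hU
      simp only [mem_ofPred_eq, mem_iUnion, exists_prop, mem_compl_iff, not_not, preimage_compl]
      rw [h2]
      constructor
      · rintro ⟨V, h3, h4, h5⟩
        exact ⟨V, ⟨h3, h4⟩, h5⟩
      · rintro ⟨V, ⟨h3, h4⟩, h5⟩
        exact ⟨V, h3, h4, h5⟩
    rw [h1]
    refine MeasurableSet.biUnion ((TopologicalSpace.countable_countableBasis G).mono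
      (fun V hV => hV.1)) fun V hV => ?_
    exact (ih htm V (TopologicalSpace.isOpen_of_mem_countableBasis hV.1)).compl
  | iUnion s hs ih =>
    intro U hU
    have hsm : ∀ i, MeasurableSet (s i) := fun i => by rw [hgen]; exact hs i
    have h1 : {y : Y | ¬ IsMeagre (Prod.mk y ⁻¹' (⋃ i, s i) ∩ U)} =
        ⋃ i, {y : Y | ¬ IsMeagre (Prod.mk y ⁻¹' (s i) ∩ U)} := by
      ext y
      simp only [mem_ofPred_eq, mem_iUnion]
      constructor
      · intro h
        by_contra hcon
        push Not at hcon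
        apply h
        rw [preimage_iUnion, iUnion_inter]
        exact isMeagre_iUnion hcon
      · rintro ⟨i, hi⟩ h
        exact hi (h.mono (inter_subset_inter_left _ (preimage_mono (subset_iUnion s i))))
    rw [h1]
    exact MeasurableSet.iUnion fun i => ih i (hsm i) U hU

end Cat

/-! ### Sequences of Lipschitz functions -/

section Lip

variable {G : Type} [TopologicalSpace G] [Group G] [IsTopologicalGroup G] [PolishSpace G]

/-- A length function which defines the topology. -/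
structure IsLen (L : G → ℝ) : Prop where
  one : L 1 = 0
  nonneg : ∀ g, 0 ≤ L g
  inv : ∀ g, L g⁻¹ = L g
  mul : ∀ g h, L (g * h) ≤ L g + L h
  cont : Continuous L
  nhds : ∀ W ∈ 𝓝 (1 : G), ∃ ε > 0, ∀ g, L g < ε → g ∈ W

theorem exists_len : ∃ L : G → ℝ, IsLen L := by
  obtain ⟨L, h1, h2, -, h4, h5, h6, h7⟩ := Pool.Agent.Helper68UH.exists_length G
  exact ⟨L, h1, h2, h4, h5, h6, h7⟩

/-- Sequences of Lipschitz functions with values in the unit interval. -/
def LG (L : G → ℝ) : Type :=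
  {f : ℕ → G → ℝ // ∀ n, (∀ x, f n x ∈ Icc (0 : ℝ) 1) ∧ ∀ x y, |f n x - f n y| ≤ L (x⁻¹ * y)}

variable {L : G → ℝ}

instance : TopologicalSpace (LG L) := instTopologicalSpaceSubtype
instance : MeasurableSpace (LG L) := borel (LG L)
instance : BorelSpace (LG L) := ⟨rfl⟩

theorem ev_cont (n : ℕ) (x : G) : Continuous fun f : ℕ → G → ℝ => f n x :=
  (continuous_apply x).comp (continuous_apply n)

theorem LG_coord (n : ℕ) (x : G) : Continuous fun f : LG L => f.1 n x :=
  (ev_cont n x).comp continuous_subtype_val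

theorem LG_closed :
    IsClosed {f : ℕ → G → ℝ | ∀ n, (∀ x, f n x ∈ Icc (0 : ℝ) 1) ∧
      ∀ x y, |f n x - f n y| ≤ L (x⁻¹ * y)} := by
  have e := ev_cont (G := G)
  simp only [Set.ofPred_forall, Set.ofPred_and]
  refine isClosed_iInter fun n => IsClosed.inter ?_ ?_
  · exact isClosed_iInter fun x => isClosed_Icc.preimage (e n x)
  · exact isClosed_iInter fun x => isClosed_iInter fun y =>
      isClosed_le ((e n x).sub (e n y)).abs continuous_const

theorem LG_compact :
    IsCompact {f : ℕ → G → ℝ | ∀ n, (∀ x, f n x ∈ Icc (0 : ℝ) 1) ∧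
      ∀ x y, |f n x - f n y| ≤ L (x⁻¹ * y)} := by
  refine IsCompact.of_isClosed_subset (s := Set.pi univ fun _ : ℕ => Set.pi univ fun _ : G =>
    Icc (0 : ℝ) 1) (isCompact_univ_pi fun n => isCompact_univ_pi fun x => isCompact_Icc)
    LG_closed ?_
  intro f hf n _ x _
  exact (hf n).1 x

instance : CompactSpace (LG L) := isCompact_iff_compactSpace.1 LG_compact

/-- Evaluation on a dense sequence. -/
def ev (f : LG L) : ℕ → ℕ → ℝ := fun n k => f.1 n (TopologicalSpace.denseSeq G k)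

theorem ev_continuous : Continuous (ev (L := L)) :=
  continuous_pi fun n => continuous_pi fun k => LG_coord n _

theorem dense_L (hL : IsLen L) (x : G) (ε : ℝ) (hε : 0 < ε) :
    ∃ k, L ((TopologicalSpace.denseSeq G k)⁻¹ * x) < ε := by
  have hopen : IsOpen {z : G | L (z⁻¹ * x) < ε} :=
    isOpen_lt (hL.cont.comp (continuous_inv.mul continuous_const)) continuous_const
  have hne : {z : G | L (z⁻¹ * x) < ε}.Nonempty := ⟨x, by
    change L (x⁻¹ * x) < ε
    rw [inv_mul_cancel, hL.one]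
    exact hε⟩
  obtain ⟨z, hz, k, rfl⟩ := (TopologicalSpace.denseRange_denseSeq G).inter_open_nonempty _ hopen hne
  exact ⟨k, hz⟩

theorem ev_injective (hL : IsLen L) : Function.Injective (ev (L := L)) := by
  intro f g h
  apply Subtype.ext
  funext n x
  by_contra hne
  have hpos : 0 < |f.1 n x - g.1 n x| := abs_pos.2 (sub_ne_zero.2 hne)
  obtain ⟨k, hk⟩ := dense_L hL x (|f.1 n x - g.1 n x| / 2) (by positivity)
  have h1 := (f.2 n).2 (TopologicalSpace.denseSeq G k) x
  have h2 := (g.2 n).2 (TopologicalSpace.denseSeq G k) x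
  have h3 : f.1 n (TopologicalSpace.denseSeq G k) = g.1 n (TopologicalSpace.denseSeq G k) :=
    congrFun (congrFun h n) k
  rw [h3] at h1
  have h4 : |f.1 n x - g.1 n x| ≤ L ((TopologicalSpace.denseSeq G k)⁻¹ * x) +
      L ((TopologicalSpace.denseSeq G k)⁻¹ * x) := by
    have : f.1 n x - g.1 n x = -(g.1 n (TopologicalSpace.denseSeq G k) - f.1 n x) +
      (g.1 n (TopologicalSpace.denseSeq G k) - g.1 n x) := by ring
    rw [this]
    refine (abs_add_le _ _).trans ?_
    rw [abs_neg]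
    exact add_le_add h1 h2
  linarith

theorem ev_closedEmbedding (hL : IsLen L) : IsClosedEmbedding (ev (L := L)) :=
  ev_continuous.isClosedEmbedding (ev_injective hL)

theorem LG_polish (hL : IsLen L) : PolishSpace (LG L) := (ev_closedEmbedding hL).polishSpace

/-- A map into `LG L` is Borel if its coordinates are. -/
theorem measurable_LG (hL : IsLen L) {Y : Type} [MeasurableSpace Y] (f : Y → LG L)
    (h : ∀ n x, Measurable fun y => (f y).1 n x) : Measurable f := by
  rw [← (ev_closedEmbedding hL).measurableEmbedding.measurable_comp_iff]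
  exact measurable_pi_lambda _ fun n => measurable_pi_lambda _ fun k => h n _

/-- The action by left translations. -/
instance : MulAction G (LG L) where
  smul h f := ⟨fun n x => f.1 n (h⁻¹ * x), fun n => ⟨fun _ => (f.2 n).1 _, fun x y => by
    have h1 := (f.2 n).2 (h⁻¹ * x) (h⁻¹ * y)
    have h2 : (h⁻¹ * x)⁻¹ * (h⁻¹ * y) = x⁻¹ * y := by group
    rwa [h2] at h1⟩⟩
  one_smul f := by
    apply Subtype.ext
    funext n x
    change f.1 n (1⁻¹ * x) = f.1 n x
    rw [inv_one, one_mul]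
  mul_smul g h f := by
    apply Subtype.ext
    funext n x
    change f.1 n ((g * h)⁻¹ * x) = f.1 n (h⁻¹ * (g⁻¹ * x))
    rw [mul_inv_rev, mul_assoc]

theorem smul_apply (h : G) (f : LG L) (n : ℕ) (x : G) : (h • f).1 n x = f.1 n (h⁻¹ * x) := rfl

theorem LG_smul (hL : IsLen L) : ContinuousSMul G (LG L) := by
  refine ⟨Continuous.subtype_mk (continuous_pi fun n => continuous_pi fun x => ?_) _⟩
  rw [continuous_iff_continuousAt]
  rintro ⟨h₀, f₀⟩
  change Tendsto (fun p : G × LG L => p.2.1 n (p.1⁻¹ * x)) (𝓝 (h₀, f₀)) (𝓝 (f₀.1 n (h₀⁻¹ * x)))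
  rw [tendsto_iff_dist_tendsto_zero]
  have hA : Tendsto (fun p : G × LG L => L ((p.1⁻¹ * x)⁻¹ * (h₀⁻¹ * x))) (𝓝 (h₀, f₀)) (𝓝 0) := by
    have hc : Continuous fun p : G × LG L => L ((p.1⁻¹ * x)⁻¹ * (h₀⁻¹ * x)) :=
      hL.cont.comp (((continuous_fst.inv.mul continuous_const).inv).mul continuous_const)
    have h1 := hc.tendsto (h₀, f₀)
    simpa [hL.one] using h1
  have hB : Tendsto (fun p : G × LG L => dist (p.2.1 n (h₀⁻¹ * x)) (f₀.1 n (h₀⁻¹ * x)))
      (𝓝 (h₀, f₀)) (𝓝 0) := by
    rw [← tendsto_iff_dist_tendsto_zero]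
    have : Continuous fun p : G × LG L => p.2.1 n (h₀⁻¹ * x) := (LG_coord n _).comp continuous_snd
    exact this.tendsto (h₀, f₀)
  have hAB := hA.add hB
  rw [add_zero] at hAB
  refine squeeze_zero (fun _ => dist_nonneg) (fun p => ?_) hAB
  calc dist (p.2.1 n (p.1⁻¹ * x)) (f₀.1 n (h₀⁻¹ * x))
      ≤ dist (p.2.1 n (p.1⁻¹ * x)) (p.2.1 n (h₀⁻¹ * x)) +
        dist (p.2.1 n (h₀⁻¹ * x)) (f₀.1 n (h₀⁻¹ * x)) := dist_triangle _ _ _
    _ ≤ _ := by
        gcongr
        rw [Real.dist_eq]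
        exact (p.2.2 n).2 _ _

end Lip

/-! ### The essential distance -/

section Ed

variable {G : Type} [TopologicalSpace G] [Group G] [IsTopologicalGroup G] [PolishSpace G]
variable {L : G → ℝ}

/-- The ball. -/
def ball (L : G → ℝ) (x : G) (r : ℝ) : Set G := {g | L (x⁻¹ * g) < r}

theorem ball_open (hL : IsLen L) (x : G) (r : ℝ) : IsOpen (ball L x r) :=
  isOpen_lt (hL.cont.comp (continuous_const.mul continuous_id)) continuous_const

theorem mem_ball_self (hL : IsLen L) (x : G) {r : ℝ} (hr : 0 < r) : x ∈ ball L x r := by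
  change L (x⁻¹ * x) < r
  rw [inv_mul_cancel, hL.one]
  exact hr

/-- The numbers `r` such that `T` is not meagre in the ball of radius `r` around `x`. -/
def edSet (L : G → ℝ) (T : Set G) (x : G) : Set ℝ :=
  insert 1 {r | 0 < r ∧ ¬ IsMeagre (T ∩ ball L x r)}

theorem edSet_bdd (T : Set G) (x : G) : ∀ r ∈ edSet L T x, (0 : ℝ) ≤ r := by
  rintro r (rfl | ⟨h, -⟩)
  · exact zero_le_one
  · exact h.le

/-- The essential distance from `x` to `T`. -/
def ed (L : G → ℝ) (T : Set G) (x : G) : ℝ := sInf (edSet L T x)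

theorem ed_nonneg (T : Set G) (x : G) : 0 ≤ ed L T x := Real.sInf_nonneg (edSet_bdd T x)

theorem ed_le (T : Set G) (x : G) {r : ℝ} (hr : r ∈ edSet L T x) : ed L T x ≤ r :=
  csInf_le ⟨0, edSet_bdd T x⟩ hr

theorem ed_le_one (T : Set G) (x : G) : ed L T x ≤ 1 := ed_le T x (mem_insert _ _)

theorem ed_lip_aux (hL : IsLen L) (T : Set G) (x x' : G) :
    ed L T x ≤ ed L T x' + L (x⁻¹ * x') := by
  rw [← sub_le_iff_le_add]
  refine le_csInf ⟨1, mem_insert _ _⟩ ?_
  rintro r (rfl | ⟨h0, hm⟩)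
  · have h1 := ed_le_one (L := L) T x
    have h2 := hL.nonneg (x⁻¹ * x')
    linarith
  · have h2 := hL.nonneg (x⁻¹ * x')
    have h1 : ed L T x ≤ r + L (x⁻¹ * x') := by
      refine ed_le T x (mem_insert_of_mem _ ⟨by linarith, fun h => hm (h.mono ?_)⟩)
      rintro g ⟨hg, hgb⟩
      refine ⟨hg, ?_⟩
      have h3 := hL.mul (x⁻¹ * x') (x'⁻¹ * g)
      have h4 : x⁻¹ * x' * (x'⁻¹ * g) = x⁻¹ * g := by group
      rw [h4] at h3
      have h5 : L (x'⁻¹ * g) < r := hgb
      change L (x⁻¹ * g) < r + L (x⁻¹ * x')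
      linarith
    linarith

theorem ed_lip (hL : IsLen L) (T : Set G) (x x' : G) :
    |ed L T x - ed L T x'| ≤ L (x⁻¹ * x') := by
  rw [abs_sub_le_iff]
  have h1 := ed_lip_aux hL T x x'
  have h2 := ed_lip_aux hL T x' x
  have h3 : L (x'⁻¹ * x) = L (x⁻¹ * x') := by
    rw [← hL.inv, mul_inv_rev, inv_inv]
  rw [h3] at h2
  constructor <;> linarith

theorem ed_lt_iff (T : Set G) (x : G) (c : ℝ) :
    ed L T x < c ↔ 1 < c ∨ ∃ q : ℚ, 0 < (q : ℝ) ∧ (q : ℝ) < c ∧ ¬ IsMeagre (T ∩ ball L x q) := by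
  rw [ed, csInf_lt_iff ⟨0, edSet_bdd T x⟩ ⟨1, mem_insert _ _⟩]
  constructor
  · rintro ⟨r, rfl | ⟨h0, hm⟩, hrc⟩
    · exact Or.inl hrc
    · obtain ⟨q, hrq, hqc⟩ := exists_rat_btwn hrc
      refine Or.inr ⟨q, h0.trans hrq, hqc, fun h => hm (h.mono ?_)⟩
      rintro g ⟨hg, hgb⟩
      exact ⟨hg, lt_trans hgb hrq⟩
  · rintro (h | ⟨q, h0, hqc, hm⟩)
    · exact ⟨1, mem_insert _ _, h⟩
    · exact ⟨q, mem_insert_of_mem _ ⟨h0, hm⟩, hqc⟩

theorem meagre_translate (h : G) (T : Set G) : IsMeagre ((fun g => h * g) ⁻¹' T) ↔ IsMeagre T := by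
  constructor
  · intro hm
    have h1 := hm.preimage_of_isOpenMap (f := fun g => h⁻¹ * g)
      (Homeomorph.mulLeft h⁻¹).continuous (Homeomorph.mulLeft h⁻¹).isOpenMap
    have h2 : (fun g => h⁻¹ * g) ⁻¹' ((fun g => h * g) ⁻¹' T) = T := by
      ext g
      simp
    rwa [h2] at h1
  · intro hm
    exact hm.preimage_of_isOpenMap (f := fun g => h * g)
      (Homeomorph.mulLeft h).continuous (Homeomorph.mulLeft h).isOpenMap

theorem ed_translate (h : G) (T : Set G) (x : G) :
    ed L ((fun g => h⁻¹ * g) ⁻¹' T) x = ed L T (h⁻¹ * x) := by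
  unfold ed
  congr 1
  unfold edSet
  congr 1
  ext r
  have h1 : (fun g => h⁻¹ * g) ⁻¹' T ∩ ball L x r =
      (fun g => h⁻¹ * g) ⁻¹' (T ∩ ball L (h⁻¹ * x) r) := by
    ext g
    have h2 : (h⁻¹ * x)⁻¹ * (h⁻¹ * g) = x⁻¹ * g := by group
    simp only [ball, mem_inter_iff, mem_preimage, mem_ofPred_eq, h2]
  simp only [mem_ofPred_eq]
  rw [h1, meagre_translate]

end Ed

/-! ### The embedding -/

section Emb

variable {G : Type} [TopologicalSpace G] [Group G] [IsTopologicalGroup G] [PolishSpace G]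
variable {Y : Type} [MulAction G Y] {L : G → ℝ}

/-- The set of the `g` which move `A` to a set that contains `y`. -/
def SS (A : Set Y) (y : Y) : Set G := {g | g⁻¹ • y ∈ A}

theorem SS_smul (A : Set Y) (y : Y) (h : G) : SS A (h • y) = (fun g => h⁻¹ * g) ⁻¹' (SS A y) := by
  ext g
  simp only [SS, mem_preimage, mem_ofPred_eq, mul_inv_rev, inv_inv, mul_smul]

/-- The point attached to `y`. -/
def FF (hL : IsLen L) (A : ℕ → Set Y) (y : Y) : LG L :=
  ⟨fun n x => ed L (SS (A n) y) x, fun n =>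
    ⟨fun x => ⟨ed_nonneg _ x, ed_le_one _ x⟩, fun x x' => ed_lip hL _ x x'⟩⟩

theorem FF_smul (hL : IsLen L) (A : ℕ → Set Y) (y : Y) (h : G) :
    FF hL A (h • y) = h • FF hL A y := by
  apply Subtype.ext
  funext n x
  change ed L (SS (A n) (h • y)) x = ed L (SS (A n) y) (h⁻¹ * x)
  rw [SS_smul, ed_translate]

variable [MeasurableSpace G] [BorelSpace G] [MeasurableSpace Y]

theorem FF_measurable (hL : IsLen L) (A : ℕ → Set Y) (hA : ∀ n, MeasurableSet (A n))
    (hact : Measurable fun p : G × Y => p.1 • p.2) : Measurable (FF hL A) := by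
  refine measurable_LG hL _ fun n x => measurable_of_Iio fun c => ?_
  have hP : MeasurableSet {p : Y × G | p.2⁻¹ • p.1 ∈ A n} := by
    have h1 : Measurable fun p : Y × G => p.2⁻¹ • p.1 :=
      hact.comp ((measurable_inv.comp measurable_snd).prodMk measurable_fst)
    exact h1 (hA n)
  have h1 : (fun y => (FF hL A y).1 n x) ⁻¹' Iio c = {y | (1 : ℝ) < c} ∪
      ⋃ q ∈ {q : ℚ | 0 < (q : ℝ) ∧ (q : ℝ) < c},
        {y : Y | ¬ IsMeagre (Prod.mk y ⁻¹' {p : Y × G | p.2⁻¹ • p.1 ∈ A n} ∩ ball L x q)} := by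
    ext y
    simp only [mem_preimage, mem_Iio, mem_union, mem_iUnion, mem_ofPred_eq, exists_prop]
    change ed L (SS (A n) y) x < c ↔ _
    rw [ed_lt_iff]
    refine or_congr Iff.rfl (exists_congr fun q => ?_)
    rw [and_assoc]
    rfl
  rw [h1]
  refine MeasurableSet.union (MeasurableSet.const _) (MeasurableSet.biUnion (Set.to_countable _)
    fun q _ => ?_)
  exact measurableSet_nonmeagre _ hP _ (ball_open hL x q)

theorem FF_injective (hL : IsLen L) (A : ℕ → Set Y) (hA : ∀ n, MeasurableSet (A n))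
    (hsep : ∀ z z' : Y, z ≠ z' → ∃ n, z ∈ A n ∧ z' ∉ A n)
    (hact : Measurable fun p : G × Y => p.1 • p.2) : Function.Injective (FF hL A) := by
  intro y y' hF
  by_contra hne
  have hm : ∀ (n : ℕ) (y : Y), MeasurableSet (SS (G := G) (A n) y) := by
    intro n y
    have h1 : Measurable fun g : G => g⁻¹ • y :=
      hact.comp (measurable_inv.prodMk measurable_const)
    exact h1 (hA n)
  have hcov : (univ : Set G) ⊆ ⋃ n, SS (A n) y ∩ (SS (A n) y')ᶜ := by
    intro g _
    obtain ⟨n, h1, h2⟩ := hsep (g⁻¹ • y) (g⁻¹ • y') fun h => hne (smul_left_cancel _ h)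
    exact mem_iUnion.mpr ⟨n, h1, h2⟩
  obtain ⟨n, hn⟩ : ∃ n, ¬ IsMeagre (SS (G := G) (A n) y ∩ (SS (A n) y')ᶜ) := by
    by_contra hcon
    push Not at hcon
    exact not_isMeagre_of_isOpen isOpen_univ (univ_nonempty (α := G))
      ((isMeagre_iUnion hcon).mono hcov)
  obtain ⟨V, hV, ⟨x, hx⟩, -, hmV⟩ := exists_open ((hm n y).inter (hm n y').compl) isOpen_univ
    (by rwa [inter_univ])
  have hε : ∃ ε > 0, ball L x ε ⊆ V := by
    have h1 : {w : G | x * w ∈ V} ∈ 𝓝 (1 : G) := by
      refine (hV.preimage (continuous_const.mul continuous_id)).mem_nhds ?_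
      change x * 1 ∈ V
      rwa [mul_one]
    obtain ⟨ε, hε, h2⟩ := hL.nhds _ h1
    refine ⟨ε, hε, fun g hg => ?_⟩
    have h3 := h2 _ hg
    simpa using h3
  obtain ⟨ε, hε, hball⟩ := hε
  have h1 : ed L (SS (A n) y) x ≤ 0 := by
    refine le_of_forall_pos_lt_add fun r hr => ?_
    rw [zero_add]
    obtain ⟨q, hq0, hqr⟩ := exists_rat_btwn hr
    rw [ed_lt_iff]
    refine Or.inr ⟨q, hq0, hqr, fun h => ?_⟩
    refine not_isMeagre_of_isOpen ((ball_open hL x q).inter hV) ⟨x, mem_ball_self hL x hq0, hx⟩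
      ((h.union hmV).mono ?_)
    rintro g ⟨hg, hgV⟩
    by_cases hgT : g ∈ SS (A n) y ∩ (SS (A n) y')ᶜ
    · exact Or.inl ⟨hgT.1, hg⟩
    · exact Or.inr ⟨hgV, hgT⟩
  have h2 : min 1 ε ≤ ed L (SS (A n) y') x := by
    refine le_csInf ⟨1, mem_insert _ _⟩ ?_
    rintro r (rfl | ⟨h0, hmr⟩)
    · exact min_le_left _ _
    · refine (min_le_right _ _).trans ?_
      by_contra hcon
      push Not at hcon
      refine hmr (hmV.mono ?_)
      rintro g ⟨hg, hgb⟩
      exact ⟨hball (lt_trans hgb hcon), fun h => h.2 hg⟩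
  have h3 : ed L (SS (A n) y) x = ed L (SS (A n) y') x :=
    congrFun (congrFun (congrArg Subtype.val hF) n) x
  have h4 : (0 : ℝ) < min 1 ε := lt_min one_pos hε
  linarith

end Emb

/-- Every Borel action of a Polish group on a standard Borel space embeds in a continuous action on
a compact metrizable space. -/
theorem exists_embedding (G : Type) [TopologicalSpace G] [Group G] [IsTopologicalGroup G]
    [PolishSpace G] [MeasurableSpace G] [BorelSpace G] (Y : Type) [MeasurableSpace Y]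
    [StandardBorelSpace Y] [MulAction G Y] (hact : Measurable fun p : G × Y => p.1 • p.2) :
    ∃ (Z : Type) (_ : TopologicalSpace Z) (_ : CompactSpace Z) (_ : PolishSpace Z)
      (_ : MeasurableSpace Z) (_ : BorelSpace Z) (_ : MulAction G Z) (_ : ContinuousSMul G Z)
      (f : Y → Z), Measurable f ∧ Function.Injective f ∧ ∀ (g : G) (y : Y), f (g • y) = g • f y := by
  obtain ⟨L, hL⟩ := exists_len (G := G)
  obtain ⟨B, hB⟩ := ((TopologicalSpace.countable_countableBasis ℝ).insert univ).exists_eq_range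
    ⟨univ, mem_insert _ _⟩
  have hBm : ∀ n, IsOpen (B n) := by
    intro n
    have h1 : B n ∈ insert univ (TopologicalSpace.countableBasis ℝ) := by rw [hB]; exact ⟨n, rfl⟩
    rcases h1 with h1 | h1
    · rw [h1]; exact isOpen_univ
    · exact TopologicalSpace.isOpen_of_mem_countableBasis h1
  let A : ℕ → Set Y := fun n => MeasureTheory.embeddingReal Y ⁻¹' (B n)
  have hA : ∀ n, MeasurableSet (A n) := fun n =>
    (MeasureTheory.measurableEmbedding_embeddingReal Y).measurable (hBm n).measurableSet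
  have hsep : ∀ z z' : Y, z ≠ z' → ∃ n, z ∈ A n ∧ z' ∉ A n := by
    intro z z' hne
    have h1 : MeasureTheory.embeddingReal Y z ≠ MeasureTheory.embeddingReal Y z' := fun h =>
      hne ((MeasureTheory.measurableEmbedding_embeddingReal Y).injective h)
    obtain ⟨b, hb, hzb, hbV⟩ :=
      (TopologicalSpace.isBasis_countableBasis ℝ).exists_subset_of_mem_open
        (show MeasureTheory.embeddingReal Y z ∈ {MeasureTheory.embeddingReal Y z'}ᶜ from h1)
        isOpen_compl_singleton
    have h2 : b ∈ range B := by rw [← hB]; exact mem_insert_of_mem _ hb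
    obtain ⟨n, rfl⟩ := h2
    exact ⟨n, hzb, fun h => hbV h rfl⟩
  exact ⟨LG L, inferInstance, inferInstance, LG_polish hL, inferInstance, inferInstance,
    inferInstance, LG_smul hL, FF hL A, FF_measurable hL A hA hact,
    FF_injective hL A hA hsep hact, fun g y => FF_smul hL A y g⟩

end Pool.Agent.BorelAct
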