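import Pool.Agent.Lib_helper40.BCM

namespace Pool.Agent.Lib_helper40

open MvPolynomial

section rloc

variable (K : Type*) [Field K]

instance : IsDomain (Rloc K) :=
  IsLocalization.isDomain_localization (originIdeal K).primeCompl_le_nonZeroDivisors

instance : IsNoetherianRing (Rloc K) :=
  IsLocalization.isNoetherianRing (originIdeal K).primeCompl _ inferInstance

theorem maximalIdeal_Rloc : IsLocalRing.maximalIdeal (Rloc K) =
    Ideal.span {algebraMap (MvPolynomial (Fin 2) K) (Rloc K) (X 0),
      algebraMap (MvPolynomial (Fin 2) K) (Rloc K) (X 1)} := by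
  rw [← Localization.AtPrime.map_eq_maximalIdeal]
  show (Ideal.span {X 0, X 1}).map _ = _
  rw [Ideal.map_span, Set.image_pair]

theorem height_originIdeal : (originIdeal K).height = 2 := by
  apply le_antisymm
  · have h1 : originIdeal K ∈ (Ideal.span ({X 0, X 1} : Set (MvPolynomial (Fin 2) K))).minimalPrimes :=
      ⟨⟨inferInstance, le_rfl⟩, fun q hq _ => hq.2⟩
    have h2 := Ideal.height_le_card_of_mem_minimalPrimes_span (s := {X 0, X 1})
      (Set.toFinite _) h1
    refine h2.trans ?_
    have h3 := Set.ncard_insert_le (X 0 : MvPolynomial (Fin 2) K) {X 1}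
    rw [Set.ncard_singleton] at h3
    exact_mod_cast h3
  · have hp0 : (Ideal.span {(X 0 : MvPolynomial (Fin 2) K)}).IsPrime := by
      rw [Ideal.span_singleton_prime (X_ne_zero 0)]
      exact X_prime
    have hlt1 : (⊥ : Ideal (MvPolynomial (Fin 2) K)) < Ideal.span {X 0} := by
      rw [bot_lt_iff_ne_bot, Ne, Ideal.span_singleton_eq_bot]
      exact X_ne_zero 0
    have hlt2 : (Ideal.span {(X 0 : MvPolynomial (Fin 2) K)}) < originIdeal K := by
      refine lt_of_le_of_ne (Ideal.span_mono (by simp)) ?_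
      intro h
      have h1 : (X 1 : MvPolynomial (Fin 2) K) ∈ Ideal.span {X 0} := by
        rw [h]; exact Ideal.subset_span (by simp)
      rw [Ideal.mem_span_singleton, X_dvd_X] at h1
      exact absurd h1 (by decide)
    have h1 := Ideal.height_add_one_le_of_lt_of_isPrime hlt1
    have h2 := Ideal.height_add_one_le_of_lt_of_isPrime hlt2
    rw [Ideal.height_bot] at h1
    calc (2 : ℕ∞) = 0 + 1 + 1 := by norm_num
      _ ≤ (Ideal.span {(X 0 : MvPolynomial (Fin 2) K)}).height + 1 := by gcongr
      _ ≤ _ := h2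

theorem ringKrullDim_Rloc : ringKrullDim (Rloc K) = 2 := by
  rw [IsLocalization.AtPrime.ringKrullDim_eq_height (originIdeal K), height_originIdeal]
  rfl

variable {K}

theorem perm_of_isBigCM {B : Type*} [CommRing B] [Algebra (Rloc K) B] (h : IsBigCM (Rloc K) B) :
    Perm (algebraMap (Rloc K) B (algebraMap (MvPolynomial (Fin 2) K) (Rloc K) (X 0)))
      (algebraMap (Rloc K) B (algebraMap (MvPolynomial (Fin 2) K) (Rloc K) (X 1))) := by
  set x := algebraMap (MvPolynomial (Fin 2) K) (Rloc K) (X 0) with hx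
  set y := algebraMap (MvPolynomial (Fin 2) K) (Rloc K) (X 1) with hy
  have hm : IsLocalRing.maximalIdeal (Rloc K) = Ideal.span {x, y} := maximalIdeal_Rloc K
  have hxm : x ∈ IsLocalRing.maximalIdeal (Rloc K) := by
    rw [hm]; exact Ideal.subset_span (by simp)
  have hym : y ∈ IsLocalRing.maximalIdeal (Rloc K) := by
    rw [hm]; exact Ideal.subset_span (by simp)
  have hsop : ∀ r s : Rloc K, r ∈ IsLocalRing.maximalIdeal (Rloc K) →
      s ∈ IsLocalRing.maximalIdeal (Rloc K) → x ∈ (Ideal.span {r, s}).radical →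
      y ∈ (Ideal.span {r, s}).radical → IsSystemOfParameters (Rloc K) [r, s] := by
    intro r s hr hs h1 h2
    refine ⟨?_, ?_⟩
    · rw [ringKrullDim_Rloc]; rfl
    · have h4 : Ideal.ofList [r, s] = Ideal.span {r, s} := by
        rw [Ideal.ofList_cons, Ideal.ofList_singleton, ← Ideal.span_union]; rfl
      rw [h4]
      apply le_antisymm
      · rw [(IsLocalRing.maximalIdeal.isMaximal (Rloc K)).isPrime.radical_le_iff, Ideal.span_le]
        rintro z (rfl | rfl)
        · exact hr
        · exact hs
      · rw [hm, Ideal.span_le]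
        rintro z (rfl | rfl)
        · exact h1
        · exact h2
  have hxy : ∀ i j : ℕ, 1 ≤ i → 1 ≤ j → IsSystemOfParameters (Rloc K) [x ^ i, y ^ j] := by
    intro i j hi hj
    apply hsop
    · exact Ideal.pow_mem_of_mem _ hxm _ hi
    · exact Ideal.pow_mem_of_mem _ hym _ hj
    · exact ⟨i, Ideal.subset_span (by simp)⟩
    · exact ⟨j, Ideal.subset_span (by simp)⟩
  have hyx : ∀ i j : ℕ, 1 ≤ i → 1 ≤ j → IsSystemOfParameters (Rloc K) [y ^ j, x ^ i] := by
    intro i j hi hj
    apply hsop
    · exact Ideal.pow_mem_of_mem _ hym _ hj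
    · exact Ideal.pow_mem_of_mem _ hxm _ hi
    · exact ⟨i, Ideal.subset_span (by simp)⟩
    · exact ⟨j, Ideal.subset_span (by simp)⟩
  refine ⟨?_, ?_, ?_⟩
  · intro i j e hj he
    rcases Nat.eq_zero_or_pos i with rfl | hi
    · rwa [pow_zero, one_mul] at he
    · have h1 := (isRegular_pair_iff _ _).mp (h _ (hyx i j hi hj))
      rw [map_pow, map_pow] at h1
      exact h1.2.1 e he
  · intro i j e hj he
    rcases Nat.eq_zero_or_pos i with rfl | hi
    · rwa [pow_zero, one_mul] at he
    · have h1 := (isRegular_pair_iff _ _).mp (h _ (hxy j i hj hi))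
      rw [map_pow, map_pow] at h1
      exact h1.2.1 e he
  · have h1 := (isRegular_pair_iff _ _).mp (h _ (hxy 1 1 le_rfl le_rfl))
    rw [pow_one, pow_one] at h1
    exact h1.2.2

end rloc

end Pool.Agent.Lib_helper40
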