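import Pool.Agent.Lib_helper40.Generic
import Pool.Agent.Lib_helper40.Rloc

namespace Pool.Agent.Lib_helper40

open Filter Polynomial

/-- the primes congruent to `3` modulo `4` -/
abbrev I3 : Type := {p : ℕ // p.Prime ∧ p % 4 = 3}

instance (i : I3) : Fact (i.1.Prime) := ⟨i.2.1⟩

instance : Infinite I3 := by
  have h1 : ({p : ℕ | p.Prime ∧ p % 4 = 3}).Infinite := by
    have h2 := Nat.infinite_setOfPred_prime_and_eq_mod (q := 4) (a := 3) (by decide)
    refine h2.mono ?_
    rintro p ⟨hp, hp4⟩
    refine ⟨hp, ?_⟩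
    have h3 : ((p : ℕ) : ZMod 4) = ((3 : ℕ) : ZMod 4) := by rw [hp4]; rfl
    rw [ZMod.natCast_eq_natCast_iff] at h3
    exact h3
  exact h1.to_subtype

/-- the algebraic closures of the prime fields -/
abbrev kk (i : I3) : Type := AlgebraicClosure (ZMod i.1)

/-- a nonprincipal ultrafilter on these primes -/
noncomputable abbrev VV : Ultrafilter I3 := hyperfilter I3

theorem VV_le : (VV : Filter I3) ≤ cofinite := hyperfilter_le_cofinite

/-- a generic family of parameters -/
theorem exists_generic_family : ∃ t : ∀ i : I3, kk i,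
    (∀ i, (TM (i.1 / 4 + 1) (2 * (i.1 / 4)) (t i)).det ≠ 0) ∧
    Transcendental ℤ (umk (fun i => t i ^ i.1) : UProd VV kk) := by
  classical
  have hex : ∀ i : I3, ∃ Λ : Finset (kk i), Λ.card = i.1 ∧
      ∀ s ∈ Λ, (TM (i.1 / 4 + 1) (2 * (i.1 / 4)) s).det ≠ 0 := by
    intro i
    set D := (TM (i.1 / 4 + 1) (2 * (i.1 / 4)) (X : (kk i)[X])).det with hD
    have hD0 : D ≠ 0 := (det_TM_degree (kk i) _ _).2.ne_zero
    have hinf : ({s : kk i | D.eval s ≠ 0}).Infinite := by
      have h1 : ({s : kk i | D.eval s ≠ 0}) = (↑(D.roots.toFinset) : Set (kk i))ᶜ := by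
        ext s
        simp [hD0]
      rw [h1]
      exact (Finset.finite_toSet _).infinite_compl
    obtain ⟨Λ, hΛ, hcard⟩ := hinf.exists_subset_card_eq i.1
    refine ⟨Λ, hcard, ?_⟩
    intro s hs
    have := hΛ hs
    rw [← det_TM_eval]
    exact this
  choose Λ hΛ1 hΛ2 using hex
  have hpr : Function.Injective (fun i : I3 => i.1) := Subtype.val_injective
  have htend : Tendsto (fun i : I3 => (Λ i).card) cofinite atTop := by
    simp only [hΛ1]
    rw [← Nat.cofinite_eq_atTop]
    exact hpr.tendsto_cofinite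
  obtain ⟨t, ht1, ht2⟩ := transc_choice (fun i : I3 => i.1) hpr kk Λ htend
  refine ⟨t, ?_, ?_⟩
  · intro i
    apply hΛ2 i
    apply ht1
    rw [← Finset.card_pos, hΛ1]
    exact i.2.1.pos
  · apply transcendental_umk VV_le
    intro F hF
    filter_upwards [ht2 F hF] with i hi h0
    apply hi
    have h1 : aeval (t i ^ i.1) F = (aeval (t i) F) ^ i.1 := by
      have h2 := Polynomial.hom_eval₂ F (algebraMap ℤ (kk i)) (frobenius (kk i) i.1) (t i)
      rw [frobenius_def, frobenius_def] at h2
      rw [aeval_def, aeval_def, h2]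
      congr 1
      exact RingHom.ext_int _ _
    exact pow_eq_zero_iff (i.2.1.ne_zero) |>.mp (h1.symm.trans h0)

/-- the power series rings -/
abbrev PP (i : I3) : Type := MvPowerSeries (Fin 2) (kk i)

/-- the ultraproduct of the power series rings -/
abbrev DD : Type := UProd VV PP

section phi

variable (θ : ℂ →+* UProd VV kk)

/-- images of constants -/
noncomputable def cstD : ℂ →+* DD :=
  (umap (fun i => (MvPowerSeries.C : kk i →+* PP i))).comp θ

/-- the images of the variables: the `p`-th powers -/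
noncomputable def xD : Fin 2 → DD := fun j => umk (fun i => (MvPowerSeries.X j : PP i) ^ i.1)

/-- the ring homomorphism from the polynomial ring -/
noncomputable def PhiD : MvPolynomial (Fin 2) ℂ →+* DD := MvPolynomial.eval₂Hom (cstD θ) xD

theorem PhiD_C (c : ℂ) : PhiD θ (MvPolynomial.C c) = cstD θ c := MvPolynomial.eval₂Hom_C _ _ _

theorem PhiD_X (j : Fin 2) : PhiD θ (MvPolynomial.X j) = xD j := MvPolynomial.eval₂Hom_X' _ _ _

theorem PhiD_coeff (P : MvPolynomial (Fin 2) ℂ) (rep : ℂ → ∀ i, kk i)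
    (hrep : ∀ c, umk (rep c) = θ c) : ∃ f : ∀ i, PP i, PhiD θ P = umk f ∧
      ∀ m : Fin 2 →₀ ℕ, ∀ᶠ i in (VV : Filter I3),
        MvPowerSeries.coeff (i.1 • m) (f i) = rep (P.coeff m) i := by
  classical
  refine ⟨fun i => ∑ m ∈ P.support, MvPowerSeries.monomial (i.1 • m) (rep (P.coeff m) i), ?_, ?_⟩
  · rw [PhiD, MvPolynomial.coe_eval₂Hom, MvPolynomial.eval₂_eq', umk_sum]
    apply Finset.sum_congr rfl
    intro m _
    rw [Fin.prod_univ_two, cstD, RingHom.comp_apply, ← hrep, umap_umk, xD, xD, ← umk_pow,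
      ← umk_pow, ← umk_mul, ← umk_mul]
    congr 1
    funext i
    rw [← pow_mul, ← pow_mul, MvPowerSeries.X_pow_eq, MvPowerSeries.X_pow_eq,
      MvPowerSeries.monomial_mul_monomial, ← MvPowerSeries.monomial_zero_eq_C_apply,
      MvPowerSeries.monomial_mul_monomial]
    congr 1
    · congr 1
      ext j
      fin_cases j <;> simp
    · ring
  · intro m
    by_cases hm : m ∈ P.support
    · refine Eventually.of_forall fun i => ?_
      rw [map_sum, Finset.sum_eq_single m]
      · rw [MvPowerSeries.coeff_monomial, if_pos rfl]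
      · intro m' _ hne
        rw [MvPowerSeries.coeff_monomial, if_neg]
        intro h
        apply hne
        ext j
        have h1 := DFunLike.congr_fun h j
        simp only [Finsupp.smul_apply, smul_eq_mul] at h1
        exact (Nat.eq_of_mul_eq_mul_left i.2.1.pos h1).symm
      · intro h; exact absurd hm h
    · have h0 : P.coeff m = 0 := by
        rwa [MvPolynomial.mem_support_iff, not_not] at hm
      have h1 : (umk (rep (P.coeff m)) : UProd VV kk) = 0 := by
        rw [hrep, h0, map_zero]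
      rw [umk_eq_zero_iff] at h1
      filter_upwards [h1] with i hi
      rw [hi, map_sum]
      apply Finset.sum_eq_zero
      intro m' hm'
      rw [MvPowerSeries.coeff_monomial, if_neg]
      intro h
      apply hm
      have : m = m' := by
        ext j
        have h1 := DFunLike.congr_fun h j
        simp only [Finsupp.smul_apply, smul_eq_mul] at h1
        exact Nat.eq_of_mul_eq_mul_left i.2.1.pos h1
      rw [this]
      exact hm'

theorem exists_rep : ∃ rep : ℂ → ∀ i, kk i, ∀ c, (umk (rep c) : UProd VV kk) = θ c := by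
  choose lift hlift using (umk_surjective (𝒰 := VV) (A := kk))
  exact ⟨fun c => lift (θ c), fun c => hlift (θ c)⟩

theorem PhiD_injective : Function.Injective (PhiD θ) := by
  rw [injective_iff_map_eq_zero]
  intro P hP
  obtain ⟨rep, hrep⟩ := exists_rep θ
  obtain ⟨f, hf, hcoeff⟩ := PhiD_coeff θ P rep hrep
  rw [hf, umk_eq_zero_iff] at hP
  ext m
  rw [MvPolynomial.coeff_zero]
  have h1 : (umk (rep (P.coeff m)) : UProd VV kk) = 0 := by
    rw [umk_eq_zero_iff]
    filter_upwards [hP, hcoeff m] with i h1 h2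
    rw [← h2, h1, map_zero]
  rw [hrep] at h1
  exact (map_eq_zero θ).mp h1

theorem PhiD_isUnit {P : MvPolynomial (Fin 2) ℂ} (hP : P ∉ originIdeal ℂ) :
    IsUnit (PhiD θ P) := by
  obtain ⟨rep, hrep⟩ := exists_rep θ
  obtain ⟨f, hf, hcoeff⟩ := PhiD_coeff θ P rep hrep
  rw [hf]
  apply isUnit_umk
  rw [mem_originIdeal, MvPolynomial.constantCoeff_eq] at hP
  have h1 : ∀ᶠ i in (VV : Filter I3), ¬ rep (P.coeff 0) i = 0 := by
    rw [Ultrafilter.eventually_not]
    intro h
    rw [← umk_eq_zero_iff, hrep, map_eq_zero] at h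
    exact hP h
  filter_upwards [h1, hcoeff 0] with i h1 h2
  rw [MvPowerSeries.isUnit_iff_constantCoeff, ← MvPowerSeries.coeff_zero_eq_constantCoeff_apply]
  rw [smul_zero] at h2
  rw [h2]
  exact isUnit_iff_ne_zero.mpr h1

/-- the ring homomorphism from the local ring -/
noncomputable def PhiL : Rloc ℂ →+* DD :=
  IsLocalization.lift (M := (originIdeal ℂ).primeCompl) (g := PhiD θ)
    (fun y => PhiD_isUnit θ y.2)

theorem PhiL_algebraMap (P : MvPolynomial (Fin 2) ℂ) :
    PhiL θ (algebraMap _ _ P) = PhiD θ P := IsLocalization.lift_eq _ _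

theorem PhiL_ne_zero {r : Rloc ℂ} (hr : r ≠ 0) : PhiL θ r ≠ 0 := by
  obtain ⟨P, s, hs⟩ := IsLocalization.exists_mk'_eq (originIdeal ℂ).primeCompl r
  intro h0
  apply hr
  have h1 : r * algebraMap _ _ (s : MvPolynomial (Fin 2) ℂ) = algebraMap _ _ P := by
    rw [← hs, IsLocalization.mk'_spec]
  have h2 := congrArg (PhiL θ) h1
  rw [map_mul, h0, zero_mul, PhiL_algebraMap] at h2
  have h3 : P = 0 := PhiD_injective θ (by rw [← h2, map_zero])
  rw [← hs, h3, IsLocalization.mk'_zero]

end phi

end Pool.Agent.Lib_helper40
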