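import Pool.Agent.Lib_helper40.Transc

namespace Pool.Agent.Lib_helper40

open Filter Polynomial Cardinal

section card

variable {ι : Type} {𝒱 : Ultrafilter ι}

theorem continuum_le_card (h𝒱 : (𝒱 : Filter ι) ≤ cofinite) (pr : ι → ℕ)
    (hpr : Function.Injective pr) (hpos : ∀ i, 0 < pr i) (k : ι → Type) [∀ i, Field (k i)]
    [∀ i, CharP (k i) (pr i)] : 𝔠 ≤ #(UProd 𝒱 k) := by
  classical
  have htend : Tendsto pr cofinite atTop := by
    rw [← Nat.cofinite_eq_atTop]; exact hpr.tendsto_cofinite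
  let sn : Set ℕ → ι → Finset ℕ := fun A i => (Finset.range (Nat.log 2 (pr i))).filter (· ∈ A)
  let num : Set ℕ → ι → ℕ := fun A i => ∑ l ∈ sn A i, 2 ^ l
  have hnum : ∀ A i, num A i < pr i := by
    intro A i
    have h1 : num A i < 2 ^ (Nat.log 2 (pr i)) :=
      Nat.geomSum_lt le_rfl (fun l hl => Finset.mem_range.mp (Finset.mem_filter.mp hl).1)
    exact lt_of_lt_of_le h1 (Nat.pow_log_le_self 2 (hpos i).ne')
  let f : Set ℕ → UProd 𝒱 k := fun A => umk (fun i => ((num A i : ℕ) : k i))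
  have hf : Function.Injective f := by
    intro A B hAB
    have h1 := umk_eq_iff.mp hAB
    ext l
    obtain ⟨i, hi1, hi2⟩ := (h1.and (h𝒱 (htend.eventually_ge_atTop (2 ^ (l + 1))))).exists
    have h2 : num A i = num B i := by
      have h3 := (CharP.natCast_eq_natCast (k i) (pr i)).mp hi1
      exact Nat.ModEq.eq_of_lt_of_lt h3 (hnum A i) (hnum B i)
    have h4 : sn A i = sn B i := Finset.geomSum_injective (n := 2) le_rfl h2
    have h5 : l < Nat.log 2 (pr i) := by
      have : l + 1 ≤ Nat.log 2 (pr i) := Nat.le_log_of_pow_le (by norm_num) hi2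
      omega
    have h6 : l ∈ sn A i ↔ l ∈ A := by
      simp [sn, h5]
    have h7 : l ∈ sn B i ↔ l ∈ B := by
      simp [sn, h5]
    rw [← h6, ← h7, h4]
  have h8 := Cardinal.mk_le_of_injective hf
  rw [Cardinal.mk_set, Cardinal.mk_nat, Cardinal.two_power_aleph0] at h8
  exact h8

end card

section embed

theorem exists_embed (K : Type) [Field K] [IsAlgClosed K] (hK : 𝔠 ≤ #K) (τ : K)
    (hτ : Transcendental ℤ τ) (lam : ℂ) (hlam : Transcendental ℤ lam) :
    ∃ θ : ℂ →+* K, θ lam = τ := by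
  letI a1 : Algebra ℤ[X] ℂ := (aeval (R := ℤ) lam).toRingHom.toAlgebra
  letI a2 : Algebra ℤ[X] K := (aeval (R := ℤ) τ).toRingHom.toAlgebra
  have e1 : ∀ F : ℤ[X], algebraMap ℤ[X] ℂ F = aeval lam F := fun F => rfl
  have e2 : ∀ F : ℤ[X], algebraMap ℤ[X] K F = aeval τ F := fun F => rfl
  have i1 : Function.Injective (algebraMap ℤ[X] ℂ) := by
    rw [injective_iff_map_eq_zero]
    intro F hF
    exact (transcendental_iff.mp hlam) F hF
  have i2 : Function.Injective (algebraMap ℤ[X] K) := by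
    rw [injective_iff_map_eq_zero]
    intro F hF
    exact (transcendental_iff.mp hτ) F hF
  haveI : FaithfulSMul ℤ[X] ℂ := (faithfulSMul_iff_algebraMap_injective _ _).mpr i1
  haveI : FaithfulSMul ℤ[X] K := (faithfulSMul_iff_algebraMap_injective _ _).mpr i2
  obtain ⟨s, hs⟩ := exists_isTranscendenceBasis ℤ[X] ℂ
  obtain ⟨t, ht⟩ := exists_isTranscendenceBasis ℤ[X] K
  have hR : #ℤ[X] ≤ ℵ₀ := by
    refine (Polynomial.cardinalMk_le_max).trans ?_
    simp
  have c1 := IsAlgClosed.cardinal_eq_cardinal_transcendence_basis_of_aleph0_lt' _ hs hR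
    (by rw [Cardinal.mk_complex]; exact aleph0_lt_continuum)
  have c2 := IsAlgClosed.cardinal_eq_cardinal_transcendence_basis_of_aleph0_lt' _ ht hR
    (lt_of_lt_of_le aleph0_lt_continuum hK)
  have c3 : #s ≤ #t := by
    rw [← c1, ← c2, Cardinal.mk_complex]; exact hK
  obtain ⟨j⟩ := c3
  have hw : AlgebraicIndependent ℤ[X] (fun z : s => ((j z : t) : K)) :=
    ht.1.comp j j.injective
  set A := Algebra.adjoin ℤ[X] (Set.range ((↑) : s → ℂ)) with hA
  haveI : Algebra.IsAlgebraic A ℂ := hs.isAlgebraic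
  let g : A →ₐ[ℤ[X]] K := (MvPolynomial.aeval (fun z : s => ((j z : t) : K))).comp
    (hs.1.aevalEquiv.symm : A →ₐ[ℤ[X]] MvPolynomial s ℤ[X])
  have hg : Function.Injective g := by
    have h1 : Function.Injective (MvPolynomial.aeval (R := ℤ[X]) (fun z : s => ((j z : t) : K))) :=
      hw
    exact h1.comp hs.1.aevalEquiv.symm.injective
  letI a3 : Algebra A K := g.toRingHom.toAlgebra
  haveI : FaithfulSMul A K := (faithfulSMul_iff_algebraMap_injective _ _).mpr hg
  let θ : ℂ →ₐ[A] K := IsAlgClosed.lift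
  refine ⟨θ.toRingHom, ?_⟩
  have h1 : lam = algebraMap A ℂ (algebraMap ℤ[X] A X) := by
    have : algebraMap A ℂ (algebraMap ℤ[X] A X) = algebraMap ℤ[X] ℂ X := rfl
    rw [this, e1, aeval_X]
  have h2 : θ lam = algebraMap A K (algebraMap ℤ[X] A X) := by
    conv_lhs => rw [h1]
    exact θ.commutes _
  have h3 : algebraMap A K (algebraMap ℤ[X] A X) = τ := by
    show g (algebraMap ℤ[X] A X) = τ
    rw [g.commutes, e2, aeval_X]
  show θ lam = τ
  rw [h2, h3]

end embed

end Pool.Agent.Lib_helper40
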