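import Pool.Agent.Lib_helper40.CharZero2

namespace Pool.Agent.Lib_helper40

open Filter

universe u v

section pres

variable {R : Type*} [CommRing R] {B : Type*} [CommRing B] [Algebra R B]

theorem presAlg_hom_iff {n r : ℕ} (h : Fin r → MvPolynomial (Fin n) R) :
    Nonempty (PresAlg R h →ₐ[R] B) ↔ ∃ y : Fin n → B, ∀ j, MvPolynomial.aeval y (h j) = 0 := by
  constructor
  · rintro ⟨f⟩
    refine ⟨fun i => f (Ideal.Quotient.mk _ (MvPolynomial.X i)), ?_⟩
    intro j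
    have h1 : (f.comp (Ideal.Quotient.mkₐ R (Ideal.span (Set.range h)))) =
        MvPolynomial.aeval (fun i => f (Ideal.Quotient.mk _ (MvPolynomial.X i))) := by
      apply MvPolynomial.algHom_ext
      intro i
      rw [MvPolynomial.aeval_X]
      rfl
    rw [← h1, AlgHom.comp_apply]
    have h2 : Ideal.Quotient.mkₐ R (Ideal.span (Set.range h)) (h j) = 0 := by
      rw [Ideal.Quotient.mkₐ_eq_mk, Ideal.Quotient.eq_zero_iff_mem]
      exact Ideal.subset_span ⟨j, rfl⟩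
    rw [h2, map_zero]
  · rintro ⟨y, hy⟩
    refine ⟨Ideal.Quotient.liftₐ _ (MvPolynomial.aeval y) ?_⟩
    intro a ha
    have h1 : Ideal.span (Set.range h) ≤ RingHom.ker (MvPolynomial.aeval (R := R) y).toRingHom := by
      rw [Ideal.span_le]
      rintro _ ⟨j, rfl⟩
      exact hy j
    exact h1 ha

end pres

section rel

open MvPolynomial

/-- the two relations `v^4 = x^8 + s x^4 y^4 + y^8` and `x^2 y^2 = a x^3 + b y^3 + c v` -/
noncomputable def hrel (K : Type*) [Field K] (s : K) :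
    Fin 2 → MvPolynomial (Fin 4) (MvPolynomial (Fin 2) K) :=
  ![X 0 ^ 4 - C (X 0 ^ 8 + C s * X 0 ^ 4 * X 1 ^ 4 + X 1 ^ 8),
    C (X 0 ^ 2 * X 1 ^ 2) - (X 1 * C (X 0 ^ 3) + X 2 * C (X 1 ^ 3) + X 3 * X 0)]

variable {K : Type*} [Field K] {B : Type*} [CommRing B] [Algebra (Rloc K) B]

theorem hrel_zero (s : K) (y : Fin 4 → B) : aeval y (toLoc K (hrel K s 0)) =
    y 0 ^ 4 - algebraMap (Rloc K) B (algebraMap (MvPolynomial (Fin 2) K) (Rloc K)
      (X 0 ^ 8 + C s * X 0 ^ 4 * X 1 ^ 4 + X 1 ^ 8)) := by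
  simp only [toLoc, hrel, Matrix.cons_val_zero]
  rw [map_sub, map_sub, map_pow, map_pow, MvPolynomial.map_X, aeval_X, MvPolynomial.map_C,
    aeval_C]

theorem hrel_one (s : K) (y : Fin 4 → B) : aeval y (toLoc K (hrel K s 1)) =
    algebraMap (Rloc K) B (algebraMap (MvPolynomial (Fin 2) K) (Rloc K) (X 0 ^ 2 * X 1 ^ 2)) -
    (y 1 * algebraMap (Rloc K) B (algebraMap (MvPolynomial (Fin 2) K) (Rloc K) (X 0 ^ 3)) +
     y 2 * algebraMap (Rloc K) B (algebraMap (MvPolynomial (Fin 2) K) (Rloc K) (X 1 ^ 3)) +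
     y 3 * y 0) := by
  simp only [toLoc, hrel, Matrix.cons_val_one, Matrix.cons_val_fin_one]
  simp only [map_sub, map_add, map_mul, map_pow, MvPolynomial.map_C, MvPolynomial.map_X, aeval_C,
    aeval_X]

end rel

section charP

open Polynomial

/-- special parameters in characteristic `p` -/
def IsSpecial (p : ℕ) {K : Type*} [Field K] (s : K) : Prop :=
  (p = 4 * (p / 4) + 1 ∧ ∃ C0 A0 B0 : K[X], C0.natDegree ≤ 2 * (p / 4) ∧ C0.coeff (p / 4) ≠ 0 ∧
    A0.natDegree < p / 4 ∧ B0.natDegree < p / 4 ∧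
    C0 * qq s ^ (p / 4) = B0 + X ^ (p / 4 + 2 * (p / 4) + 1) * A0) ∨
  (p = 4 * (p / 4) + 3 ∧ ∃ C0 A0 B0 : K[X], C0.natDegree ≤ 2 * (p / 4) ∧ C0.coeff (p / 4) ≠ 0 ∧
    A0.natDegree < p / 4 + 1 ∧ B0.natDegree < p / 4 + 1 ∧
    C0 * qq s ^ (p / 4 + 1) = B0 + X ^ (p / 4 + 1 + 2 * (p / 4) + 1) * A0)

theorem exists_special (p : ℕ) (hp : p.Prime) (hp5 : 5 ≤ p) (K : Type*) [Field K]
    [IsAlgClosed K] [CharP K p] : ∃ Λ : Finset K, p / 4 ≤ Λ.card ∧ ∀ s ∈ Λ, IsSpecial p s := by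
  have h2 : (2 : K) ≠ 0 := by
    intro h0
    have h1 : ((2 : ℕ) : K) = 0 := by exact_mod_cast h0
    rw [CharP.cast_eq_zero_iff K p] at h1
    have := Nat.le_of_dvd (by norm_num) h1
    omega
  have hodd : p % 2 = 1 := by
    rcases hp.eq_two_or_odd with h | h
    · omega
    · exact h
  have h4 : p % 4 = 1 ∨ p % 4 = 3 := by omega
  rcases h4 with h4 | h4
  · obtain ⟨Λ, hΛ, hs⟩ := special_params (F := K) (p := p) h2 (n := p / 4) (c := 2 * (p / 4))
      (k := p / 4) (by omega) (by omega) (by omega)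
    refine ⟨Λ, hΛ, fun s hs' => Or.inl ⟨by omega, ?_⟩⟩
    obtain ⟨C0, A, B, h1, h3, h5, h6, h7⟩ := hs s hs'
    exact ⟨C0, A, B, h1, h3, h5, h6, h7⟩
  · obtain ⟨Λ, hΛ, hs⟩ := special_params (F := K) (p := p) h2 (n := p / 4 + 1) (c := 2 * (p / 4))
      (k := p / 4) (by omega) (by omega) (by omega)
    refine ⟨Λ, by omega, fun s hs' => Or.inr ⟨by omega, ?_⟩⟩
    obtain ⟨C0, A, B, h1, h3, h5, h6, h7⟩ := hs s hs'
    exact ⟨C0, A, B, h1, h3, h5, h6, h7⟩

/-- special parameters give algebras without a map to a big Cohen-Macaulay algebra -/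
theorem not_seed_of_isSpecial (p : ℕ) [Fact p.Prime] (hp5 : 5 ≤ p) (K : Type u) [Field K]
    [CharP K p] {s : K} (hs : IsSpecial p s) (B : Type v) [CommRing B] [Algebra (Rloc K) B]
    (hB : IsBigCM (Rloc K) B) (y : Fin 4 → B)
    (h0 : MvPolynomial.aeval y (toLoc K (hrel K s 0)) = 0)
    (h1 : MvPolynomial.aeval y (toLoc K (hrel K s 1)) = 0) : False := by
  let cst : K →+* B := (algebraMap (Rloc K) B).comp
    ((algebraMap (MvPolynomial (Fin 2) K) (Rloc K)).comp MvPolynomial.C)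
  let _ : Algebra K B := cst.toAlgebra
  have hcst : ∀ c : K, algebraMap (Rloc K) B (algebraMap (MvPolynomial (Fin 2) K) (Rloc K)
    (MvPolynomial.C c)) = algebraMap K B c := fun c => rfl
  have hperm := perm_of_isBigCM hB
  rw [hrel_zero, sub_eq_zero] at h0
  rw [hrel_one, sub_eq_zero] at h1
  simp only [map_add, map_mul, map_pow, hcst] at h0 h1
  rcases hs with ⟨hp, C0, A0, B0, h2, h3, h4, h5, h6⟩ | ⟨hp, C0, A0, B0, h2, h3, h4, h5, h6⟩
  · exact nonseed_one (k := K) (p := p) (m := p / 4) (by omega) hp hperm h2 h3 h4 h5 h6 h0 h1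
  · exact nonseed_three (k := K) (p := p) (m := p / 4) (by omega) hp hperm h2 h3 h4 h5 h6 h0 h1

/-- a transcendental family of special parameters -/
theorem exists_special_family : ∃ s : ∀ p : Nat.Primes, Fbar p,
    (∀ p : Nat.Primes, 5 ≤ p.1 → IsSpecial p.1 (s p)) ∧
    ∀ F : ℤ[X], F ≠ 0 → ∀ᶠ p in cofinite, aeval (s p) F ≠ 0 := by
  classical
  have hex : ∀ p : Nat.Primes, ∃ Λ : Finset (Fbar p), (5 ≤ p.1 → p.1 / 4 ≤ Λ.card) ∧
      ∀ s ∈ Λ, IsSpecial p.1 s := by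
    intro p
    by_cases hp5 : 5 ≤ p.1
    · obtain ⟨Λ, h1, h2⟩ := exists_special p.1 p.2 hp5 (Fbar p)
      exact ⟨Λ, fun _ => h1, h2⟩
    · exact ⟨∅, fun h => absurd h hp5, by simp⟩
  choose Λ hΛ1 hΛ2 using hex
  have hpr : Function.Injective (fun p : Nat.Primes => p.1) := Nat.Primes.coe_nat_injective
  have htend0 : Tendsto (fun p : Nat.Primes => p.1) cofinite atTop := by
    rw [← Nat.cofinite_eq_atTop]
    exact hpr.tendsto_cofinite
  have htend : Tendsto (fun p : Nat.Primes => (Λ p).card) cofinite atTop := by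
    rw [tendsto_atTop]
    intro b
    filter_upwards [htend0.eventually_ge_atTop (4 * b + 5)] with p hp
    have := hΛ1 p (by omega)
    omega
  obtain ⟨s, hs1, hs2⟩ := transc_choice (fun p : Nat.Primes => p.1) hpr Fbar Λ htend
  refine ⟨s, ?_, hs2⟩
  intro p hp
  apply hΛ2 p
  apply hs1
  rw [← Finset.card_pos]
  have := hΛ1 p hp
  omega

end charP

end Pool.Agent.Lib_helper40
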