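import Pool.Agent.Lib_helper40.Hom

namespace Pool.Agent.Lib_helper40

open Polynomial

section colon

variable {B : Type*} [CommRing B]

/-- the two elements `x, y` behave like a regular sequence in either order, and so do their
powers -/
structure Perm (x y : B) : Prop where
  h1 : ∀ (i j : ℕ) (e : B), 1 ≤ j → x ^ i * e ∈ Ideal.span {y ^ j} → e ∈ Ideal.span {y ^ j}
  h2 : ∀ (i j : ℕ) (e : B), 1 ≤ j → y ^ i * e ∈ Ideal.span {x ^ j} → e ∈ Ideal.span {x ^ j}
  h3 : (1 : B) ∉ Ideal.span {x, y}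

theorem Perm.colon {x y : B} (h : Perm x y) {a b i j : ℕ} (hi : 1 ≤ i) (hj : 1 ≤ j) {e : B}
    (he : x ^ a * y ^ b * e ∈ Ideal.span {x ^ (a + i), y ^ (b + j)}) :
    e ∈ Ideal.span {x ^ i, y ^ j} := by
  obtain ⟨α, β, hαβ⟩ := Ideal.mem_span_pair.mp he
  have h1 : y ^ b * e - x ^ i * α ∈ Ideal.span {y ^ (b + j)} := by
    apply h.h1 a (b + j) _ (by omega)
    rw [Ideal.mem_span_singleton]
    refine ⟨β, ?_⟩
    rw [mul_sub, ← mul_assoc, ← hαβ, pow_add]
    ring
  obtain ⟨γ, hγ⟩ := Ideal.mem_span_singleton.mp h1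
  have h2 : e - y ^ j * γ ∈ Ideal.span {x ^ i} := by
    apply h.h2 b i _ (by omega)
    rw [Ideal.mem_span_singleton]
    refine ⟨α, ?_⟩
    rw [pow_add] at hγ
    linear_combination hγ
  obtain ⟨δ, hδ⟩ := Ideal.mem_span_singleton.mp h2
  rw [Ideal.mem_span_pair]
  exact ⟨δ, γ, by linear_combination -hδ⟩

theorem Perm.one_notMem {x y : B} (h : Perm x y) {i j : ℕ} (hi : 1 ≤ i) (hj : 1 ≤ j) :
    (1 : B) ∉ Ideal.span {x ^ i, y ^ j} := by
  intro h1
  apply h.h3
  have hle : Ideal.span {x ^ i, y ^ j} ≤ Ideal.span {x, y} := by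
    rw [Ideal.span_le]
    rintro z (rfl | rfl)
    · exact Ideal.pow_mem_of_mem _ (Ideal.subset_span (by simp)) _ (by omega)
    · exact Ideal.pow_mem_of_mem _ (Ideal.subset_span (by simp)) _ (by omega)
  exact hle h1

theorem mem_span_left {x y : B} {i j a : ℕ} (h : i ≤ a) (e : B) :
    x ^ a * e ∈ Ideal.span {x ^ i, y ^ j} := by
  apply Ideal.mul_mem_right
  obtain ⟨d, rfl⟩ := Nat.exists_eq_add_of_le h
  rw [pow_add]
  exact Ideal.mul_mem_right _ _ (Ideal.subset_span (by simp))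

theorem mem_span_right {x y : B} {i j a : ℕ} (h : j ≤ a) (e : B) :
    y ^ a * e ∈ Ideal.span {x ^ i, y ^ j} := by
  apply Ideal.mul_mem_right
  obtain ⟨d, rfl⟩ := Nat.exists_eq_add_of_le h
  rw [pow_add]
  exact Ideal.mul_mem_right _ _ (Ideal.subset_span (by simp))

end colon

section nonseed

variable {k : Type*} [Field k] {B : Type*} [CommRing B] [Algebra k B]

/-- the homogeneous identity coming from a special parameter -/
theorem special_hom {n c : ℕ} (hn : 1 ≤ n) {s : k} {C0 A0 B0 : k[X]} (hC : C0.natDegree ≤ c)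
    (hA : A0.natDegree < n) (hB : B0.natDegree < n)
    (h : C0 * qq s ^ n = B0 + X ^ (n + c + 1) * A0) (a b : B) :
    hev c C0 a b * (hev 2 (qq s) a b) ^ n =
      b ^ (n + c + 1) * hev (n - 1) B0 a b + a ^ (n + c + 1) * hev (n - 1) A0 a b := by
  have h1 : hev (c + n * 2) (C0 * qq s ^ n) a b =
      hev (c + n * 2) (B0 + X ^ (n + c + 1) * A0) a b := by rw [h]
  have hq : (qq s ^ n).natDegree ≤ n * 2 :=
    (natDegree_pow_le).trans (Nat.mul_le_mul_left n (qq_natDegree_le s))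
  rw [hev_mul hC hq, hev_pow (qq_natDegree_le s), hev_add,
    show c + n * 2 = (n + c + 1) + (n - 1) by omega,
    hev_X_pow_mul (by omega), hev_low (by omega)] at h1
  exact h1

/-- isolating the middle coefficient -/
theorem middle_hom {m : ℕ} (hm : 1 ≤ m) {C0 : k[X]} (hC : C0.natDegree ≤ 2 * m) (a b : B) :
    ∃ A' B' : B, hev (2 * m) C0 a b =
      algebraMap k B (C0.coeff m) * (a ^ m * b ^ m) + a ^ (m + 1) * A' + b ^ (m + 1) * B' := by
  have hdeg : (C0 - C (C0.coeff m) * X ^ m).natDegree ≤ 2 * m + 0 := by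
    refine (natDegree_sub_le _ _).trans (max_le hC ?_)
    refine (natDegree_C_mul_X_pow_le _ _).trans ?_
    omega
  obtain ⟨A, B', hA, hB, hAB⟩ := split_of_coeff_zero (n := m) (c := 0) hm hdeg (by
    intro i
    have hi : (i : ℕ) = 0 := by omega
    rw [hi, add_zero, coeff_sub, coeff_C_mul_X_pow]
    simp)
  have h1 : C0 = C (C0.coeff m) * X ^ m + (B' + X ^ (m + 1) * A) := by
    rw [← add_zero m, add_zero (m + 0), add_zero] at hAB
    rw [← hAB]; ring
  refine ⟨hev (m - 1) A a b, hev (m - 1) B' a b, ?_⟩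
  conv_lhs => rw [h1]
  have h2 : hev (2 * m) (C (C0.coeff m) * X ^ m) a b =
      algebraMap k B (C0.coeff m) * (a ^ m * b ^ m) := by
    rw [two_mul, hev_mul (by simp) (natDegree_X_pow_le m), hev_C, hev_X_pow]
    ring
  rw [hev_add, h2, hev_add, show 2 * m = (m + 1) + (m - 1) by omega,
    hev_X_pow_mul (by omega), hev_low (by omega)]
  ring

theorem lowest_hom {M : ℕ} {Q : k[X]} (hQ : Q.natDegree ≤ M) (a b : B) :
    ∃ R' : B, hev M Q a b = algebraMap k B (Q.coeff 0) * b ^ M + a * R' := by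
  rcases Nat.eq_zero_or_pos M with rfl | hM
  · refine ⟨0, ?_⟩
    have h1 := eq_C_of_natDegree_le_zero hQ
    rw [h1, hev_C, coeff_C_zero]
    ring
  · refine ⟨hev (M - 1) Q.divX a b, ?_⟩
    have h1 : Q = X ^ 1 * Q.divX + C (Q.coeff 0) := by
      rw [pow_one, mul_comm]; exact (divX_mul_X_add Q).symm
    have h2 : Q.divX.natDegree ≤ M - 1 := by
      rw [natDegree_divX_eq_natDegree_tsub_one]; omega
    conv_lhs => rw [h1]
    rw [hev_add, hev_C, show M = 1 + (M - 1) by omega, hev_X_pow_mul (by omega)]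
    rw [show 1 + (M - 1) - 1 = M - 1 by omega]
    ring

theorem lowest_contra {m : ℕ} {x y : B} (h : Perm x y) {P : k[X]} (hP0 : P ≠ 0)
    (hPdeg : P.natDegree ≤ 2 * m) (hPmem : hev (2 * m) P (x ^ 4) (y ^ 4) ∈
      Ideal.span {x ^ (8 * m + 2), y ^ (8 * m + 2)}) : False := by
  -- the lowest term of `P`
  obtain ⟨Q, hPQ, hQd⟩ := exists_eq_pow_rootMultiplicity_mul_and_not_dvd P hP0 0
  rw [C_0, sub_zero] at hPQ hQd
  rw [X_dvd_iff] at hQd
  set l := P.rootMultiplicity 0 with hl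
  have hQ0 : Q ≠ 0 := by rintro rfl; exact hQd (coeff_zero 0)
  have hdeg : l + Q.natDegree = P.natDegree := by
    conv_rhs => rw [hPQ]
    rw [natDegree_mul (pow_ne_zero _ X_ne_zero) hQ0, natDegree_X_pow]
  obtain ⟨M, hM⟩ : ∃ M, 2 * m = l + M := ⟨2 * m - l, by omega⟩
  have hPh : hev (2 * m) P (x ^ 4) (y ^ 4) = x ^ (4 * l) * hev M Q (x ^ 4) (y ^ 4) := by
    conv_lhs => rw [hPQ, hM]
    rw [hev_X_pow_mul (by omega), ← pow_mul]
  obtain ⟨R', hR'⟩ := lowest_hom (M := M) (Q := Q) (by omega) (x ^ 4) (y ^ 4)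
  rw [hPh] at hPmem
  have h10 : hev M Q (x ^ 4) (y ^ 4) ∈ Ideal.span {x ^ (8 * m + 2 - 4 * l), y ^ (8 * m + 2)} := by
    refine h.colon (a := 4 * l) (b := 0) (by omega) (by omega) ?_
    rw [pow_zero, mul_one, zero_add, show 4 * l + (8 * m + 2 - 4 * l) = 8 * m + 2 by omega]
    exact hPmem
  have h11 : hev M Q (x ^ 4) (y ^ 4) ∈ Ideal.span {x ^ 2, y ^ (8 * m + 2)} := by
    obtain ⟨α', β', h12⟩ := Ideal.mem_span_pair.mp h10
    rw [← h12]
    refine add_mem ?_ ?_
    · rw [mul_comm α']; exact mem_span_left (by omega) _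
    · rw [mul_comm β']; exact mem_span_right le_rfl _
  have h13 : x ^ 0 * y ^ (4 * M) * algebraMap k B (Q.coeff 0) ∈
      Ideal.span {x ^ (0 + 2), y ^ (4 * M + (8 * m + 2 - 4 * M))} := by
    have h14 : x ^ 0 * y ^ (4 * M) * algebraMap k B (Q.coeff 0) =
        hev M Q (x ^ 4) (y ^ 4) - x ^ 4 * R' := by
      rw [hR', ← pow_mul]; ring
    rw [h14, show 4 * M + (8 * m + 2 - 4 * M) = 8 * m + 2 by omega, zero_add]
    exact sub_mem h11 (mem_span_left (by omega) _)
  have h15 := h.colon (by norm_num) (by omega) h13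
  apply h.one_notMem (i := 2) (j := 8 * m + 2 - 4 * M) (by norm_num) (by omega)
  have h16 : (1 : B) = algebraMap k B (Q.coeff 0)⁻¹ * algebraMap k B (Q.coeff 0) := by
    rw [← map_mul, inv_mul_cancel₀ hQd, map_one]
  rw [h16]
  exact Ideal.mul_mem_left _ _ h15

variable {p : ℕ} [Fact p.Prime] [CharP k p]

theorem charP_of_notMem (k : Type*) [Field k] {B : Type*} [CommRing B] [Algebra k B] {p : ℕ}
    [CharP k p] {x y : B} (h : Perm x y) : CharP B p := by
  have hnt : Nontrivial B := by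
    refine ⟨⟨0, 1, fun h0 => h.h3 ?_⟩⟩
    rw [← h0]; exact zero_mem _
  exact charP_of_injective_algebraMap (algebraMap k B).injective p

/-- the case `p = 4m+1` -/
theorem nonseed_one {m : ℕ} (hm : 1 ≤ m) (hp : p = 4 * m + 1) {x y : B} (h : Perm x y)
    {s : k} {C0 A0 B0 : k[X]} (hC : C0.natDegree ≤ 2 * m) (hCm : C0.coeff m ≠ 0)
    (hA : A0.natDegree < m) (hB : B0.natDegree < m)
    (hsp : C0 * qq s ^ m = B0 + X ^ (m + 2 * m + 1) * A0) {v a b c : B}
    (hv : v ^ 4 = x ^ 8 + algebraMap k B s * x ^ 4 * y ^ 4 + y ^ 8)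
    (hr : x ^ 2 * y ^ 2 = a * x ^ 3 + b * y ^ 3 + c * v) : False := by
  have hchar : CharP B p := charP_of_notMem k h
  have hG : hev 2 (qq s) (x ^ 4) (y ^ 4) = v ^ 4 := by
    rw [hev_qq, hv]; ring
  have hCG := special_hom hm hC hA hB hsp (x ^ 4) (y ^ 4)
  rw [hG] at hCG
  set Ch := hev (2 * m) C0 (x ^ 4) (y ^ 4) with hCh
  set Ah := hev (m - 1) A0 (x ^ 4) (y ^ 4) with hAh
  set Bh := hev (m - 1) B0 (x ^ 4) (y ^ 4) with hBh
  have hfrob : x ^ (2 * p) * y ^ (2 * p) = a ^ p * x ^ (3 * p) + b ^ p * y ^ (3 * p) +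
      c ^ p * v ^ p := by
    have h1 : (x ^ 2 * y ^ 2) ^ p = (a * x ^ 3 + b * y ^ 3 + c * v) ^ p := by rw [hr]
    rw [add_pow_char, add_pow_char] at h1
    rw [mul_pow, mul_pow, mul_pow, mul_pow, ← pow_mul, ← pow_mul, ← pow_mul, ← pow_mul] at h1
    exact h1
  have hmem : x ^ (2 * p) * y ^ (2 * p) * Ch ∈
      Ideal.span {x ^ (2 * p + p), y ^ (2 * p + p)} := by
    have h1 : x ^ (2 * p) * y ^ (2 * p) * Ch =
        x ^ (3 * p) * (a ^ p * Ch) + y ^ (3 * p) * (b ^ p * Ch) +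
        (y ^ (3 * p + 1) * (c ^ p * v * Bh) + x ^ (3 * p + 1) * (c ^ p * v * Ah)) := by
      rw [hfrob]
      have hvp : v ^ p = v * (v ^ 4) ^ m := by rw [← pow_mul, hp]; ring
      have e1 : (x ^ 4) ^ (m + 2 * m + 1) = x ^ (3 * p + 1) := by
        rw [← pow_mul, hp]; congr 1; ring
      have e2 : (y ^ 4) ^ (m + 2 * m + 1) = y ^ (3 * p + 1) := by
        rw [← pow_mul, hp]; congr 1; ring
      rw [e1, e2] at hCG
      rw [hvp]
      linear_combination (c ^ p * v) * hCG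
    rw [h1]
    refine add_mem (add_mem ?_ ?_) (add_mem ?_ ?_)
    · exact mem_span_left (by omega) _
    · exact mem_span_right (by omega) _
    · exact mem_span_right (by omega) _
    · exact mem_span_left (by omega) _
  have hpp : 1 ≤ p := by omega
  have hCmem : Ch ∈ Ideal.span {x ^ p, y ^ p} := h.colon hpp hpp hmem
  obtain ⟨A', B', hmid⟩ := middle_hom hm hC (x ^ 4) (y ^ 4)
  rw [← hCh] at hmid
  have h2 : x ^ (4 * m) * y ^ (4 * m) * algebraMap k B (C0.coeff m) ∈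
      Ideal.span {x ^ (4 * m + 1), y ^ (4 * m + 1)} := by
    have h3 : x ^ (4 * m) * y ^ (4 * m) * algebraMap k B (C0.coeff m) =
        Ch - x ^ (4 * (m + 1)) * A' - y ^ (4 * (m + 1)) * B' := by
      rw [hmid, ← pow_mul, ← pow_mul, ← pow_mul, ← pow_mul]; ring
    rw [h3, ← hp]
    refine sub_mem (sub_mem hCmem ?_) ?_
    · exact mem_span_left (by omega) _
    · exact mem_span_right (by omega) _
  have h4 := h.colon le_rfl le_rfl h2
  apply h.one_notMem (i := 1) (j := 1) le_rfl le_rfl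
  have h5 : (1 : B) = algebraMap k B (C0.coeff m)⁻¹ * algebraMap k B (C0.coeff m) := by
    rw [← map_mul, inv_mul_cancel₀ hCm, map_one]
  rw [h5]
  exact Ideal.mul_mem_left _ _ h4

/-- powers of `q` have a nonzero middle coefficient -/
theorem exists_middle {n : ℕ} (hn : 2 ≤ n) (s : k) (hp : 2 * n < p) :
    ∃ P : k[X], P ≠ 0 ∧ P.natDegree ≤ 2 * n - 2 ∧ qq s ^ n = 1 + X ^ (2 * n) + X * P := by
  have hp2 : p.Prime := Fact.out
  obtain ⟨P, hP⟩ : (X : k[X]) ∣ qq s ^ n - 1 - X ^ (2 * n) := by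
    rw [Polynomial.X_dvd_iff, coeff_sub, coeff_sub, coeff_zero_eq_eval_zero,
      coeff_zero_eq_eval_zero, coeff_zero_eq_eval_zero]
    have : n ≠ 0 := by omega
    simp [qq, this]
  have hq : (qq s ^ n).Monic := (qq_monic s).pow n
  have hqd : (qq s ^ n).natDegree = 2 * n := by
    rw [natDegree_pow, qq_natDegree, mul_comm]
  refine ⟨P, ?_, ?_, ?_⟩
  · rintro rfl
    have h1 : qq s ^ n = 1 + X ^ (2 * n) := by linear_combination hP
    have h2 := congrArg derivative h1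
    rw [derivative_pow, derivative_add, derivative_one, zero_add, derivative_X_pow] at h2
    have h3 : qq s ∣ C ((2 * n : ℕ) : k) * X ^ (2 * n - 1) := by
      rw [← h2]
      obtain ⟨j, rfl⟩ : ∃ j, n = j + 2 := ⟨n - 2, by omega⟩
      exact ⟨C ((j + 2 : ℕ) : k) * qq s ^ j * derivative (qq s), by
        rw [show j + 2 - 1 = j + 1 by omega]; ring⟩
    have h4 : ((2 * n : ℕ) : k) ≠ 0 := by
      intro h0
      rw [CharP.cast_eq_zero_iff k p] at h0
      have := Nat.le_of_dvd (by omega) h0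
      omega
    have h5 : qq s ∣ X ^ (2 * n - 1) := by
      have : (X : k[X]) ^ (2 * n - 1) = C (((2 * n : ℕ) : k)⁻¹) *
          (C ((2 * n : ℕ) : k) * X ^ (2 * n - 1)) := by
        rw [← mul_assoc, ← C_mul, inv_mul_cancel₀ h4, C_1, one_mul]
      rw [this]
      exact Dvd.dvd.mul_left h3 _
    have h6 : IsCoprime (qq s) (X ^ (2 * n - 1) : k[X]) :=
      ((isCoprime_X_qq s).symm).pow_right
    have h7 := h6.isUnit_of_dvd' (dvd_refl _) h5
    have h8 := natDegree_eq_zero_of_isUnit h7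
    rw [qq_natDegree] at h8
    omega
  · by_cases hP0 : P = 0
    · rw [hP0]; simp
    have h1 : (X * P).natDegree < 2 * n := by
      rw [← hP]
      have h2 : (qq s ^ n - 1 - X ^ (2 * n)) = (qq s ^ n - X ^ (2 * n)) - 1 := by ring
      rw [h2]
      have h3 : (qq s ^ n - X ^ (2 * n)).natDegree < 2 * n := by
        have h4 : (qq s ^ n - X ^ (2 * n)).degree < (qq s ^ n).degree := by
          apply degree_sub_lt_left
          · rw [degree_X_pow, degree_eq_natDegree hq.ne_zero, hqd]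
          · exact hq.ne_zero
          · rw [hq.leadingCoeff, leadingCoeff_X_pow]
        by_cases h5 : qq s ^ n - X ^ (2 * n) = 0
        · rw [h5]; simp; omega
        · rw [degree_eq_natDegree hq.ne_zero, hqd, degree_eq_natDegree h5] at h4
          exact_mod_cast h4
      refine lt_of_le_of_lt (natDegree_sub_le _ _) ?_
      rw [natDegree_one]
      exact max_lt h3 (by omega)
    rw [natDegree_X_mul hP0] at h1
    omega
  · linear_combination hP

/-- the case `p = 4m+3` -/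
theorem nonseed_three {m : ℕ} (hm : 1 ≤ m) (hp : p = 4 * m + 3) {x y : B} (h : Perm x y)
    {s : k} {C0 A0 B0 : k[X]} (hC : C0.natDegree ≤ 2 * m) (hCm : C0.coeff m ≠ 0)
    (hA : A0.natDegree < m + 1) (hB : B0.natDegree < m + 1)
    (hsp : C0 * qq s ^ (m + 1) = B0 + X ^ (m + 1 + 2 * m + 1) * A0) {v a b c : B}
    (hv : v ^ 4 = x ^ 8 + algebraMap k B s * x ^ 4 * y ^ 4 + y ^ 8)
    (hr : x ^ 2 * y ^ 2 = a * x ^ 3 + b * y ^ 3 + c * v) : False := by
  have hchar : CharP B p := charP_of_notMem k h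
  have hG : hev 2 (qq s) (x ^ 4) (y ^ 4) = v ^ 4 := by
    rw [hev_qq, hv]; ring
  have hCG := special_hom (by omega) hC hA hB hsp (x ^ 4) (y ^ 4)
  rw [hG] at hCG
  set Ch := hev (2 * m) C0 (x ^ 4) (y ^ 4) with hCh
  set Ah := hev (m + 1 - 1) A0 (x ^ 4) (y ^ 4) with hAh
  set Bh := hev (m + 1 - 1) B0 (x ^ 4) (y ^ 4) with hBh
  have hfrob : x ^ (2 * p) * y ^ (2 * p) = a ^ p * x ^ (3 * p) + b ^ p * y ^ (3 * p) +
      c ^ p * v ^ p := by
    have h1 : (x ^ 2 * y ^ 2) ^ p = (a * x ^ 3 + b * y ^ 3 + c * v) ^ p := by rw [hr]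
    rw [add_pow_char, add_pow_char] at h1
    rw [mul_pow, mul_pow, mul_pow, mul_pow, ← pow_mul, ← pow_mul, ← pow_mul, ← pow_mul] at h1
    exact h1
  have hmem : x ^ (2 * p + 1) * y ^ (2 * p + 1) * (Ch * v) ∈
      Ideal.span {x ^ (2 * p + 1 + (4 * m + 2)), y ^ (2 * p + 1 + (4 * m + 2))} := by
    have h1 : x ^ (2 * p + 1) * y ^ (2 * p + 1) * (Ch * v) =
        x ^ (3 * p) * (x * y * a ^ p * Ch * v) + y ^ (3 * p) * (x * y * b ^ p * Ch * v) +
        (y ^ (3 * p) * (c ^ p * x * Bh) + x ^ (3 * p) * (c ^ p * y * Ah)) := by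
      have hvp : v ^ p * v = (v ^ 4) ^ (m + 1) := by rw [← pow_mul, hp]; ring
      have e1 : (x ^ 4) ^ (m + 1 + 2 * m + 1) * x = x ^ (3 * p) := by
        rw [← pow_mul, hp, ← pow_succ]; congr 1; ring
      have e2 : (y ^ 4) ^ (m + 1 + 2 * m + 1) * y = y ^ (3 * p) := by
        rw [← pow_mul, hp, ← pow_succ]; congr 1; ring
      have h2 : x ^ (2 * p + 1) * y ^ (2 * p + 1) * (Ch * v) =
          x * y * Ch * v * (x ^ (2 * p) * y ^ (2 * p)) := by ring
      rw [h2, hfrob]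
      linear_combination (c ^ p * x * y * Ch) * hvp + (c ^ p * x * y) * hCG +
        (c ^ p * x * Bh) * e2 + (c ^ p * y * Ah) * e1
    rw [h1]
    refine add_mem (add_mem ?_ ?_) (add_mem ?_ ?_)
    · exact mem_span_left (by omega) _
    · exact mem_span_right (by omega) _
    · exact mem_span_right (by omega) _
    · exact mem_span_left (by omega) _
  have hCmem : Ch * v ∈ Ideal.span {x ^ (4 * m + 2), y ^ (4 * m + 2)} :=
    h.colon (by omega) (by omega) hmem
  obtain ⟨A', B', hmid⟩ := middle_hom hm hC (x ^ 4) (y ^ 4)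
  rw [← hCh] at hmid
  have h2 : x ^ (4 * m) * y ^ (4 * m) * (algebraMap k B (C0.coeff m) * v) ∈
      Ideal.span {x ^ (4 * m + 2), y ^ (4 * m + 2)} := by
    have h3 : x ^ (4 * m) * y ^ (4 * m) * (algebraMap k B (C0.coeff m) * v) =
        Ch * v - x ^ (4 * (m + 1)) * (A' * v) - y ^ (4 * (m + 1)) * (B' * v) := by
      rw [hmid, ← pow_mul, ← pow_mul, ← pow_mul, ← pow_mul]; ring
    rw [h3]
    refine sub_mem (sub_mem hCmem ?_) ?_
    · exact mem_span_left (by omega) _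
    · exact mem_span_right (by omega) _
  have h4 := h.colon (by norm_num) (by norm_num) h2
  have hvmem : v ∈ Ideal.span {x ^ 2, y ^ 2} := by
    have h5 : v = algebraMap k B (C0.coeff m)⁻¹ * (algebraMap k B (C0.coeff m) * v) := by
      rw [← mul_assoc, ← map_mul, inv_mul_cancel₀ hCm, map_one, one_mul]
    rw [h5]
    exact Ideal.mul_mem_left _ _ h4
  -- Frobenius again
  obtain ⟨α, β, hαβ⟩ := Ideal.mem_span_pair.mp hvmem
  have hvp : (v ^ 4) ^ (m + 1) ∈ Ideal.span {x ^ (2 * p), y ^ (2 * p)} := by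
    have h5 : (v ^ 4) ^ (m + 1) = v ^ p * v := by rw [← pow_mul, hp]; ring
    have h6 : v ^ p = x ^ (2 * p) * α ^ p + y ^ (2 * p) * β ^ p := by
      rw [← hαβ, add_pow_char, mul_pow, mul_pow, ← pow_mul, ← pow_mul]; ring
    rw [h5, h6, add_mul, mul_assoc, mul_assoc]
    exact add_mem (mem_span_left le_rfl _) (mem_span_right le_rfl _)
  obtain ⟨P, hP0, hPdeg, hP⟩ := exists_middle (p := p) (n := m + 1) (by omega) s (by omega)
  have hGn : (v ^ 4) ^ (m + 1) = y ^ (8 * (m + 1)) + x ^ (8 * (m + 1)) +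
      x ^ 4 * y ^ 4 * hev (2 * m) P (x ^ 4) (y ^ 4) := by
    rw [← hG, ← hev_pow (qq_natDegree_le s), hP, hev_add, hev_add, hev_one,
      mul_comm (m + 1) 2, hev_X_pow]
    have h7 : hev (2 * (m + 1)) (X * P) (x ^ 4) (y ^ 4) =
        x ^ 4 * (y ^ 4 * hev (2 * m) P (x ^ 4) (y ^ 4)) := by
      have h8 := hev_X_pow_mul (u := 1) (N := 1 + 2 * m) (A := P) (by omega) (x ^ 4) (y ^ 4)
      have h9 := hev_low (u := 1) (N := 2 * m) (A := P) (by omega) (x ^ 4) (y ^ 4)
      rw [h9, pow_one, pow_one, pow_one] at h8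
      rw [← h8]; congr 1; ring
    rw [h7, ← pow_mul, ← pow_mul]
    ring
  have hPmem : hev (2 * m) P (x ^ 4) (y ^ 4) ∈
      Ideal.span {x ^ (8 * m + 2), y ^ (8 * m + 2)} := by
    refine h.colon (a := 4) (b := 4) (by omega) (by omega) ?_
    have h7 : x ^ 4 * y ^ 4 * hev (2 * m) P (x ^ 4) (y ^ 4) =
        (v ^ 4) ^ (m + 1) - y ^ (8 * (m + 1)) * 1 - x ^ (8 * (m + 1)) * 1 := by
      rw [hGn]; ring
    rw [h7]
    refine sub_mem (sub_mem ?_ ?_) ?_
    · rw [show 4 + (8 * m + 2) = 2 * p by omega]; exact hvp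
    · exact mem_span_right (by omega) _
    · exact mem_span_left (by omega) _
  exact lowest_contra h hP0 (by omega) hPmem

end nonseed

end Pool.Agent.Lib_helper40
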