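import Pool.Agent.Lib_helper40.Toeplitz

namespace Pool.Agent.Lib_helper40

open Polynomial

section wron

variable {F : Type*} [Field F]

theorem eq_C_of_derivative_eq_zero {p : ℕ} [CharP F p] {P : F[X]}
    (hP : derivative P = 0) (hdeg : P.natDegree < p) : P = C (P.coeff 0) := by
  ext i
  cases i with
  | zero => simp
  | succ i =>
    rw [Polynomial.coeff_C_succ]
    by_cases hi : P.natDegree < i + 1
    · exact Polynomial.coeff_eq_zero_of_natDegree_lt hi
    · have h1 := congrArg (fun q => q.coeff i) hP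
      simp only [Polynomial.coeff_derivative, Polynomial.coeff_zero] at h1
      rcases mul_eq_zero.mp h1 with h2 | h2
      · exact h2
      · exfalso
        have h3 : ((i + 1 : ℕ) : F) = 0 := by push_cast; exact h2
        rw [CharP.cast_eq_zero_iff F p] at h3
        have := Nat.le_of_dvd (Nat.succ_pos i) h3
        omega

theorem proportional_of_wronskian_eq_zero {p : ℕ} [CharP F p] {P Q : F[X]}
    (h : wronskian P Q = 0) (hP : P.natDegree < p) (hQ : Q.natDegree < p)
    (hP0 : P ≠ 0) (hQ0 : Q ≠ 0) : ∃ g : F, g ≠ 0 ∧ P = C g * Q := by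
  classical
  obtain ⟨d, hd⟩ : ∃ d, d = EuclideanDomain.gcd P Q := ⟨_, rfl⟩
  obtain ⟨P1, hPd⟩ : d ∣ P := hd ▸ EuclideanDomain.gcd_dvd_left P Q
  obtain ⟨Q1, hQd⟩ : d ∣ Q := hd ▸ EuclideanDomain.gcd_dvd_right P Q
  have hd0 : d ≠ 0 := by
    intro h0; rw [h0, zero_mul] at hPd; exact hP0 hPd
  have hcop : IsCoprime P1 Q1 := by
    have h1 := EuclideanDomain.gcd_eq_gcd_ab P Q
    rw [← hd] at h1
    refine ⟨EuclideanDomain.gcdA P Q, EuclideanDomain.gcdB P Q, ?_⟩
    apply mul_left_cancel₀ hd0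
    rw [mul_one]
    conv_rhs => rw [h1]
    conv_rhs => rw [show P * EuclideanDomain.gcdA P Q = d * P1 * EuclideanDomain.gcdA P Q by
      rw [← hPd]]
    conv_rhs => rw [show Q * EuclideanDomain.gcdB P Q = d * Q1 * EuclideanDomain.gcdB P Q by
      rw [← hQd]]
    ring
  have hP10 : P1 ≠ 0 := by
    intro h0; rw [h0, mul_zero] at hPd; exact hP0 hPd
  have hQ10 : Q1 ≠ 0 := by
    intro h0; rw [h0, mul_zero] at hQd; exact hQ0 hQd
  have hw : wronskian P1 Q1 = 0 := by
    have h1 : wronskian P Q = d ^ 2 * wronskian P1 Q1 := by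
      rw [hPd, hQd, wronskian, wronskian, derivative_mul, derivative_mul]
      ring
    rw [h1] at h
    rcases mul_eq_zero.mp h with h2 | h2
    · exact absurd (pow_eq_zero_iff (two_ne_zero) |>.mp h2) hd0
    · exact h2
  rw [hcop.wronskian_eq_zero_iff] at hw
  have hPdeg : P1.natDegree < p := by
    have : P.natDegree = d.natDegree + P1.natDegree := by
      conv_lhs => rw [hPd]
      exact natDegree_mul hd0 hP10
    omega
  have hQdeg : Q1.natDegree < p := by
    have : Q.natDegree = d.natDegree + Q1.natDegree := by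
      conv_lhs => rw [hQd]
      exact natDegree_mul hd0 hQ10
    omega
  have hPc := eq_C_of_derivative_eq_zero hw.1 hPdeg
  have hQc := eq_C_of_derivative_eq_zero hw.2 hQdeg
  have ha : P1.coeff 0 ≠ 0 := by
    intro h0; rw [h0, map_zero] at hPc; exact hP10 hPc
  have hb : Q1.coeff 0 ≠ 0 := by
    intro h0; rw [h0, map_zero] at hQc; exact hQ10 hQc
  refine ⟨P1.coeff 0 / Q1.coeff 0, div_ne_zero ha hb, ?_⟩
  have h5 : P1 = C (P1.coeff 0 / Q1.coeff 0) * Q1 := by
    conv_rhs => rw [hQc]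
    rw [Polynomial.coeff_C_zero, ← C_mul, div_mul_cancel₀ _ hb]
    exact hPc
  rw [hPd, hQd]
  conv_lhs => rw [h5]
  ring

theorem isCoprime_X_qq (s : F) : IsCoprime (X : F[X]) (qq s) := by
  refine ⟨-(X + C s), 1, ?_⟩
  unfold qq
  ring

/-- nonvanishing of the Wronskian -/
theorem wronskian_ne_zero {p : ℕ} [CharP F p] {s : F} {n u : ℕ} {C0 A B : F[X]}
    (hC : C0 ≠ 0) (hCu : C0.natDegree < u) (hnu : n ≤ u) (hB : B.natDegree < n)
    (h : C0 * qq s ^ n = B + X ^ u * A)
    (hp1 : (X ^ u * A).natDegree < p) (hp2 : B.natDegree < p) :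
    wronskian (X ^ u * A) B ≠ 0 := by
  intro hw
  have hq0 : qq s ≠ 0 := (qq_monic s).ne_zero
  by_cases hA0 : X ^ u * A = 0
  · rw [hA0, add_zero] at h
    have h1 : (C0 * qq s ^ n).natDegree = C0.natDegree + n * 2 := by
      rw [natDegree_mul hC (pow_ne_zero _ hq0), natDegree_pow, qq_natDegree]
    rw [h] at h1
    omega
  by_cases hB0 : B = 0
  · rw [hB0, zero_add] at h
    have hdvd : X ^ u ∣ C0 * qq s ^ n := ⟨A, h⟩
    have hcop : IsCoprime (X ^ u : F[X]) (qq s ^ n) := (isCoprime_X_qq s).pow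
    have := hcop.dvd_of_dvd_mul_right hdvd
    have := Polynomial.natDegree_le_of_dvd this hC
    rw [natDegree_X_pow] at this
    omega
  obtain ⟨g, hg, hgB⟩ := proportional_of_wronskian_eq_zero hw hp1 hp2 hA0 hB0
  have hdvd : X ^ u ∣ C g * B := ⟨A, hgB.symm⟩
  have hdvd2 : X ^ u ∣ B := by
    have h1 : B = C g⁻¹ * (C g * B) := by
      rw [← mul_assoc, ← C_mul, inv_mul_cancel₀ hg, C_1, one_mul]
    rw [h1]
    exact Dvd.dvd.mul_left hdvd _
  have := Polynomial.natDegree_le_of_dvd hdvd2 hB0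
  rw [natDegree_X_pow] at this
  omega

theorem wronskian_dvd_left (w : ℕ) (A B : F[X]) : X ^ w ∣ wronskian (X ^ (w + 1) * A) B := by
  refine ⟨X * A * derivative B - (C ((w + 1 : ℕ) : F) * A + X * derivative A) * B, ?_⟩
  rw [wronskian, derivative_mul, derivative_X_pow, Nat.add_sub_cancel]
  ring

theorem wronskian_eq_of_add (P B : F[X]) : wronskian P B = wronskian P (B + P) := by
  rw [wronskian_add_right, wronskian_self_eq_zero, add_zero]

theorem wronskian_mul_pow (P C0 q : F[X]) (m : ℕ) :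
    wronskian P (C0 * q ^ (m + 1)) = q ^ m * (C ((m : F) + 1) * P * C0 * derivative q +
      q * (P * derivative C0 - derivative P * C0)) := by
  rw [wronskian, derivative_mul, derivative_pow, Nat.add_sub_cancel]
  have : C ((m : F) + 1) = C ((m + 1 : ℕ) : F) := by push_cast; rfl
  rw [this]
  ring

/-- a nonzero solution has nonzero constant coefficient -/
theorem coeff_zero_ne_zero {p : ℕ} [CharP F p] {s : F} {m c : ℕ} {C0 A B : F[X]}
    (hC : C0 ≠ 0) (hCc : C0.natDegree ≤ c) (hB : B.natDegree < m + 1) (hA : A.natDegree < m + 1)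
    (h : C0 * qq s ^ (m + 1) = B + X ^ (m + 1 + c + 1) * A) (hp : 2 * (m + 1) + c < p) :
    C0.coeff 0 ≠ 0 := by
  intro h0
  obtain ⟨C1, rfl⟩ := Polynomial.X_dvd_iff.mpr h0
  have hB0 : B.coeff 0 = 0 := by
    have h1 := congrArg (fun q => q.coeff 0) h
    simp only [Polynomial.coeff_add] at h1
    rw [mul_assoc, Polynomial.coeff_X_mul_zero, pow_succ', mul_assoc,
      Polynomial.coeff_X_mul_zero, add_zero] at h1
    exact h1.symm
  obtain ⟨B1, rfl⟩ := Polynomial.X_dvd_iff.mpr hB0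
  have hC1 : C1 ≠ 0 := by rintro rfl; exact hC (mul_zero X)
  have h2 : C1 * qq s ^ (m + 1) = B1 + X ^ (m + 1 + c) * A := by
    have h3 : X * (C1 * qq s ^ (m + 1)) = X * (B1 + X ^ (m + 1 + c) * A) := by
      rw [← mul_assoc, h]; ring
    exact mul_left_cancel₀ X_ne_zero h3
  have hC1deg : C1.natDegree + 1 ≤ c := by
    rwa [natDegree_X_mul hC1] at hCc
  have hB1deg : B1.natDegree < m + 1 := by
    by_cases hB1 : B1 = 0
    · rw [hB1]; simp
    · rw [natDegree_X_mul hB1] at hB; omega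
  have hPdeg : (X ^ (m + 1 + c) * A).natDegree ≤ m + 1 + c + m := by
    refine natDegree_mul_le.trans ?_
    rw [natDegree_X_pow]; omega
  have hW : wronskian (X ^ (m + 1 + c) * A) B1 ≠ 0 :=
    wronskian_ne_zero (p := p) (n := m + 1) hC1 (by omega) (by omega) hB1deg h2 (by omega)
      (by omega)
  have hB1ne : B1 ≠ 0 := by
    rintro rfl; rw [wronskian_zero_right] at hW; exact hW rfl
  have hB1deg' : B1.natDegree + 1 < m + 1 := by
    rwa [natDegree_X_mul hB1ne] at hB
  have hdvd1 : X ^ (m + c) ∣ wronskian (X ^ (m + 1 + c) * A) B1 := by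
    have := wronskian_dvd_left (m + c) A B1
    rwa [show m + c + 1 = m + 1 + c by ring] at this
  have hdvd2 : qq s ^ m ∣ wronskian (X ^ (m + 1 + c) * A) B1 := by
    rw [wronskian_eq_of_add, ← h2, wronskian_mul_pow]
    exact dvd_mul_right _ _
  have hdvd : X ^ (m + c) * qq s ^ m ∣ wronskian (X ^ (m + 1 + c) * A) B1 :=
    ((isCoprime_X_qq s).pow).mul_dvd hdvd1 hdvd2
  have hle := Polynomial.natDegree_le_of_dvd hdvd hW
  have hlt := natDegree_wronskian_lt_add hW
  have hdeg : (X ^ (m + c) * qq s ^ m).natDegree = m + c + m * 2 := by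
    rw [natDegree_mul (pow_ne_zero _ X_ne_zero) (pow_ne_zero _ (qq_monic s).ne_zero),
      natDegree_X_pow, natDegree_pow, qq_natDegree]
  omega

/-- the rigidity lemma -/
theorem rigid {p : ℕ} [CharP F p] {s : F} {m c : ℕ} {C0 A0 B0 C1 A1 B1 : F[X]}
    (h2 : (2 : F) ≠ 0)
    (hC : C0 ≠ 0) (hCc : C0.natDegree ≤ c) (hB0 : B0.natDegree < m + 1)
    (hA0 : A0.natDegree < m + 1) (hB1 : B1.natDegree < m + 1)
    (hA1 : A1.natDegree < m + 1)
    (h0 : C0 * qq s ^ (m + 1) = B0 + X ^ (m + 1 + c + 1) * A0)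
    (h1 : C1 * qq s ^ (m + 1) + C ((m : F) + 1) * X * C0 * qq s ^ m =
      B1 + X ^ (m + 1 + c + 1) * A1)
    (hp : 2 * (m + 1) + c < p) : False := by
  set w := m + 1 + c with hw
  set P := X ^ (w + 1) * A0 with hP
  set P' := X ^ (w + 1) * A1 with hP'
  have hPdeg : P.natDegree ≤ w + 1 + m := by
    refine natDegree_mul_le.trans ?_
    rw [natDegree_X_pow]; omega
  have hP'deg : P'.natDegree ≤ w + 1 + m := by
    refine natDegree_mul_le.trans ?_
    rw [natDegree_X_pow]; omega
  have hW : wronskian P B0 ≠ 0 := by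
    refine wronskian_ne_zero (p := p) (n := m + 1) hC (by omega) (by omega) hB0 h0 ?_
      (by omega)
    rw [← hP]; omega
  have hdegXq : ∀ t : ℕ, (X ^ t * qq s ^ m).natDegree = t + m * 2 := by
    intro t
    rw [natDegree_mul (pow_ne_zero _ X_ne_zero) (pow_ne_zero _ (qq_monic s).ne_zero),
      natDegree_X_pow, natDegree_pow, qq_natDegree]
  -- the Wronskian is `k0 * X^w * q^m`
  obtain ⟨K0, hK0⟩ : X ^ w * qq s ^ m ∣ wronskian P B0 := by
    refine ((isCoprime_X_qq s).pow).mul_dvd (wronskian_dvd_left w A0 B0) ?_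
    rw [wronskian_eq_of_add, ← h0, wronskian_mul_pow]
    exact dvd_mul_right _ _
  have hK0ne : K0 ≠ 0 := by
    rintro rfl; rw [mul_zero] at hK0; exact hW hK0
  have hXq0 : ∀ t : ℕ, X ^ t * qq s ^ m ≠ 0 := fun t =>
    mul_ne_zero (pow_ne_zero _ X_ne_zero) (pow_ne_zero _ (qq_monic s).ne_zero)
  have hK0deg : K0.natDegree = 0 := by
    have hlt := natDegree_wronskian_lt_add hW
    rw [hK0, natDegree_mul (hXq0 w) hK0ne, hdegXq] at hlt
    omega
  obtain ⟨k0, hk0⟩ : ∃ k0 : F, K0 = C k0 := ⟨_, Polynomial.eq_C_of_natDegree_eq_zero hK0deg⟩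
  -- the variation
  have hEeq : P * B1 - P' * B0 =
      P * (C1 * qq s ^ (m + 1) + C ((m : F) + 1) * X * C0 * qq s ^ m) -
        P' * (C0 * qq s ^ (m + 1)) := by
    rw [h0, h1]; ring
  obtain ⟨K1, hK1⟩ : X ^ (w + 1) * qq s ^ m ∣ P * B1 - P' * B0 := by
    refine ((isCoprime_X_qq s).pow).mul_dvd ?_ ?_
    · rw [hP, hP']
      exact ⟨A0 * B1 - A1 * B0, by ring⟩
    · rw [hEeq]
      exact ⟨P * (C1 * qq s + C ((m : F) + 1) * X * C0) - P' * (C0 * qq s), by ring⟩
  have hK1deg : K1.natDegree = 0 := by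
    by_cases hK1ne : K1 = 0
    · rw [hK1ne]; simp
    have hEdeg : (P * B1 - P' * B0).natDegree ≤ w + 1 + m + m := by
      refine (natDegree_sub_le _ _).trans (max_le ?_ ?_)
      · refine natDegree_mul_le.trans ?_; omega
      · refine natDegree_mul_le.trans ?_; omega
    rw [hK1, natDegree_mul (hXq0 (w + 1)) hK1ne, hdegXq] at hEdeg
    omega
  obtain ⟨k1, hk1⟩ : ∃ k1 : F, K1 = C k1 := ⟨_, Polynomial.eq_C_of_natDegree_eq_zero hK1deg⟩
  have hqm : qq s ^ m ≠ 0 := pow_ne_zero _ (qq_monic s).ne_zero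
  have e1 : C ((m : F) + 1) * P * C0 * derivative (qq s) +
      qq s * (P * derivative C0 - derivative P * C0) = X ^ w * C k0 := by
    apply mul_left_cancel₀ hqm
    rw [← wronskian_mul_pow, h0, ← wronskian_eq_of_add, hK0, hk0]
    ring
  have e2 : C ((m : F) + 1) * X * P * C0 + qq s * (P * C1 - P' * C0) = X ^ (w + 1) * C k1 := by
    apply mul_left_cancel₀ hqm
    have : qq s ^ m * (C ((m : F) + 1) * X * P * C0 + qq s * (P * C1 - P' * C0)) =
        P * B1 - P' * B0 := by rw [hEeq]; ring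
    rw [this, hK1, hk1]
    ring
  have e3 : qq s ∣ X ^ (w + 1) * (C k1 * derivative (qq s) - C k0) := by
    refine ⟨derivative (qq s) * (P * C1 - P' * C0) -
      X * (P * derivative C0 - derivative P * C0), ?_⟩
    have : X ^ (w + 1) * (C k1 * derivative (qq s) - C k0) =
        derivative (qq s) * (X ^ (w + 1) * C k1) - X * (X ^ w * C k0) := by
      rw [pow_succ]; ring
    rw [this, ← e1, ← e2]
    ring
  have e4 : qq s ∣ C k1 * derivative (qq s) - C k0 :=
    (IsCoprime.pow_right (isCoprime_X_qq s).symm).dvd_of_dvd_mul_left e3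
  have hder : derivative (qq s) = C 2 * X + C s := by
    unfold qq
    rw [derivative_add, derivative_add, derivative_X_pow, derivative_C_mul_X, derivative_one,
      add_zero]
    norm_num
  rw [hder] at e4
  have e5 : C k1 * (C 2 * X + C s) - C k0 = 0 := by
    by_contra hne
    have := Polynomial.natDegree_le_of_dvd e4 hne
    rw [qq_natDegree] at this
    have h3 : (C k1 * (C 2 * X + C s) - C k0).natDegree ≤ 1 := by
      compute_degree
    omega
  have e6 : k1 * 2 = 0 := by
    have := congrArg (fun q => q.coeff 1) e5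
    simp [Polynomial.coeff_C, mul_add] at this
    rcases this with h | h
    · rw [h]; simp
    · exact absurd h h2
  have hk1z : k1 = 0 := by
    rcases mul_eq_zero.mp e6 with h | h
    · exact h
    · exact absurd h h2
  rw [hk1z, C_0, zero_mul, zero_sub, neg_eq_zero] at e5
  rw [← hk0] at e5
  exact hK0ne e5

end wron

end Pool.Agent.Lib_helper40
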