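import Pool.Agent.Lib_helper40.Special

namespace Pool.Agent.Lib_helper40

open Polynomial

section vec

variable {R : Type*} [CommRing R]

/-- the polynomial with given coefficient vector -/
noncomputable def vpoly {c : ℕ} (v : Fin (c + 1) → R) : R[X] := ∑ i, C (v i) * X ^ (i : ℕ)

theorem vpoly_natDegree_le {c : ℕ} (v : Fin (c + 1) → R) : (vpoly v).natDegree ≤ c := by
  apply Polynomial.natDegree_sum_le_of_forall_le
  intro i _
  refine (Polynomial.natDegree_C_mul_X_pow_le _ _).trans ?_
  omega

theorem vpoly_coeff {c : ℕ} (v : Fin (c + 1) → R) (i : Fin (c + 1)) :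
    (vpoly v).coeff i = v i := by
  rw [vpoly, Polynomial.finsetSum_coeff, Finset.sum_eq_single i]
  · simp
  · intro j _ hj
    rw [Polynomial.coeff_C_mul_X_pow, if_neg]
    intro h
    exact hj (Fin.ext h.symm)
  · intro h; exact absurd (Finset.mem_univ i) h

theorem vpoly_ne_zero {c : ℕ} {v : Fin (c + 1) → R} (hv : v ≠ 0) : vpoly v ≠ 0 := by
  intro h
  apply hv
  funext i
  rw [← vpoly_coeff v i, h, Polynomial.coeff_zero]
  rfl

theorem TM_mulVec (n c : ℕ) (s : R) (v : Fin (c + 1) → R) (a : Fin (c + 1)) :
    (TM n c s).mulVec v a = (vpoly v * qq s ^ n).coeff (n + a) := by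
  rw [Matrix.mulVec, dotProduct, vpoly, Finset.sum_mul, Polynomial.finsetSum_coeff]
  apply Finset.sum_congr rfl
  intro i _
  rw [TM, Matrix.of_apply, mul_assoc, Polynomial.coeff_C_mul, mul_comm]

/-- a polynomial whose middle coefficients vanish splits in a low and a high part -/
theorem split_of_coeff_zero {n c : ℕ} (hn : 1 ≤ n) {P : R[X]} (hP : P.natDegree ≤ 2 * n + c)
    (h : ∀ a : Fin (c + 1), P.coeff (n + a) = 0) :
    ∃ A B : R[X], A.natDegree < n ∧ B.natDegree < n ∧ P = B + X ^ (n + c + 1) * A := by
  refine ⟨∑ i ∈ Finset.range n, C (P.coeff (n + c + 1 + i)) * X ^ i,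
    ∑ i ∈ Finset.range n, C (P.coeff i) * X ^ i, ?_, ?_, ?_⟩
  · refine lt_of_le_of_lt (Polynomial.natDegree_sum_le_of_forall_le (n := n - 1) _ _ ?_) (by omega)
    intro i hi
    refine (Polynomial.natDegree_C_mul_X_pow_le _ _).trans ?_
    have := Finset.mem_range.mp hi
    omega
  · refine lt_of_le_of_lt (Polynomial.natDegree_sum_le_of_forall_le (n := n - 1) _ _ ?_) (by omega)
    intro i hi
    refine (Polynomial.natDegree_C_mul_X_pow_le _ _).trans ?_
    have := Finset.mem_range.mp hi
    omega
  · have hsum : ∀ (g : ℕ → R) (j : ℕ), (∑ i ∈ Finset.range n, C (g i) * X ^ i : R[X]).coeff j =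
        if j < n then g j else 0 := by
      intro g j
      rw [Polynomial.finsetSum_coeff]
      by_cases hj : j < n
      · rw [if_pos hj, Finset.sum_eq_single j]
        · simp
        · intro i _ hij
          rw [Polynomial.coeff_C_mul_X_pow, if_neg (fun h => hij h.symm)]
        · intro hjn; exact absurd (Finset.mem_range.mpr hj) hjn
      · rw [if_neg hj]
        apply Finset.sum_eq_zero
        intro i hi
        have := Finset.mem_range.mp hi
        rw [Polynomial.coeff_C_mul_X_pow, if_neg (by omega)]
    ext j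
    rw [Polynomial.coeff_add, hsum, Polynomial.coeff_X_pow_mul', hsum]
    by_cases h1 : j < n
    · rw [if_pos h1, if_neg (by omega), add_zero]
    · rw [if_neg h1, zero_add]
      by_cases h2 : n + c + 1 ≤ j
      · rw [if_pos h2]
        by_cases h3 : j - (n + c + 1) < n
        · rw [if_pos h3]
          congr 1; omega
        · rw [if_neg h3]
          exact Polynomial.coeff_eq_zero_of_natDegree_lt (by omega)
      · rw [if_neg h2]
        have := h ⟨j - n, by omega⟩
        rwa [show n + (j - n) = j by omega] at this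

theorem vpoly_mul_natDegree_le {n c : ℕ} (s : R) (v : Fin (c + 1) → R) :
    (vpoly v * qq s ^ n).natDegree ≤ 2 * n + c := by
  refine Polynomial.natDegree_mul_le.trans ?_
  have h1 := vpoly_natDegree_le v
  have h2 : (qq s ^ n).natDegree ≤ n * 2 :=
    (Polynomial.natDegree_pow_le).trans (Nat.mul_le_mul_left n (qq_natDegree_le s))
  omega

end vec

section dual

variable {F : Type*} [Field F] {E : Type*} [CommRing E] [Algebra F E]

/-- evaluation at `s + e` -/
noncomputable def evd (s : F) (e : E) : F[X] →+* E :=
  (Polynomial.aeval (R := F) (algebraMap F E s + e)).toRingHom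

theorem evd_apply (s : F) (e : E) (he : e ^ 2 = 0) (D : F[X]) :
    evd s e D = algebraMap F E (D.eval s) + algebraMap F E (D.derivative.eval s) * e := by
  have h := Polynomial.aeval_add_of_sq_eq_zero (R := F) (S := E) D (algebraMap F E s) e he
  show Polynomial.aeval (algebraMap F E s + e) D = _
  rw [h, Polynomial.aeval_algebraMap_apply, Polynomial.aeval_algebraMap_apply]
  simp [Polynomial.aeval_def]

theorem qq_dual_pow (s : F) (e : E) (he : e ^ 2 = 0) (m : ℕ) :
    qq (algebraMap F E s + e) ^ (m + 1) =
      (qq s ^ (m + 1)).map (algebraMap F E) +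
      C e * (C ((m : F) + 1) * X * qq s ^ m).map (algebraMap F E) := by
  have h1 : qq (algebraMap F E s + e) = (qq s).map (algebraMap F E) + C e * X := by
    rw [qq_map]
    unfold qq
    rw [map_add]
    ring
  have h2 : (C e * X : E[X]) ^ 2 = 0 := by
    rw [mul_pow, ← C_pow, he, C_0, zero_mul]
  have h3 := Polynomial.eval_add_of_sq_eq_zero (X ^ (m + 1) : E[X][X])
    ((qq s).map (algebraMap F E)) (C e * X) h2
  simp only [Polynomial.eval_pow, Polynomial.eval_X, Polynomial.derivative_X_pow,
    Polynomial.eval_mul, Polynomial.eval_C, Nat.add_sub_cancel] at h3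
  rw [h1, h3, Polynomial.map_pow, Polynomial.map_mul, Polynomial.map_mul, Polynomial.map_pow,
    Polynomial.map_C, Polynomial.map_X]
  have : C ((algebraMap F E) ((m : F) + 1)) = (((m + 1 : ℕ) : E[X])) := by
    rw [map_add, map_natCast, map_one, map_add, map_natCast, map_one]
    push_cast
    rfl
  rw [this]
  ring

theorem dual_mul_eq_zero (e : E)
    (hsep : ∀ a b : F, algebraMap F E a + algebraMap F E b * e = 0 → a = 0 ∧ b = 0)
    {P0 P1 : F[X]} {j : ℕ}
    (h : (P0.map (algebraMap F E) + C e * P1.map (algebraMap F E)).coeff j = 0) :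
    P0.coeff j = 0 ∧ P1.coeff j = 0 := by
  rw [Polynomial.coeff_add, Polynomial.coeff_C_mul, Polynomial.coeff_map,
    Polynomial.coeff_map, mul_comm] at h
  exact hsep _ _ h

end dual

section roots

universe u

variable {F : Type u} [Field F]

/-- there is an element `e` of square zero in a suitable algebra -/
theorem exists_dual (F : Type u) [Field F] : ∃ (E : Type u) (_ : CommRing E) (_ : Algebra F E)
    (e : E), e ^ 2 = 0 ∧
      ∀ a b : F, algebraMap F E a + algebraMap F E b * e = 0 → a = 0 ∧ b = 0 := by
  refine ⟨AdjoinRoot (X ^ 2 : F[X]), inferInstance, inferInstance, AdjoinRoot.root _, ?_, ?_⟩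
  · have := AdjoinRoot.eval₂_root (X ^ 2 : F[X])
    simpa using this
  · intro a b h
    have h1 : AdjoinRoot.mk (X ^ 2 : F[X]) (C a + C b * X) = 0 := by
      rw [map_add, map_mul, AdjoinRoot.mk_X, AdjoinRoot.mk_C, AdjoinRoot.mk_C]
      exact h
    rw [AdjoinRoot.mk_eq_zero] at h1
    have h2 : C a + C b * X = 0 := by
      by_contra hne
      have h3 := Polynomial.natDegree_le_of_dvd h1 hne
      rw [natDegree_X_pow] at h3
      have h4 : (C a + C b * X).natDegree ≤ 1 := by compute_degree
      omega
    constructor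
    · have := congrArg (fun q => q.coeff 0) h2
      simpa using this
    · have := congrArg (fun q => q.coeff 1) h2
      simpa [Polynomial.coeff_C] using this

/-- all roots of the determinant are simple -/
theorem det_TM_simple_roots {p : ℕ} [CharP F p] (h2 : (2 : F) ≠ 0) {m c : ℕ}
    (hp : 2 * (m + 1) + c < p) (s : F) (hs : (TM (m + 1) c (X : F[X])).det.eval s = 0) :
    (TM (m + 1) c (X : F[X])).det.derivative.eval s ≠ 0 := by
  intro hs'
  set n := m + 1 with hn
  -- a singular matrix at `s`
  have hdet0 : (TM n c s).det = 0 := by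
    have h1 : (TM n c s) = (TM n c (X : F[X])).map (Polynomial.evalRingHom s) := by
      rw [TM_map]; simp
    rw [h1]
    have := (RingHom.map_det (Polynomial.evalRingHom s) (TM n c (X : F[X]))).symm
    rw [RingHom.mapMatrix_apply] at this
    rw [this]
    exact hs
  -- kernel vectors have nonzero first entry
  have hker : ∀ v : Fin (c + 1) → F, v ≠ 0 → (TM n c s).mulVec v = 0 → v 0 ≠ 0 := by
    intro v hv hMv
    obtain ⟨A, B, hA, hB, hAB⟩ := split_of_coeff_zero (n := n) (c := c) (by omega)
      (vpoly_mul_natDegree_le s v) (fun a => by rw [← TM_mulVec, hMv]; rfl)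
    have := coeff_zero_ne_zero (p := p) (vpoly_ne_zero hv) (vpoly_natDegree_le v) hB hA hAB
      (by omega)
    have h3 := vpoly_coeff v 0
    rw [Fin.val_zero] at h3
    rwa [h3] at this
  -- the adjugate has a nonzero entry in row `0`
  obtain ⟨j, hj⟩ : ∃ j, (TM n c s).adjugate 0 j ≠ 0 := by
    by_contra hcon
    push Not at hcon
    have hw : ∀ j, ∃ w : Fin (c + 1) → F, ∃ μ : F, μ ≠ 0 ∧
        (TM n c s).mulVec w = Pi.single j μ := by
      intro j
      have h1 := hcon j
      rw [Matrix.adjugate_apply] at h1
      obtain ⟨w, hw0, hw⟩ := Matrix.exists_mulVec_eq_zero_iff.mpr h1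
      have hrow : ∀ a, a ≠ j → (TM n c s).mulVec w a = 0 := by
        intro a ha
        have := congrFun hw a
        rw [Matrix.mulVec, Matrix.updateRow_ne ha] at this
        exact this
      have hw00 : w 0 = 0 := by
        have := congrFun hw j
        rw [Matrix.mulVec, Matrix.updateRow_self, single_dotProduct, one_mul] at this
        exact this
      refine ⟨w, (TM n c s).mulVec w j, ?_, ?_⟩
      · intro h0
        apply hker w hw0 _ hw00
        funext a
        by_cases ha : a = j
        · rw [ha, h0]; rfl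
        · exact hrow a ha
      · funext a
        by_cases ha : a = j
        · rw [ha, Pi.single_eq_same]
        · rw [Pi.single_eq_of_ne ha, hrow a ha]
    choose w μ hμ hwμ using hw
    -- then the matrix is surjective, hence invertible
    have hsurj : Function.Surjective (TM n c s).mulVec := by
      intro z
      refine ⟨∑ j, (z j / μ j) • w j, ?_⟩
      rw [Matrix.mulVec_sum]
      funext a
      rw [Finset.sum_apply, Finset.sum_eq_single a]
      · rw [Matrix.mulVec_smul, hwμ, Pi.smul_apply, Pi.single_eq_same, smul_eq_mul,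
          div_mul_cancel₀ _ (hμ a)]
      · intro b _ hb
        rw [Matrix.mulVec_smul, hwμ, Pi.smul_apply, Pi.single_eq_of_ne (Ne.symm hb), smul_zero]
      · intro h; exact absurd (Finset.mem_univ a) h
    have hunit := Matrix.mulVec_surjective_iff_isUnit.mp hsurj
    rw [Matrix.isUnit_iff_isUnit_det, hdet0] at hunit
    exact not_isUnit_zero hunit
  -- move to dual numbers
  obtain ⟨E, hE1, hE2, e, he, hsep⟩ := exists_dual F
  set σ : E := algebraMap F E s + e with hσ
  have hevX : evd s e (X : F[X]) = σ := by
    show Polynomial.aeval (algebraMap F E s + e) X = _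
    rw [Polynomial.aeval_X]
  have hMσ : (TM n c (X : F[X])).map (evd s e) = TM n c σ := by
    rw [TM_map, hevX]
  -- the column of the adjugate
  set N := (TM n c (X : F[X])).adjugate with hN
  set v0 : Fin (c + 1) → F := fun i => (N i j).eval s with hv0
  set v1 : Fin (c + 1) → F := fun i => (N i j).derivative.eval s with hv1
  have hv0ne : v0 ≠ 0 := by
    intro h0
    apply hj
    have h3 : (TM n c s).adjugate = N.map (Polynomial.evalRingHom s) := by
      have h4 : (TM n c s) = (TM n c (X : F[X])).map (Polynomial.evalRingHom s) := by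
        rw [TM_map]; simp
      rw [h4, hN]
      have := RingHom.map_adjugate (Polynomial.evalRingHom s) (TM n c (X : F[X]))
      rw [RingHom.mapMatrix_apply, RingHom.mapMatrix_apply] at this
      exact this.symm
    rw [h3, Matrix.map_apply]
    exact congrFun h0 0
  have hcol : ∀ a, ((TM n c σ).mulVec fun i => evd s e (N i j)) a = 0 := by
    intro a
    have h3 := congrFun (congrFun (Matrix.mul_adjugate (TM n c (X : F[X]))) a) j
    have h4 := congrArg (evd s e) h3
    rw [Matrix.mul_apply, map_sum] at h4
    rw [Matrix.mulVec, dotProduct]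
    have h5 : evd s e (((TM n c (X : F[X])).det •
        (1 : Matrix (Fin (c + 1)) (Fin (c + 1)) F[X])) a j) = 0 := by
      rw [Matrix.smul_apply, smul_eq_mul, map_mul, evd_apply s e he, hs, hs', map_zero, zero_mul,
        add_zero, zero_mul]
    rw [h5] at h4
    rw [← h4]
    apply Finset.sum_congr rfl
    intro i _
    rw [map_mul, ← hMσ, Matrix.map_apply]
  have hvp : vpoly (fun i => evd s e (N i j)) =
      (vpoly v0).map (algebraMap F E) + C e * (vpoly v1).map (algebraMap F E) := by
    rw [vpoly, vpoly, vpoly, Polynomial.map_sum, Polynomial.map_sum, Finset.mul_sum,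
      ← Finset.sum_add_distrib]
    apply Finset.sum_congr rfl
    intro i _
    rw [evd_apply s e he]
    rw [Polynomial.map_mul, Polynomial.map_mul, Polynomial.map_C, Polynomial.map_C,
      Polynomial.map_pow, Polynomial.map_X, map_add, map_mul]
    ring
  have hprod : vpoly (fun i => evd s e (N i j)) * qq σ ^ n =
      (vpoly v0 * qq s ^ n).map (algebraMap F E) + C e *
        (vpoly v1 * qq s ^ n + C ((m : F) + 1) * X * vpoly v0 * qq s ^ m).map
          (algebraMap F E) := by
    rw [hvp, hσ, hn, qq_dual_pow s e he]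
    have hee : C e * C e = 0 := by rw [← C_mul, ← pow_two, he, C_0]
    simp only [Polynomial.map_mul, Polynomial.map_add]
    linear_combination
      (map (algebraMap F E) (vpoly v1)) * (map (algebraMap F E) (C ((m : F) + 1))) *
        (map (algebraMap F E) X) * (map (algebraMap F E) (qq s ^ m)) * hee
  have hco : ∀ a : Fin (c + 1), (vpoly v0 * qq s ^ n).coeff (n + a) = 0 ∧
      (vpoly v1 * qq s ^ n + C ((m : F) + 1) * X * vpoly v0 * qq s ^ m).coeff (n + a) = 0 := by
    intro a
    apply dual_mul_eq_zero e hsep
    rw [← hprod, ← TM_mulVec]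
    exact hcol a
  obtain ⟨A0, B0, hA0, hB0, hAB0⟩ := split_of_coeff_zero (n := n) (c := c) (by omega)
      (vpoly_mul_natDegree_le s v0) (fun a => (hco a).1)
  have hdeg1 : (vpoly v1 * qq s ^ n + C ((m : F) + 1) * X * vpoly v0 * qq s ^ m).natDegree ≤
      2 * n + c := by
    refine (natDegree_add_le _ _).trans (max_le (vpoly_mul_natDegree_le s v1) ?_)
    refine natDegree_mul_le.trans ?_
    have h5 : (C ((m : F) + 1) * X * vpoly v0).natDegree ≤ 1 + c := by
      refine natDegree_mul_le.trans ?_
      have := vpoly_natDegree_le v0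
      have h7 := (natDegree_C_mul_le ((m : F) + 1) X).trans natDegree_X_le
      omega
    have h6 : (qq s ^ m).natDegree ≤ m * 2 :=
      (Polynomial.natDegree_pow_le).trans (Nat.mul_le_mul_left m (qq_natDegree_le s))
    omega
  obtain ⟨A1, B1, hA1, hB1, hAB1⟩ := split_of_coeff_zero (n := n) (c := c) (by omega)
      hdeg1 (fun a => (hco a).2)
  exact rigid (p := p) h2 (vpoly_ne_zero hv0ne) (vpoly_natDegree_le v0) hB0 hA0 hB1 hA1 hAB0 hAB1
    (by omega)

end roots

end Pool.Agent.Lib_helper40
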