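import Pool.Agent.Lib_helper40.Special2

namespace Pool.Agent.Lib_helper40

open Polynomial

universe u

variable {F : Type u} [Field F]

theorem det_TM_eval (n c : ℕ) (s : F) :
    (TM n c (X : F[X])).det.eval s = (TM n c s).det := by
  have h1 : (TM n c s) = (TM n c (X : F[X])).map (Polynomial.evalRingHom s) := by
    rw [TM_map]; simp
  rw [h1]
  have := (RingHom.map_det (Polynomial.evalRingHom s) (TM n c (X : F[X])))
  rw [RingHom.mapMatrix_apply] at this
  exact this

theorem adj_TM_eval (n c : ℕ) (s : F) (i j : Fin (c + 1)) :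
    ((TM n c (X : F[X])).adjugate i j).eval s = (TM n c s).adjugate i j := by
  have h1 : (TM n c s) = (TM n c (X : F[X])).map (Polynomial.evalRingHom s) := by
    rw [TM_map]; simp
  rw [h1]
  have := RingHom.map_adjugate (Polynomial.evalRingHom s) (TM n c (X : F[X]))
  rw [RingHom.mapMatrix_apply, RingHom.mapMatrix_apply] at this
  rw [← this]
  rfl

theorem card_roots_det_TM [IsAlgClosed F] [DecidableEq F] {p : ℕ} [CharP F p] (h2 : (2 : F) ≠ 0)
    {n c : ℕ} (hn : 1 ≤ n) (hp : 2 * n + c < p) :
    (TM n c (X : F[X])).det.roots.toFinset.card = n * (c + 1) := by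
  obtain ⟨m, rfl⟩ : ∃ m, n = m + 1 := ⟨n - 1, by omega⟩
  have hne : (TM (m + 1) c (X : F[X])).det ≠ 0 := (det_TM_degree F (m + 1) c).2.ne_zero
  have hnd : (TM (m + 1) c (X : F[X])).det.roots.Nodup := by
    rw [Multiset.nodup_iff_count_le_one]
    intro a
    rw [Polynomial.count_roots]
    by_contra hcon
    push Not at hcon
    rw [Polynomial.one_lt_rootMultiplicity_iff_isRoot hne] at hcon
    exact det_TM_simple_roots (p := p) h2 hp a hcon.1 hcon.2
  rw [Multiset.toFinset_card_of_nodup hnd, IsAlgClosed.card_roots_eq_natDegree,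
    (det_TM_degree F (m + 1) c).1]

/-- the special parameters -/
theorem special_params [IsAlgClosed F] {p : ℕ} [CharP F p] (h2 : (2 : F) ≠ 0)
    {n c k : ℕ} (hn : 1 ≤ n) (hk : k ≤ c) (hp : 2 * n + c < p) :
    ∃ Λ : Finset F, n ≤ Λ.card ∧ ∀ s ∈ Λ, ∃ C0 A B : F[X], C0.natDegree ≤ c ∧
      C0.coeff k ≠ 0 ∧ A.natDegree < n ∧ B.natDegree < n ∧
      C0 * qq s ^ n = B + X ^ (n + c + 1) * A := by
  classical
  set kk : Fin (c + 1) := ⟨k, by omega⟩ with hkk
  set D := (TM n c (X : F[X])).det with hD
  set a := (TM n c (X : F[X])).adjugate kk kk with ha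
  have hcard := card_roots_det_TM (p := p) h2 hn hp
  rw [← hD] at hcard
  have hacard : a.roots.toFinset.card ≤ n * c :=
    (Multiset.toFinset_card_le _).trans ((Polynomial.card_roots' a).trans
      (adj_TM_degree F n c kk).1)
  refine ⟨D.roots.toFinset \ a.roots.toFinset, ?_, ?_⟩
  · have := Finset.le_card_sdiff a.roots.toFinset D.roots.toFinset
    rw [hcard] at this
    have h3 : n * (c + 1) = n * c + n := by ring
    omega
  · intro s hs
    rw [Finset.mem_sdiff, Multiset.mem_toFinset, Multiset.mem_toFinset] at hs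
    have hDs : (TM n c s).det = 0 := by
      have := Polynomial.isRoot_of_mem_roots hs.1
      rw [← det_TM_eval]
      exact this
    have has : (TM n c s).adjugate kk kk ≠ 0 := by
      intro h0
      apply hs.2
      rw [Polynomial.mem_roots (adj_TM_degree F n c kk).2]
      show a.eval s = 0
      rw [ha, adj_TM_eval]
      exact h0
    set v : Fin (c + 1) → F := fun i => (TM n c s).adjugate i kk with hv
    have hMv : (TM n c s).mulVec v = 0 := by
      funext b
      have h3 := congrFun (congrFun (Matrix.mul_adjugate (TM n c s)) b) kk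
      rw [hDs, zero_smul] at h3
      rw [Matrix.mul_apply] at h3
      exact h3
    obtain ⟨A, B, hA, hB, hAB⟩ := split_of_coeff_zero (n := n) (c := c) hn
      (vpoly_mul_natDegree_le s v) (fun b => by rw [← TM_mulVec, hMv]; rfl)
    refine ⟨vpoly v, A, B, vpoly_natDegree_le v, ?_, hA, hB, hAB⟩
    have := vpoly_coeff v kk
    rw [show ((kk : Fin (c + 1)) : ℕ) = k from rfl] at this
    rw [this]
    exact has

/-- the generic parameters -/
theorem generic_params {n c j : ℕ} (hn : 1 ≤ n) (hj : j ≤ c) {s : F}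
    (hs : (TM n c s).det ≠ 0) :
    ∃ C0 A B : F[X], C0.natDegree ≤ c ∧ A.natDegree < n ∧ B.natDegree < n ∧
      C0 * qq s ^ n = X ^ (n + j) + B + X ^ (n + c + 1) * A := by
  classical
  set jj : Fin (c + 1) := ⟨j, by omega⟩ with hjj
  have hunit : IsUnit (TM n c s) := by
    rw [Matrix.isUnit_iff_isUnit_det]; exact isUnit_iff_ne_zero.mpr hs
  obtain ⟨v, hv⟩ := Matrix.mulVec_surjective_iff_isUnit.mpr hunit (Pi.single jj 1)
  have h1 : ∀ b : Fin (c + 1), (vpoly v * qq s ^ n - X ^ (n + j)).coeff (n + b) = 0 := by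
    intro b
    rw [Polynomial.coeff_sub, ← TM_mulVec, hv, Polynomial.coeff_X_pow]
    by_cases hb : b = jj
    · rw [hb, Pi.single_eq_same, if_pos rfl, sub_self]
    · rw [Pi.single_eq_of_ne hb, if_neg, sub_zero]
      intro h2
      apply hb
      apply Fin.ext
      show (b : ℕ) = j
      omega
  have hdeg : (vpoly v * qq s ^ n - X ^ (n + j)).natDegree ≤ 2 * n + c := by
    refine (natDegree_sub_le _ _).trans (max_le (vpoly_mul_natDegree_le s v) ?_)
    refine (natDegree_X_pow_le _).trans ?_
    omega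
  obtain ⟨A, B, hA, hB, hAB⟩ := split_of_coeff_zero (n := n) (c := c) hn hdeg h1
  refine ⟨vpoly v, A, B, vpoly_natDegree_le v, hA, hB, ?_⟩
  rw [add_assoc, ← hAB]
  ring

end Pool.Agent.Lib_helper40
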