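import Pool.Agent.Lib_helper76.Steiner2

/-!
Steiner polynomials of Minkowski sums of arbitrarily many triangles, resp. hexagons.
-/

open MeasureTheory Set Metric Polynomial
open scoped Pointwise

set_option linter.unusedSectionVars false

namespace Pool.Agent.Lib_helper40.SteinerFam

open Pool.Agent.Lib_helper76.Steiner

variable {E : Type*} [NormedAddCommGroup E] [NormedSpace ℝ E] [MeasurableSpace E] [BorelSpace E]
  [FiniteDimensional ℝ E]

/-- first difference of a functional -/
noncomputable def D1 (φ : Set E → ℝ) (v : E) (L : Set E) : ℝ := φ (sg v 1 + L) - φ L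

/-- second difference of a functional -/
noncomputable def D2 (φ : Set E → ℝ) (v w : E) (L : Set E) : ℝ :=
  φ (sg v 1 + (sg w 1 + L)) - φ (sg v 1 + L) - φ (sg w 1 + L) + φ L

/-- half the sum of the first differences for the three edges -/
noncomputable def DS (φ : Set E → ℝ) (a b : E) (L : Set E) : ℝ :=
  (D1 φ a L + D1 φ b L + D1 φ (b - a) L) / 2

/-- the linear part for triangles -/
noncomputable def DT (φ : Set E → ℝ) (a b : E) (L : Set E) : ℝ :=
  φ (tri a b 1 + L) - φ L - D2 φ a b L / 2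

/-- functionals for which sums with triangles and hexagons are polynomial -/
structure Good (φ : Set E → ℝ) : Prop where
  tri : ∀ (a b : E) {L : Set E}, CC L → ∀ s : ℝ, 0 ≤ s →
    φ (tri a b s + L) = φ L + s * DT φ a b L + s ^ 2 * (D2 φ a b L / 2)
  hex : ∀ (a b : E) {L : Set E}, CC L → ∀ s : ℝ, 0 ≤ s →
    φ (hex a b s + L) = φ L + s * (2 * DS φ a b L) + s ^ 2 * (3 * D2 φ a b L)

/-- the additional property for centrally symmetric sets -/
def SGood (φ : Set E → ℝ) : Prop :=
  ∀ (a b : E) {L : Set E}, CC L → Sym L → DT φ a b L = DS φ a b L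

lemma D2_shift (φ : Set E → ℝ) (K : Set E) (v w : E) (L : Set E) :
    D2 (fun L => φ (K + L)) v w L = D2 φ v w (K + L) := by
  unfold D2
  beta_reduce
  rw [add_swap K (sg v 1) (sg w 1 + L), add_swap K (sg w 1) L, add_swap K (sg v 1) L]

lemma D1_shift (φ : Set E → ℝ) (K : Set E) (v : E) (L : Set E) :
    D1 (fun L => φ (K + L)) v L = D1 φ v (K + L) := by
  unfold D1
  beta_reduce
  rw [add_swap K (sg v 1) L]

lemma DS_shift (φ : Set E → ℝ) (K : Set E) (a b : E) (L : Set E) :
    DS (fun L => φ (K + L)) a b L = DS φ a b (K + L) := by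
  unfold DS
  rw [D1_shift, D1_shift, D1_shift]

lemma DT_shift (φ : Set E → ℝ) (K : Set E) (a b : E) (L : Set E) :
    DT (fun L => φ (K + L)) a b L = DT φ a b (K + L) := by
  unfold DT
  rw [D2_shift]
  beta_reduce
  rw [add_swap K (Lib_helper76.Steiner.tri a b 1) L]

lemma Good.shift {φ : Set E → ℝ} (h : Good φ) {K : Set E} (hK : CC K) :
    Good fun L => φ (K + L) := by
  constructor
  · intro a b L hL s hs
    rw [D2_shift, DT_shift]
    show φ (K + (Lib_helper76.Steiner.tri a b s + L)) = _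
    rw [add_swap, h.tri a b (hK.add hL) s hs]
  · intro a b L hL s hs
    rw [D2_shift, DS_shift]
    show φ (K + (Lib_helper76.Steiner.hex a b s + L)) = _
    rw [add_swap, h.hex a b (hK.add hL) s hs]

lemma Good.comb {φ ψ : Set E → ℝ} (h : Good φ) (h' : Good ψ) (α β : ℝ) :
    Good fun L => α * φ L + β * ψ L := by
  constructor
  · intro a b L hL s hs
    show α * φ (Lib_helper76.Steiner.tri a b s + L) + β * ψ (Lib_helper76.Steiner.tri a b s + L) = _
    rw [h.tri a b hL s hs, h'.tri a b hL s hs]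
    unfold DT D2
    ring
  · intro a b L hL s hs
    show α * φ (Lib_helper76.Steiner.hex a b s + L) + β * ψ (Lib_helper76.Steiner.hex a b s + L) = _
    rw [h.hex a b hL s hs, h'.hex a b hL s hs]
    unfold DS D1 D2
    ring

lemma SGood.shift {φ : Set E → ℝ} (h : SGood φ) {K : Set E} (hK : CC K)
    (hs : ∀ {L : Set E}, Sym L → Sym (K + L)) : SGood fun L => φ (K + L) := by
  intro a b L hL hLs
  rw [DT_shift, DS_shift]
  exact h a b (hK.add hL) (hs hLs)

lemma SGood.comb {φ ψ : Set E → ℝ} (h : SGood φ) (h' : SGood ψ) (α β : ℝ) :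
    SGood fun L => α * φ L + β * ψ L := by
  intro a b L hL hLs
  have h1 := h a b hL hLs
  have h2 := h' a b hL hLs
  have e1 : DT (fun L => α * φ L + β * ψ L) a b L = α * DT φ a b L + β * DT ψ a b L := by
    unfold DT D2
    ring
  have e2 : DS (fun L => α * φ L + β * ψ L) a b L = α * DS φ a b L + β * DS ψ a b L := by
    unfold DS D1
    ring
  rw [e1, e2, h1, h2]

lemma Good.congr {φ ψ : Set E → ℝ} (h : Good φ) (e : ∀ L, φ L = ψ L) : Good ψ := by
  have : φ = ψ := funext e
  rwa [← this]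

lemma SGood.congr {φ ψ : Set E → ℝ} (h : SGood φ) (e : ∀ L, φ L = ψ L) : SGood ψ := by
  have : φ = ψ := funext e
  rwa [← this]

lemma Good.d1 {φ : Set E → ℝ} (h : Good φ) (v : E) : Good (D1 φ v) :=
  ((h.shift (cc_sg v 1)).comb h 1 (-1)).congr fun L => by
    unfold D1
    ring

lemma SGood.d1 {φ : Set E → ℝ} (h : SGood φ) (v : E) : SGood (D1 φ v) :=
  ((h.shift (cc_sg v 1) (fun hL => hL.sg_add v 1)).comb h 1 (-1)).congr fun L => by
    unfold D1
    ring

lemma D2_eq (φ : Set E → ℝ) (v w : E) (L : Set E) : D1 (D1 φ w) v L = D2 φ v w L := by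
  unfold D1 D2
  rw [add_swap (sg w 1) (sg v 1) L]
  ring

lemma Good.d2 {φ : Set E → ℝ} (h : Good φ) (v w : E) : Good (D2 φ v w) :=
  ((h.d1 w).d1 v).congr fun L => D2_eq φ v w L

lemma SGood.d2 {φ : Set E → ℝ} (h : SGood φ) (v w : E) : SGood (D2 φ v w) :=
  ((h.d1 w).d1 v).congr fun L => D2_eq φ v w L

lemma Good.ds {φ : Set E → ℝ} (h : Good φ) (a b : E) : Good (DS φ a b) :=
  ((((h.d1 a).comb (h.d1 b) 1 1)).comb (h.d1 (b - a)) (1 / 2) (1 / 2)).congr fun L => by
    unfold DS
    ring

lemma Good.dt {φ : Set E → ℝ} (h : Good φ) (a b : E) : Good (DT φ a b) :=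
  ((((h.shift (cc_tri a b 1)).comb h 1 (-1))).comb (h.d2 a b) 1 (-1 / 2)).congr fun L => by
    unfold DT
    ring

/-- Minkowski sum of triangles -/
noncomputable def TT : List (E × E) → ℝ → Set E
  | [], _ => {0}
  | p :: l, s => tri p.1 p.2 s + TT l s

/-- Minkowski sum of hexagons -/
noncomputable def HH : List (E × E) → ℝ → Set E
  | [], _ => {0}
  | p :: l, s => hex p.1 p.2 s + HH l s

/-- the polynomial for triangles -/
noncomputable def PT (B : Set E) : List (E × E) → (Set E → ℝ) → ℝ[X]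
  | [], φ => C (φ B)
  | p :: l, φ => PT B l φ + X * PT B l (DT φ p.1 p.2) + X ^ 2 * (C (1 / 2) * PT B l (D2 φ p.1 p.2))

/-- the polynomial for hexagons -/
noncomputable def PH (B : Set E) : List (E × E) → (Set E → ℝ) → ℝ[X]
  | [], φ => C (φ B)
  | p :: l, φ => PH B l φ + X * (C 2 * PH B l (DS φ p.1 p.2)) +
      X ^ 2 * (C 3 * PH B l (D2 φ p.1 p.2))

lemma cc_zero : CC ({0} : Set E) := ⟨isCompact_singleton, convex_singleton _⟩

lemma cc_TT (l : List (E × E)) (s : ℝ) : CC (TT l s) := by
  induction l with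
  | nil => exact cc_zero
  | cons p l ih => exact (cc_tri _ _ _).add ih

lemma cc_HH (l : List (E × E)) (s : ℝ) : CC (HH l s) := by
  induction l with
  | nil => exact cc_zero
  | cons p l ih => exact (cc_hex _ _ _).add ih

lemma PT_eval {B : Set E} (hB : CC B) (l : List (E × E)) : ∀ {φ : Set E → ℝ}, Good φ →
    ∀ s : ℝ, 0 ≤ s → φ (TT l s + B) = (PT B l φ).eval s := by
  induction l with
  | nil =>
    intro φ h s hs
    simp [TT, PT]
  | cons p l ih =>
    intro φ h s hs
    show φ (tri p.1 p.2 s + TT l s + B) = _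
    rw [add_assoc, h.tri p.1 p.2 ((cc_TT l s).add hB) s hs, ih h s hs,
      ih (h.dt p.1 p.2) s hs, ih (h.d2 p.1 p.2) s hs]
    simp only [PT, eval_add, eval_mul, eval_X, eval_pow, eval_C]
    ring

lemma PH_eval {B : Set E} (hB : CC B) (l : List (E × E)) : ∀ {φ : Set E → ℝ}, Good φ →
    ∀ s : ℝ, 0 ≤ s → φ (HH l s + B) = (PH B l φ).eval s := by
  induction l with
  | nil =>
    intro φ h s hs
    simp [HH, PH]
  | cons p l ih =>
    intro φ h s hs
    show φ (hex p.1 p.2 s + HH l s + B) = _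
    rw [add_assoc, h.hex p.1 p.2 ((cc_HH l s).add hB) s hs, ih h s hs,
      ih (h.ds p.1 p.2) s hs, ih (h.d2 p.1 p.2) s hs]
    simp only [PH, eval_add, eval_mul, eval_X, eval_pow, eval_C]

lemma PT_deg (B : Set E) (l : List (E × E)) : ∀ (φ : Set E → ℝ) (k : ℕ), 2 * l.length < k →
    (PT B l φ).coeff k = 0 := by
  induction l with
  | nil =>
    intro φ k hk
    simp only [PT, coeff_C]
    rw [if_neg]
    simp at hk
    omega
  | cons p l ih =>
    intro φ k hk
    simp only [List.length_cons] at hk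
    obtain ⟨j, rfl⟩ : ∃ j, k = j + 2 := ⟨k - 2, by omega⟩
    simp only [PT, coeff_add]
    rw [coeff_X_pow_mul, coeff_C_mul, show j + 2 = (j + 1) + 1 from rfl, coeff_X_mul,
      ih _ _ (by omega), ih _ _ (by omega), ih _ _ (by omega)]
    ring

lemma PH_deg (B : Set E) (l : List (E × E)) : ∀ (φ : Set E → ℝ) (k : ℕ), 2 * l.length < k →
    (PH B l φ).coeff k = 0 := by
  induction l with
  | nil =>
    intro φ k hk
    simp only [PH, coeff_C]
    rw [if_neg]
    simp at hk
    omega
  | cons p l ih =>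
    intro φ k hk
    simp only [List.length_cons] at hk
    obtain ⟨j, rfl⟩ : ∃ j, k = j + 2 := ⟨k - 2, by omega⟩
    simp only [PH, coeff_add]
    rw [coeff_X_pow_mul, coeff_C_mul, show j + 2 = (j + 1) + 1 from rfl, coeff_X_mul, coeff_C_mul,
      ih _ _ (by omega), ih _ _ (by omega), ih _ _ (by omega)]
    ring

/-- iterated second differences -/
noncomputable def QQ (B : Set E) : List (E × E) → (Set E → ℝ) → ℝ
  | [], φ => φ B
  | p :: l, φ => QQ B l (D2 φ p.1 p.2)

/-- the coefficient next to the top one -/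
noncomputable def RR (B : Set E) : List (E × E) → (Set E → ℝ) → ℝ
  | [], _ => 0
  | p :: l, φ => QQ B l (DS φ p.1 p.2) + RR B l (D2 φ p.1 p.2)

/-- the linear coefficient -/
noncomputable def SS (B : Set E) : List (E × E) → (Set E → ℝ) → ℝ
  | [], _ => 0
  | p :: l, φ => SS B l φ + DS φ p.1 p.2 B

lemma QQ_congr {B : Set E} (hB : CC B) (hs : Sym B) (l : List (E × E)) :
    ∀ {φ ψ : Set E → ℝ}, (∀ L, CC L → Sym L → φ L = ψ L) → QQ B l φ = QQ B l ψ := by
  induction l with
  | nil => intro φ ψ h; exact h B hB hs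
  | cons p l ih =>
    intro φ ψ h
    refine ih fun L hL hLs => ?_
    unfold D2
    rw [h _ ((cc_sg _ _).add ((cc_sg _ _).add hL)) ((hLs.sg_add _ _).sg_add _ _),
      h _ ((cc_sg _ _).add hL) (hLs.sg_add _ _), h _ ((cc_sg _ _).add hL) (hLs.sg_add _ _),
      h _ hL hLs]

lemma PT_zero (B : Set E) (l : List (E × E)) : ∀ (φ : Set E → ℝ), (PT B l φ).coeff 0 = φ B := by
  induction l with
  | nil => intro φ; simp [PT]
  | cons p l ih =>
    intro φ
    simp only [PT, coeff_add, mul_coeff_zero, coeff_X_zero, coeff_X_pow]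
    rw [ih]
    simp

lemma PH_zero (B : Set E) (l : List (E × E)) : ∀ (φ : Set E → ℝ), (PH B l φ).coeff 0 = φ B := by
  induction l with
  | nil => intro φ; simp [PH]
  | cons p l ih =>
    intro φ
    simp only [PH, coeff_add, mul_coeff_zero, coeff_X_zero, coeff_X_pow]
    rw [ih]
    simp

lemma PT_one {B : Set E} (hB : CC B) (hs : Sym B) (l : List (E × E)) : ∀ {φ : Set E → ℝ},
    SGood φ → (PT B l φ).coeff 1 = SS B l φ := by
  induction l with
  | nil => intro φ _; simp [PT, SS]
  | cons p l ih =>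
    intro φ h
    simp only [PT, SS, coeff_add]
    have e1 : (X * PT B l (DT φ p.1 p.2)).coeff 1 = (PT B l (DT φ p.1 p.2)).coeff 0 :=
      coeff_X_mul _ 0
    rw [e1, PT_zero, coeff_X_pow_mul', ih h, if_neg (by norm_num), h p.1 p.2 hB hs]
    ring

lemma PH_one (B : Set E) (l : List (E × E)) : ∀ (φ : Set E → ℝ),
    (PH B l φ).coeff 1 = 2 * SS B l φ := by
  induction l with
  | nil => intro φ; simp [PH, SS]
  | cons p l ih =>
    intro φ
    simp only [PH, SS, coeff_add]
    have e1 : (X * (C 2 * PH B l (DS φ p.1 p.2))).coeff 1 =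
        (C 2 * PH B l (DS φ p.1 p.2)).coeff 0 := coeff_X_mul _ 0
    rw [e1, coeff_C_mul, PH_zero, coeff_X_pow_mul', ih, if_neg (by norm_num)]
    ring

lemma PT_top (B : Set E) (l : List (E × E)) : ∀ (φ : Set E → ℝ),
    (PT B l φ).coeff (2 * l.length) = (1 / 2) ^ l.length * QQ B l φ := by
  induction l with
  | nil => intro φ; simp [PT, QQ]
  | cons p l ih =>
    intro φ
    simp only [PT, QQ, coeff_add, List.length_cons]
    rw [show 2 * (l.length + 1) = 2 * l.length + 2 by ring, coeff_X_pow_mul, coeff_C_mul, ih,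
      show 2 * l.length + 2 = (2 * l.length + 1) + 1 from rfl, coeff_X_mul,
      PT_deg _ _ _ _ (by omega), PT_deg _ _ _ _ (by omega)]
    ring

lemma PH_top (B : Set E) (l : List (E × E)) : ∀ (φ : Set E → ℝ),
    (PH B l φ).coeff (2 * l.length) = 3 ^ l.length * QQ B l φ := by
  induction l with
  | nil => intro φ; simp [PH, QQ]
  | cons p l ih =>
    intro φ
    simp only [PH, QQ, coeff_add, List.length_cons]
    rw [show 2 * (l.length + 1) = 2 * l.length + 2 by ring, coeff_X_pow_mul, coeff_C_mul, ih,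
      show 2 * l.length + 2 = (2 * l.length + 1) + 1 from rfl, coeff_X_mul, coeff_C_mul,
      PH_deg _ _ _ _ (by omega), PH_deg _ _ _ _ (by omega)]
    ring

lemma PT_next {B : Set E} (hB : CC B) (hs : Sym B) (l : List (E × E)) : ∀ {φ : Set E → ℝ},
    SGood φ → ∀ k, k + 1 = 2 * l.length →
      (PT B l φ).coeff k = (1 / 2) ^ (l.length - 1) * RR B l φ := by
  induction l with
  | nil => intro φ _ k hk; simp at hk
  | cons p l ih =>
    intro φ h k hk
    simp only [List.length_cons] at hk
    obtain rfl : k = 2 * l.length + 1 := by omega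
    simp only [PT, RR, coeff_add, List.length_cons, Nat.add_sub_cancel]
    have h1 : QQ B l (DT φ p.1 p.2) = QQ B l (DS φ p.1 p.2) :=
      QQ_congr hB hs l fun L hL hLs => h p.1 p.2 hL hLs
    rw [coeff_X_mul, PT_top, h1, PT_deg _ _ _ _ (by omega), coeff_X_pow_mul']
    rcases Nat.eq_zero_or_pos l.length with h0 | h0
    · have hl : l = [] := List.length_eq_zero_iff.1 h0
      subst hl
      simp [RR]
    · rw [if_pos (by omega), coeff_C_mul, ih (h.d2 _ _) _ (by omega)]
      obtain ⟨j, hj⟩ : ∃ j, l.length = j + 1 := ⟨l.length - 1, by omega⟩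
      rw [hj, Nat.add_sub_cancel]
      ring

lemma PH_next (B : Set E) (l : List (E × E)) : ∀ (φ : Set E → ℝ) (k : ℕ),
    k + 1 = 2 * l.length →
      (PH B l φ).coeff k = 2 * 3 ^ (l.length - 1) * RR B l φ := by
  induction l with
  | nil => intro φ k hk; simp at hk
  | cons p l ih =>
    intro φ k hk
    simp only [List.length_cons] at hk
    obtain rfl : k = 2 * l.length + 1 := by omega
    simp only [PH, RR, coeff_add, List.length_cons, Nat.add_sub_cancel]
    rw [coeff_X_mul, coeff_C_mul, PH_top, PH_deg _ _ _ _ (by omega), coeff_X_pow_mul']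
    rcases Nat.eq_zero_or_pos l.length with h0 | h0
    · have hl : l = [] := List.length_eq_zero_iff.1 h0
      subst hl
      simp [RR]
    · rw [if_pos (by omega), coeff_C_mul, ih _ _ (by omega)]
      obtain ⟨j, hj⟩ : ∃ j, l.length = j + 1 := ⟨l.length - 1, by omega⟩
      rw [hj, Nat.add_sub_cancel]
      ring

section measure

variable (μ : Measure E) [μ.IsAddHaarMeasure]

lemma good_real : Good (μ.real : Set E → ℝ) := by
  constructor
  · intro a b L hL s hs
    obtain ⟨ψ, hψ⟩ := tri_formula μ a b hL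
    have e : DT μ.real a b L = ψ := by
      have h1 := hψ 1 zero_le_one
      have h2 : DT μ.real a b L = μ.real (tri a b 1 + L) - μ.real L - d2 μ a b L / 2 := rfl
      rw [h2, h1]
      ring
    rw [e, hψ s hs]
    rfl
  · intro a b L hL s hs
    rw [hex_formula μ a b hL hs]
    rfl

lemma sgood_real : SGood (μ.real : Set E → ℝ) := by
  intro a b L hL hLs
  have h1 := tri_formula_sym μ a b hL hLs zero_le_one
  have h2 : DT μ.real a b L = μ.real (tri a b 1 + L) - μ.real L - d2 μ a b L / 2 := rfl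
  have h3 : DS μ.real a b L = dS μ a b L := rfl
  rw [h2, h3, h1]
  ring

lemma smul_TT (l : List (E × E)) {t : ℝ} (ht : 0 < t) (s : ℝ) : t • TT l s = TT l (t * s) := by
  induction l with
  | nil => simp [TT]
  | cons p l ih =>
    show t • (tri p.1 p.2 s + TT l s) = tri p.1 p.2 (t * s) + TT l (t * s)
    rw [smul_add, smul_tri _ _ ht, ih]

lemma smul_HH (l : List (E × E)) {t : ℝ} (ht : 0 < t) (s : ℝ) : t • HH l s = HH l (t * s) := by
  induction l with
  | nil => simp [HH]
  | cons p l ih =>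
    show t • (hex p.1 p.2 s + HH l s) = hex p.1 p.2 (t * s) + HH l (t * s)
    rw [smul_add, smul_hex _ _ ht, ih]

/-- From the polynomial in `s` to the Steiner polynomial in `t`. -/
lemma steiner_gen {n : ℕ} (hE : Module.finrank ℝ E = n) (A : ℝ → Set E) (hA : CC (A 1))
    (hsm : ∀ t s, 0 < t → t • A s = A (t * s)) {P : ℝ[X]} (hdeg : ∀ k, n < k → P.coeff k = 0)
    (h : ∀ s, 0 ≤ s → μ.real (A s + closedBall 0 1) = P.eval s) :
    ∀ t : ℝ, 0 ≤ t → μ (A 1 + closedBall 0 t) =
      ENNReal.ofReal (∑ i ∈ Finset.range (n + 1), P.coeff i * t ^ (n - i)) := by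
  have hnd : P.natDegree < n + 1 :=
    Nat.lt_succ_of_le (natDegree_le_iff_coeff_eq_zero.2 hdeg)
  have hpos : ∀ t, 0 < t → μ.real (A 1 + closedBall 0 t) =
      ∑ i ∈ Finset.range (n + 1), P.coeff i * t ^ (n - i) := by
    intro t ht
    have e1 : A 1 + closedBall 0 t = t • (A t⁻¹ + closedBall 0 1) := by
      rw [smul_add, hsm t _ ht, Lib_helper76.Steiner.smul_ball ht, mul_inv_cancel₀ ht.ne']
    have e2 : μ.real (t • (A t⁻¹ + closedBall 0 1)) = t ^ n * μ.real (A t⁻¹ + closedBall 0 1) := by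
      rw [measureReal_def, Measure.addHaar_smul, hE, measureReal_def, ENNReal.toReal_mul,
        ENNReal.toReal_ofReal (abs_nonneg _), abs_of_pos (by positivity)]
    rw [e1, e2, h _ (inv_nonneg.2 ht.le), eval_eq_sum_range' hnd, Finset.mul_sum]
    refine Finset.sum_congr rfl fun i hi => ?_
    rw [Finset.mem_range] at hi
    have h3 : t ^ n = t ^ (n - i) * t ^ i := by rw [← pow_add]; congr 1; omega
    rw [h3, inv_pow]
    have h4 : t ^ i ≠ 0 := pow_ne_zero i ht.ne'
    calc t ^ (n - i) * t ^ i * (P.coeff i * (t ^ i)⁻¹) =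
        P.coeff i * t ^ (n - i) * (t ^ i * (t ^ i)⁻¹) := by ring
      _ = P.coeff i * t ^ (n - i) := by rw [mul_inv_cancel₀ h4, mul_one]
  have hall : ∀ t, 0 ≤ t → μ.real (A 1 + closedBall 0 t) =
      ∑ i ∈ Finset.range (n + 1), P.coeff i * t ^ (n - i) := by
    intro t ht
    rcases eq_or_lt_of_le ht with h1 | h1
    · rw [← h1]
      have ht1 : Filter.Tendsto (fun t => μ.real (cthickening t (A 1))) (nhds 0)
          (nhds (μ.real (A 1))) := by
        have := tendsto_measure_cthickening_of_isCompact (μ := μ) hA.comp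
        exact (ENNReal.tendsto_toReal hA.comp.measure_lt_top.ne).comp this
      have ht2 : Filter.Tendsto (fun t : ℝ => ∑ i ∈ Finset.range (n + 1), P.coeff i * t ^ (n - i))
          (nhdsWithin 0 (Ioi 0))
          (nhds (∑ i ∈ Finset.range (n + 1), P.coeff i * (0 : ℝ) ^ (n - i))) := by
        have hc : Continuous
            (fun t : ℝ => ∑ i ∈ Finset.range (n + 1), P.coeff i * t ^ (n - i)) := by
          fun_prop
        exact (hc.tendsto 0).mono_left (nhdsWithin_le_nhds (s := Ioi 0))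
      have ht3 : Filter.Tendsto (fun t : ℝ => ∑ i ∈ Finset.range (n + 1), P.coeff i * t ^ (n - i))
          (nhdsWithin 0 (Ioi 0)) (nhds (μ.real (A 1))) := by
        refine (ht1.mono_left (nhdsWithin_le_nhds (s := Ioi 0))).congr' ?_
        filter_upwards [self_mem_nhdsWithin] with t ht
        have ht' : 0 < t := ht
        rw [← hpos t ht', hA.comp.add_closedBall_zero ht'.le]
      have e := tendsto_nhds_unique ht3 ht2
      rw [← e, closedBall_zero, Set.add_singleton]
      simp
    · exact hpos t h1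
  intro t ht
  rw [← hall t ht]
  have hne : μ (A 1 + closedBall 0 t) ≠ ⊤ := ((hA.add (cc_ball t)).comp.measure_lt_top).ne
  rw [ofReal_measureReal hne]

/-- Steiner polynomials of sums of triangles and of the corresponding hexagons. -/
theorem steiner_fam {n : ℕ} (hE : Module.finrank ℝ E = n) (l : List (E × E)) (hl : 1 ≤ l.length)
    (hln : 2 * l.length ≤ n) : ∃ c₁ c₂ : ℕ → ℝ,
    (∀ t : ℝ, 0 ≤ t → μ (TT l 1 + closedBall 0 t) =
      ENNReal.ofReal (∑ i ∈ Finset.range (n + 1), c₁ i * t ^ (n - i))) ∧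
    (∀ t : ℝ, 0 ≤ t → μ (HH l 1 + closedBall 0 t) =
      ENNReal.ofReal (∑ i ∈ Finset.range (n + 1), c₂ i * t ^ (n - i))) ∧
    c₁ 1 = 1 / 2 * c₂ 1 ∧
    c₁ (2 * l.length - 1) = 1 / (2 * 6 ^ (l.length - 1)) * c₂ (2 * l.length - 1) := by
  have hB : CC (closedBall (0 : E) 1) := cc_ball 1
  have hs : Sym (closedBall (0 : E) 1) := sym_ball
  refine ⟨(PT (closedBall (0 : E) 1) l μ.real).coeff, (PH (closedBall (0 : E) 1) l μ.real).coeff,
    ?_, ?_, ?_, ?_⟩
  · exact steiner_gen μ hE (fun s => TT l s) (cc_TT l 1) (fun t s ht => smul_TT l ht s)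
      (fun k hk => PT_deg _ _ _ _ (by omega)) (PT_eval hB l (good_real μ))
  · exact steiner_gen μ hE (fun s => HH l s) (cc_HH l 1) (fun t s ht => smul_HH l ht s)
      (fun k hk => PH_deg _ _ _ _ (by omega)) (PH_eval hB l (good_real μ))
  · rw [PT_one hB hs l (sgood_real μ), PH_one]
    ring
  · rw [PT_next hB hs l (sgood_real μ) _ (by omega), PH_next _ _ _ _ (by omega)]
    have h6 : (6 : ℝ) ^ (l.length - 1) = 2 ^ (l.length - 1) * 3 ^ (l.length - 1) := by
      rw [← mul_pow]
      norm_num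
    rw [h6, one_div_pow]
    field_simp

lemma image_tri' (P : E →L[ℝ] E) (v w : E) (s : ℝ) : P '' tri v w s = tri (P v) (P w) s := by
  unfold tri
  rw [Set.image_image]
  simp

lemma image_sg' (P : E →L[ℝ] E) (v : E) (s : ℝ) : P '' sg v s = sg (P v) s := by
  unfold sg
  rw [Set.image_image]
  simp

lemma image_hex' (P : E →L[ℝ] E) (v w : E) (s : ℝ) : P '' hex v w s = hex (P v) (P w) s := by
  unfold hex
  rw [Set.image_add, Set.image_add, image_sg', image_sg', image_sg', map_sub]

lemma image_TT (P : E →L[ℝ] E) (l : List (E × E)) (s : ℝ) :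
    P '' TT l s = TT (l.map fun p => (P p.1, P p.2)) s := by
  induction l with
  | nil => simp [TT]
  | cons p l ih =>
    show P '' (tri p.1 p.2 s + TT l s) =
      tri (P p.1) (P p.2) s + TT (l.map fun p => (P p.1, P p.2)) s
    rw [Set.image_add, image_tri', ih]

lemma image_HH (P : E →L[ℝ] E) (l : List (E × E)) (s : ℝ) :
    P '' HH l s = HH (l.map fun p => (P p.1, P p.2)) s := by
  induction l with
  | nil => simp [HH]
  | cons p l ih =>
    show P '' (hex p.1 p.2 s + HH l s) =
      hex (P p.1) (P p.2) s + HH (l.map fun p => (P p.1, P p.2)) s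
    rw [Set.image_add, image_hex', ih]

end measure

end Pool.Agent.Lib_helper40.SteinerFam
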