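import Mathlib

/-!
# Special parameters of a Toeplitz determinant

For `q_s = x^2 + s x + 1` we study polynomials `C` of degree at most `c` such that the
coefficients of `C * q_s^n` at `x^n, ..., x^(n+c)` vanish.
-/

namespace Pool.Agent.Lib_helper40

open Polynomial

section defs

variable {R : Type*} [CommRing R]

/-- `q_s = x^2 + s x + 1` -/
noncomputable def qq (s : R) : R[X] := X ^ 2 + C s * X + 1

theorem qq_map {S : Type*} [CommRing S] (f : R →+* S) (s : R) : (qq s).map f = qq (f s) := by
  simp [qq]

theorem qq_monic [Nontrivial R] (s : R) : (qq s).Monic := by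
  unfold qq
  monicity!

theorem qq_natDegree [Nontrivial R] (s : R) : (qq s).natDegree = 2 := by
  unfold qq
  compute_degree!

theorem qq_natDegree_le (s : R) : (qq s).natDegree ≤ 2 := by
  unfold qq
  compute_degree

/-- the Toeplitz matrix -/
noncomputable def TM (n c : ℕ) (s : R) : Matrix (Fin (c + 1)) (Fin (c + 1)) R :=
  Matrix.of fun a i => (X ^ (i : ℕ) * (qq s) ^ n).coeff (n + a)

theorem TM_map {S : Type*} [CommRing S] (f : R →+* S) (n c : ℕ) (s : R) :
    (TM n c s).map f = TM n c (f s) := by
  ext a i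
  simp only [TM, Matrix.map_apply, Matrix.of_apply]
  rw [← Polynomial.coeff_map, Polynomial.map_mul, Polynomial.map_pow, Polynomial.map_pow,
    qq_map, Polynomial.map_X]

/-- the coefficients of `q_X^n`, as polynomials in the parameter -/
theorem qq_pow_coeff (F : Type*) [CommRing F] (n : ℕ) :
    ∀ j, (((qq (X : F[X])) ^ n).coeff j).natDegree ≤ n ∧
      (((qq (X : F[X])) ^ n).coeff j).coeff n = if j = n then 1 else 0 := by
  induction n with
  | zero =>
    intro j
    rw [pow_zero, Polynomial.coeff_one]
    by_cases h : j = 0 <;> simp [h]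
  | succ n ih =>
    intro j
    have hexp : (qq (X : F[X])) ^ (n + 1) = (qq (X : F[X])) ^ n * X ^ 2 +
        C (X : F[X]) * ((qq (X : F[X])) ^ n * X) + (qq (X : F[X])) ^ n := by
      rw [pow_succ]
      conv_lhs => rw [show qq (X : F[X]) = X ^ 2 + C (X : F[X]) * X + 1 from rfl]
      have : (X ^ 2 + C (X : F[X]) * X + 1) = qq (X : F[X]) := rfl
      rw [this]
      conv_lhs => rw [show (qq (X : F[X])) ^ n * qq (X : F[X]) =
        (qq (X : F[X])) ^ n * (X ^ 2 + C (X : F[X]) * X + 1) from rfl]
      ring
    rw [hexp, Polynomial.coeff_add, Polynomial.coeff_add, Polynomial.coeff_C_mul]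
    -- first summand
    have h1 : (((qq (X : F[X])) ^ n * X ^ 2).coeff j).natDegree ≤ n := by
      rw [Polynomial.coeff_mul_X_pow']
      split_ifs
      · exact (ih _).1
      · simp
    have h2 : (((qq (X : F[X])) ^ n * X).coeff j).natDegree ≤ n ∧
        (((qq (X : F[X])) ^ n * X).coeff j).coeff n = if j = n + 1 then 1 else 0 := by
      cases j with
      | zero => simp
      | succ j =>
        rw [Polynomial.coeff_mul_X]
        refine ⟨(ih j).1, ?_⟩
        rw [(ih j).2]
        simp
    refine ⟨?_, ?_⟩
    · refine (Polynomial.natDegree_add_le _ _).trans (max_le ?_ ((ih j).1.trans (by omega)))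
      refine (Polynomial.natDegree_add_le _ _).trans (max_le (h1.trans (by omega)) ?_)
      refine (Polynomial.natDegree_mul_le).trans ?_
      have := Polynomial.natDegree_X_le (R := F)
      omega
    · rw [Polynomial.coeff_add, Polynomial.coeff_add, Polynomial.coeff_X_mul, h2.2,
        Polynomial.coeff_eq_zero_of_natDegree_lt (lt_of_le_of_lt h1 (Nat.lt_succ_self n)),
        Polynomial.coeff_eq_zero_of_natDegree_lt (lt_of_le_of_lt (ih j).1 (Nat.lt_succ_self n))]
      simp

theorem TM_entry (F : Type*) [CommRing F] (n c : ℕ) (a i : Fin (c + 1)) :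
    (TM n c (X : F[X]) a i).natDegree ≤ n ∧
      (TM n c (X : F[X]) a i).coeff n = if a = i then 1 else 0 := by
  simp only [TM, Matrix.of_apply]
  rw [mul_comm, Polynomial.coeff_mul_X_pow']
  split_ifs with h1 h2 h2
  · refine ⟨(qq_pow_coeff F n _).1, ?_⟩
    rw [(qq_pow_coeff F n _).2, if_pos]
    rw [h2]; omega
  · refine ⟨(qq_pow_coeff F n _).1, ?_⟩
    rw [(qq_pow_coeff F n _).2, if_neg]
    intro h3
    apply h2
    apply Fin.ext
    omega
  · exfalso
    rw [h2] at h1
    omega
  · simp

end defs

section degrees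

/-- leading coefficient of a determinant of polynomials whose row degrees are bounded -/
theorem det_coeff_of_natDegree_le {R : Type*} [CommRing R] {m : ℕ}
    (M : Matrix (Fin m) (Fin m) R[X]) (d : Fin m → ℕ)
    (h : ∀ a i, (M a i).natDegree ≤ d a) :
    M.det.natDegree ≤ ∑ a, d a ∧
      M.det.coeff (∑ a, d a) = (Matrix.of fun a i => (M a i).coeff (d a)).det := by
  have hprod : ∀ σ : Equiv.Perm (Fin m), (∏ a, M a (σ a)).natDegree ≤ ∑ a, d a ∧
      (∏ a, M a (σ a)).coeff (∑ a, d a) = ∏ a, (M a (σ a)).coeff (d a) := by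
    intro σ
    have key : ∀ s : Finset (Fin m), (∏ a ∈ s, M a (σ a)).natDegree ≤ ∑ a ∈ s, d a ∧
        (∏ a ∈ s, M a (σ a)).coeff (∑ a ∈ s, d a) = ∏ a ∈ s, (M a (σ a)).coeff (d a) := by
      intro s
      induction s using Finset.induction_on with
      | empty => simp
      | insert a s ha ih =>
        rw [Finset.prod_insert ha, Finset.sum_insert ha, Finset.prod_insert ha]
        refine ⟨(Polynomial.natDegree_mul_le).trans (add_le_add (h _ _) ih.1), ?_⟩
        rw [Polynomial.coeff_mul_add_eq_of_natDegree_le (h _ _) ih.1, ih.2]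
    exact key Finset.univ
  have hdet : M.det = ∑ σ : Equiv.Perm (Fin m), Equiv.Perm.sign σ • ∏ a, M a (σ a) := by
    rw [← Matrix.det_transpose, Matrix.det_apply]
    rfl
  have hdet2 : (Matrix.of fun a i => (M a i).coeff (d a)).det =
      ∑ σ : Equiv.Perm (Fin m), Equiv.Perm.sign σ • ∏ a, (M a (σ a)).coeff (d a) := by
    rw [← Matrix.det_transpose, Matrix.det_apply]
    rfl
  refine ⟨?_, ?_⟩
  · rw [hdet]
    apply Polynomial.natDegree_sum_le_of_forall_le
    intro σ _
    rcases Int.units_eq_one_or (Equiv.Perm.sign σ) with hs | hs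
    · rw [hs, one_smul]; exact (hprod σ).1
    · rw [hs, Units.neg_smul, one_smul, Polynomial.natDegree_neg]; exact (hprod σ).1
  · rw [hdet, hdet2, Polynomial.finsetSum_coeff]
    apply Finset.sum_congr rfl
    intro σ _
    rcases Int.units_eq_one_or (Equiv.Perm.sign σ) with hs | hs
    · rw [hs, one_smul, one_smul]; exact (hprod σ).2
    · rw [hs, Units.neg_smul, Units.neg_smul, one_smul, one_smul, Polynomial.coeff_neg,
        (hprod σ).2]

theorem det_TM_degree (F : Type*) [Field F] (n c : ℕ) :
    (TM n c (X : F[X])).det.natDegree = n * (c + 1) ∧ (TM n c (X : F[X])).det.Monic := by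
  have h := det_coeff_of_natDegree_le (TM n c (X : F[X])) (fun _ => n)
    (fun a i => (TM_entry F n c a i).1)
  have hsum : ∑ _a : Fin (c + 1), n = n * (c + 1) := by simp [mul_comm]
  rw [hsum] at h
  have hone : (Matrix.of fun a i => (TM n c (X : F[X]) a i).coeff n) =
      (1 : Matrix (Fin (c + 1)) (Fin (c + 1)) F) := by
    ext a i
    rw [Matrix.of_apply, (TM_entry F n c a i).2, Matrix.one_apply]
  rw [hone, Matrix.det_one] at h
  have hle := Polynomial.le_natDegree_of_ne_zero (n := n * (c + 1))
    (p := (TM n c (X : F[X])).det) (by rw [h.2]; exact one_ne_zero)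
  have heq : (TM n c (X : F[X])).det.natDegree = n * (c + 1) := le_antisymm h.1 hle
  exact ⟨heq, by rw [Polynomial.Monic, Polynomial.leadingCoeff, heq, h.2]⟩

theorem adj_TM_degree (F : Type*) [Field F] (n c : ℕ) (k : Fin (c + 1)) :
    ((TM n c (X : F[X])).adjugate k k).natDegree ≤ n * c ∧
      (TM n c (X : F[X])).adjugate k k ≠ 0 := by
  rw [Matrix.adjugate_apply]
  set N := (TM n c (X : F[X])).updateRow k (Pi.single k 1) with hN
  have hd : ∀ a i, (N a i).natDegree ≤ (if a = k then 0 else n) := by
    intro a i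
    by_cases hak : a = k
    · rw [hak, hN, Matrix.updateRow_self, if_pos rfl]
      by_cases hik : i = k
      · rw [hik]; simp
      · simp [hik]
    · rw [hN, Matrix.updateRow_ne hak, if_neg hak]
      exact (TM_entry F n c a i).1
  have h := det_coeff_of_natDegree_le N (fun a => if a = k then 0 else n) hd
  have hsum : ∑ a : Fin (c + 1), (if a = k then 0 else n) = n * c := by
    rw [Finset.sum_ite, Finset.sum_const_zero, zero_add, Finset.sum_const, smul_eq_mul]
    have : (Finset.univ.filter fun a : Fin (c + 1) => ¬ a = k).card = c := by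
      rw [Finset.filter_not, Finset.filter_eq', if_pos (Finset.mem_univ _),
        Finset.card_sdiff_of_subset (Finset.subset_univ _)]
      simp
    rw [this, mul_comm]
  rw [hsum] at h
  refine ⟨h.1, ?_⟩
  intro h0
  have hone : (Matrix.of fun a i => (N a i).coeff (if a = k then 0 else n)) =
      (1 : Matrix (Fin (c + 1)) (Fin (c + 1)) F) := by
    ext a i
    rw [Matrix.of_apply, Matrix.one_apply]
    by_cases hak : a = k
    · rw [hak, hN, Matrix.updateRow_self, if_pos rfl]
      by_cases hik : i = k
      · rw [hik]; simp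
      · rw [Pi.single_eq_of_ne hik, if_neg (fun h => hik h.symm)]; simp
    · rw [hN, Matrix.updateRow_ne hak, if_neg hak, (TM_entry F n c a i).2]
  rw [hone, Matrix.det_one, h0, Polynomial.coeff_zero] at h
  exact zero_ne_one h.2

end degrees

end Pool.Agent.Lib_helper40
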