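import Pool.Agent.Lib_helper40.UProd

namespace Pool.Agent.Lib_helper40

open Filter Polynomial

universe u v

theorem exists_avoid {k : Type*} [Field k] {p : ℕ} [CharP k p] (P : ℤ[X])
    (hp : P.leadingCoeff.natAbs < p) (hP : P ≠ 0) (Λ : Finset k) (hΛ : P.natDegree < Λ.card) :
    ∃ s ∈ Λ, aeval s P ≠ 0 := by
  classical
  have hlc : ((P.leadingCoeff : ℤ) : k) ≠ 0 := by
    intro h0
    rw [CharP.intCast_eq_zero_iff k p] at h0
    have h1 : (p : ℤ).natAbs ∣ P.leadingCoeff.natAbs := Int.natAbs_dvd_natAbs.mpr h0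
    rw [Int.natAbs_natCast] at h1
    have h2 : 0 < P.leadingCoeff.natAbs := Int.natAbs_pos.mpr (leadingCoeff_ne_zero.mpr hP)
    have := Nat.le_of_dvd h2 h1
    omega
  have hne : P.map (Int.castRingHom k) ≠ 0 := by
    intro h0
    have := congrArg (fun q => q.coeff P.natDegree) h0
    simp only [coeff_map, coeff_zero] at this
    exact hlc this
  have hcard : (P.map (Int.castRingHom k)).roots.toFinset.card < Λ.card := by
    refine lt_of_le_of_lt (Multiset.toFinset_card_le _) ?_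
    refine lt_of_le_of_lt (card_roots' _) ?_
    exact lt_of_le_of_lt natDegree_map_le hΛ
  obtain ⟨s, hs, hs'⟩ := Finset.exists_mem_notMem_of_card_lt_card hcard
  refine ⟨s, hs, ?_⟩
  intro h0
  apply hs'
  rw [Multiset.mem_toFinset, mem_roots hne, IsRoot.def, eval_map]
  rw [aeval_def] at h0
  exact h0

theorem transc_choice {ι : Type u} (pr : ι → ℕ) (hpr : Function.Injective pr) (k : ι → Type v)
    [∀ i, Field (k i)] [∀ i, CharP (k i) (pr i)] (Λ : ∀ i, Finset (k i))
    (hΛ : Tendsto (fun i => (Λ i).card) cofinite atTop) :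
    ∃ s : ∀ i, k i, (∀ i, (Λ i).Nonempty → s i ∈ Λ i) ∧
      ∀ F : ℤ[X], F ≠ 0 → ∀ᶠ i in cofinite, aeval (s i) F ≠ 0 := by
  classical
  have hcount : Countable ℤ[X] := by
    rw [← Cardinal.mk_le_aleph0_iff]
    refine (Polynomial.cardinalMk_le_max).trans ?_
    simp
  obtain ⟨e, he⟩ := exists_surjective_nat ℤ[X]
  have htend : Tendsto pr cofinite atTop := by
    rw [← Nat.cofinite_eq_atTop]; exact hpr.tendsto_cofinite
  let Q : ι → ℕ → Prop := fun i J => ∃ s ∈ Λ i, ∀ l < J, e l ≠ 0 → aeval s (e l) ≠ 0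
  have hQ : ∀ J, ∀ᶠ i in cofinite, Q i J := by
    intro J
    set P : ℤ[X] := ∏ l ∈ (Finset.range J).filter (fun l => e l ≠ 0), e l with hP
    have hP0 : P ≠ 0 := by
      rw [hP, Finset.prod_ne_zero_iff]
      intro l hl
      exact (Finset.mem_filter.mp hl).2
    filter_upwards [htend.eventually_gt_atTop P.leadingCoeff.natAbs,
      hΛ.eventually_gt_atTop P.natDegree] with i h1 h2
    obtain ⟨s, hs, hs'⟩ := exists_avoid (p := pr i) P h1 hP0 (Λ i) h2
    refine ⟨s, hs, ?_⟩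
    intro l hl hel h0
    apply hs'
    rw [hP, map_prod]
    exact Finset.prod_eq_zero (Finset.mem_filter.mpr ⟨Finset.mem_range.mpr hl, hel⟩) h0
  let J : ι → ℕ := fun i => Nat.findGreatest (Q i) (pr i)
  have hex : ∀ i, ∃ s : k i, ((Λ i).Nonempty → s ∈ Λ i) ∧
      (Q i (J i) → ∀ l < J i, e l ≠ 0 → aeval s (e l) ≠ 0) := by
    intro i
    by_cases h : Q i (J i)
    · obtain ⟨s, hs, hs'⟩ := h
      exact ⟨s, fun _ => hs, fun _ => hs'⟩
    · by_cases h2 : (Λ i).Nonempty
      · obtain ⟨s, hs⟩ := h2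
        exact ⟨s, fun _ => hs, fun h' => absurd h' h⟩
      · exact ⟨0, fun h' => absurd h' h2, fun h' => absurd h' h⟩
  choose s hs1 hs2 using hex
  refine ⟨s, hs1, ?_⟩
  intro F hF
  obtain ⟨l, rfl⟩ := he F
  filter_upwards [hQ (l + 1), htend.eventually_ge_atTop (l + 1)] with i h1 h2
  have h3 : l + 1 ≤ J i := Nat.le_findGreatest h2 h1
  have h4 : Q i (J i) := Nat.findGreatest_spec h2 h1
  exact hs2 i h4 l (by omega) hF

theorem aeval_umk {ι : Type u} {𝒰 : Ultrafilter ι} {A : ι → Type v} [∀ i, CommRing (A i)]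
    (s : ∀ i, A i) (F : ℤ[X]) :
    aeval (umk s : UProd 𝒰 A) F = umk (fun i => aeval (s i) F) := by
  induction F using Polynomial.induction_on' with
  | add p q hp hq =>
    rw [map_add, hp, hq, ← umk_add]
    congr 1
    funext i
    rw [map_add]
  | monomial n a =>
    have h1 : ∀ i, aeval (s i) (monomial n a) = algebraMap ℤ (A i) a * s i ^ n := fun i =>
      aeval_monomial _
    have h2 : (fun i => aeval (s i) (monomial n a)) =
        (fun i => algebraMap ℤ (A i) a * s i ^ n) := funext h1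
    rw [aeval_monomial, h2, umk_mul, umk_pow]
    congr 1

theorem transcendental_umk {ι : Type u} {𝒰 : Ultrafilter ι} (h𝒰 : (𝒰 : Filter ι) ≤ cofinite)
    {k : ι → Type v} [∀ i, Field (k i)] (s : ∀ i, k i)
    (hs : ∀ F : ℤ[X], F ≠ 0 → ∀ᶠ i in cofinite, aeval (s i) F ≠ 0) :
    Transcendental ℤ (umk s : UProd 𝒰 k) := by
  rw [transcendental_iff]
  intro F hF
  by_contra hne
  rw [aeval_umk, umk_eq_zero_iff] at hF
  obtain ⟨i, h1, h2⟩ := (hF.and (h𝒰 (hs F hne))).exists
  exact h2 h1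

end Pool.Agent.Lib_helper40
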