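import Mathlib

/-!
# The unitary group of a separable infinite-dimensional Hilbert space is a Polish group
-/

set_option autoImplicit false

open Set Topology Filter

noncomputable section

namespace Pool.Agent.UnitaryComplete

universe u

/-- The unitary group of `H`. -/
abbrev UG (H : Type u) [NormedAddCommGroup H] [InnerProductSpace ℂ H] : Type u := H ≃ₗᵢ[ℂ] H

/-- The strong operator topology: the topology of pointwise convergence. -/
instance strongTop (H : Type u) [NormedAddCommGroup H] [InnerProductSpace ℂ H] :
    TopologicalSpace (UG H) :=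
  TopologicalSpace.induced (fun (U : UG H) (v : H) => U v) inferInstance

variable {H : Type u} [NormedAddCommGroup H] [InnerProductSpace ℂ H]

theorem app_cont (v : H) : Continuous fun U : UG H => U v :=
  (continuous_apply v).comp continuous_induced_dom

theorem inv_app (U : UG H) (v : H) : U⁻¹ v = U.symm v := rfl

theorem inv_app_cont (v : H) : Continuous fun U : UG H => U⁻¹ v := by
  rw [continuous_iff_continuousAt]
  intro U₀
  rw [ContinuousAt, tendsto_iff_dist_tendsto_zero]
  have h1 : (fun U : UG H => dist (U⁻¹ v) (U₀⁻¹ v)) =
      fun U : UG H => dist (U₀ (U₀⁻¹ v)) (U (U₀⁻¹ v)) := by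
    funext U
    rw [← U.dist_map (U⁻¹ v) (U₀⁻¹ v)]
    simp only [inv_app, LinearIsometryEquiv.apply_symm_apply]
  rw [h1]
  have h2 : Tendsto (fun U : UG H => dist (U₀ (U₀⁻¹ v)) (U (U₀⁻¹ v))) (𝓝 U₀)
      (𝓝 (dist (U₀ (U₀⁻¹ v)) (U₀ (U₀⁻¹ v)))) :=
    (tendsto_const_nhds).dist ((app_cont (U₀⁻¹ v)).tendsto U₀)
  simpa using h2

theorem continuous_rng {Z : Type*} [TopologicalSpace Z] {f : Z → UG H}
    (h : ∀ v, Continuous fun z => f z v) : Continuous f :=
  continuous_induced_rng.mpr (continuous_pi h)

instance topGroup : IsTopologicalGroup (UG H) where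
  continuous_mul := by
    refine continuous_rng fun v => ?_
    change Continuous fun p : UG H × UG H => p.1 (p.2 v)
    rw [continuous_iff_continuousAt]
    rintro ⟨U₀, V₀⟩
    rw [ContinuousAt, tendsto_iff_dist_tendsto_zero]
    have h1 : Tendsto (fun p : UG H × UG H => dist (p.2 v) (V₀ v)) (𝓝 (U₀, V₀)) (𝓝 0) := by
      rw [← tendsto_iff_dist_tendsto_zero]
      exact ((app_cont v).comp continuous_snd).tendsto (U₀, V₀)
    have h2 : Tendsto (fun p : UG H × UG H => dist (p.1 (V₀ v)) (U₀ (V₀ v))) (𝓝 (U₀, V₀)) (𝓝 0) := by
      rw [← tendsto_iff_dist_tendsto_zero]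
      exact ((app_cont (V₀ v)).comp continuous_fst).tendsto (U₀, V₀)
    have h3 := h1.add h2
    rw [add_zero] at h3
    refine squeeze_zero (fun _ => dist_nonneg) (fun p => ?_) h3
    refine (dist_triangle _ (p.1 (V₀ v)) _).trans ?_
    rw [p.1.dist_map]
  continuous_inv := continuous_rng fun v => inv_app_cont v

/-- A separable infinite-dimensional Hilbert space has a countable orthonormal basis. -/
theorem exists_natBasis [CompleteSpace H] [TopologicalSpace.SeparableSpace H]
    (hH : ¬ FiniteDimensional ℂ H) : Nonempty (HilbertBasis ℕ ℂ H) := by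
  classical
  obtain ⟨w, b, hb⟩ := exists_hilbertBasis ℂ H
  have hdist : ∀ i j : w, i ≠ j → 1 < dist (b i) (b j) := by
    intro i j hij
    have h1 : ‖b i - b j‖ ^ 2 = 2 := by
      rw [@norm_sub_sq ℂ, b.orthonormal.1 i, b.orthonormal.1 j, b.orthonormal.2 hij]
      norm_num
    rw [dist_eq_norm]
    nlinarith [norm_nonneg (b i - b j)]
  have hcount : Countable w := by
    have h1 : (univ : Set w).PairwiseDisjoint fun i => Metric.ball (b i) (1 / 2) := by
      intro i _ j _ hij
      rw [Function.onFun, Set.disjoint_left]
      intro x hx hx'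
      have h2 := dist_triangle (b i) x (b j)
      rw [Metric.mem_ball, dist_comm] at hx
      rw [Metric.mem_ball] at hx'
      have h3 := hdist i j hij
      linarith
    have h2 := h1.countable_of_isOpen (fun i _ => Metric.isOpen_ball)
      (fun i _ => ⟨b i, Metric.mem_ball_self (by norm_num)⟩)
    exact countable_univ_iff.mp h2
  have hinf : Infinite w := by
    rw [← not_finite_iff_infinite]
    intro hfin
    apply hH
    have h1 : FiniteDimensional ℂ (Submodule.span ℂ (range b)) :=
      FiniteDimensional.span_of_finite ℂ (finite_range b)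
    have h2 : Submodule.span ℂ (range b) = ⊤ := by
      rw [← b.dense_span]
      exact ((Submodule.closed_of_finiteDimensional _).submodule_topologicalClosure_eq).symm
    rw [h2] at h1
    exact FiniteDimensional.of_surjective (Submodule.subtype (⊤ : Submodule ℂ H))
      (fun x => ⟨⟨x, trivial⟩, rfl⟩)
  obtain ⟨e⟩ : Nonempty (ℕ ≃ w) := by
    have : Denumerable w := Classical.choice (nonempty_denumerable w)
    exact ⟨(Denumerable.eqv w).symm⟩
  have ho : Orthonormal ℂ (fun n => b (e n)) := b.orthonormal.comp e e.injective
  refine ⟨HilbertBasis.mk ho ?_⟩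
  have h1 : range (fun n => b (e n)) = range b := e.surjective.range_comp b
  rw [h1, b.dense_span]

variable (b : HilbertBasis ℕ ℂ H)

/-- The orbit of the basis under a unitary operator and its inverse. -/
def Phi (U : UG H) : (ℕ → H) × (ℕ → H) := (fun n => U (b n), fun n => U⁻¹ (b n))

theorem Phi_cont : Continuous (Phi b) :=
  (continuous_pi fun n => app_cont (b n)).prodMk (continuous_pi fun n => inv_app_cont (b n))

theorem Phi_inducing : IsInducing (Phi b) := by
  refine ⟨le_antisymm ((Phi_cont b).le_induced) ?_⟩
  let t : TopologicalSpace (UG H) := TopologicalSpace.induced (Phi b) inferInstance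
  change t ≤ strongTop H
  have key : ∀ v : H, @Continuous (UG H) H t _ fun U : UG H => U v := by
    let _ : TopologicalSpace (UG H) := t
    let S : Submodule ℂ H :=
      { carrier := {v | @Continuous (UG H) H t _ fun U : UG H => U v}
        add_mem' := by
          intro x y hx hy
          have h1 := Continuous.add hx hy
          change @Continuous (UG H) H t _ fun U : UG H => U (x + y)
          have h2 : (fun U : UG H => U (x + y)) = fun U : UG H => U x + U y := by
            funext U
            exact map_add U x y
          rw [h2]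
          exact h1
        zero_mem' := by
          change @Continuous (UG H) H t _ fun U : UG H => U 0
          have h2 : (fun U : UG H => U 0) = fun U : UG H => (0 : H) := by
            funext U
            exact map_zero U
          rw [h2]
          exact @continuous_const _ _ t _ _
        smul_mem' := by
          intro c x hx
          change @Continuous (UG H) H t _ fun U : UG H => U (c • x)
          have h2 : (fun U : UG H => U (c • x)) = fun U : UG H => c • U x := by
            funext U
            exact map_smul U c x
          rw [h2]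
          exact Continuous.const_smul hx c }
    have hS : IsClosed (S : Set H) := by
      rw [← isSeqClosed_iff_isClosed]
      intro x v hx hv
      change @Continuous (UG H) H t _ fun U : UG H => U v
      refine @TendstoUniformly.continuous (UG H) H ℕ t _ (fun n U => U (x n)) _ atTop ?_
        (Frequently.of_forall fun n => hx n)
      rw [Metric.tendstoUniformly_iff]
      intro ε hε
      filter_upwards [Metric.tendsto_nhds.mp hv ε hε] with n hn U
      rw [U.dist_map, dist_comm]
      exact hn
    have hb : ∀ n, b n ∈ S := fun n =>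
      (continuous_apply n).comp (continuous_fst.comp (@continuous_induced_dom _ _ (Phi b) _))
    have h1 : (Submodule.span ℂ (range b)).topologicalClosure ≤ S :=
      Submodule.topologicalClosure_minimal _ (Submodule.span_le.mpr (by
        rintro _ ⟨n, rfl⟩
        exact hb n)) hS
    rw [b.dense_span] at h1
    exact fun v => h1 trivial
  exact continuous_iff_le_induced.mp (@continuous_pi _ _ _ t _ _ key)

theorem Phi_injective : Function.Injective (Phi b) := by
  intro U V h
  have h1 : ∀ n, U (b n) = V (b n) := fun n => congrFun (congrArg Prod.fst h) n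
  have h2 : EqOn U V (Submodule.span ℂ (range b)) := by
    intro x hx
    induction hx using Submodule.span_induction with
    | mem x hx => obtain ⟨n, rfl⟩ := hx; exact h1 n
    | zero => rw [map_zero, map_zero]
    | add x y _ _ hx hy => rw [map_add, map_add, hx, hy]
    | smul c x _ hx => rw [map_smul, map_smul, hx]
  have h3 : Dense (Submodule.span ℂ (range b) : Set H) := by
    rw [dense_iff_closure_eq, ← Submodule.topologicalClosure_coe, b.dense_span]
    rfl
  have h4 : (U : H → H) = V := Continuous.ext_on h3 U.continuous V.continuous h2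
  exact LinearIsometryEquiv.ext fun x => congrFun h4 x

theorem Phi_range [CompleteSpace H] : range (Phi b) = {p : (ℕ → H) × (ℕ → H) |
    (∀ n m, inner ℂ (p.1 n) (p.1 m) = inner ℂ (b n) (b m)) ∧
    (∀ n m, inner ℂ (p.2 n) (p.2 m) = inner ℂ (b n) (b m)) ∧
    ∀ n m, inner ℂ (p.1 n) (b m) = inner ℂ (b n) (p.2 m)} := by
  ext ⟨a, c⟩
  constructor
  · rintro ⟨U, hU⟩
    have ha : ∀ n, a n = U (b n) := fun n => (congrFun (congrArg Prod.fst hU) n).symm
    have hc : ∀ n, c n = U⁻¹ (b n) := fun n => (congrFun (congrArg Prod.snd hU) n).symm
    refine ⟨fun n m => ?_, fun n m => ?_, fun n m => ?_⟩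
    · change inner ℂ (a n) (a m) = _
      rw [ha, ha, U.inner_map_map]
    · change inner ℂ (c n) (c m) = _
      rw [hc, hc, (U⁻¹).inner_map_map]
    · change inner ℂ (a n) (b m) = inner ℂ (b n) (c m)
      rw [ha, hc]
      have h1 := U.inner_map_map (b n) (U⁻¹ (b m))
      rw [inv_app, LinearIsometryEquiv.apply_symm_apply] at h1
      rw [h1]
      rfl
  · rintro ⟨h1, h2, h3⟩
    have ho : ∀ f : ℕ → H, (∀ n m, inner ℂ (f n) (f m) = inner ℂ (b n) (b m)) →
        Orthonormal ℂ f := by
      intro f hf
      rw [orthonormal_iff_ite]
      intro n m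
      rw [hf, orthonormal_iff_ite.mp b.orthonormal]
    have ha := ho a h1
    have hc := ho c h2
    obtain ⟨V, hV⟩ : ∃ V : H →ₗᵢ[ℂ] H, ∀ n, V (b n) = c n := by
      refine ⟨(hc.orthogonalFamily.linearIsometry).comp b.repr.toLinearIsometry, fun n => ?_⟩
      change hc.orthogonalFamily.linearIsometry (b.repr (b n)) = c n
      rw [b.repr_self]
      refine (OrthogonalFamily.linearIsometry_apply_single hc.orthogonalFamily
        (i := n) (1 : ℂ)).trans ?_
      change (1 : ℂ) • c n = c n
      rw [one_smul]
    have hkey : ∀ n x, inner ℂ (b n) (V x) = inner ℂ (a n) x := by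
      intro n x
      have hsum : HasSum (fun m => b.repr x m • b m) x := b.hasSum_repr x
      have hy : HasSum (fun m => b.repr x m • c m) (V x) := by
        have h5 := hsum.mapL V.toContinuousLinearMap
        simpa [hV] using h5
      have h5 : HasSum (fun m => inner ℂ (b n) (b.repr x m • c m)) (inner ℂ (b n) (V x)) :=
        hy.mapL (innerSL ℂ (b n))
      have h6 : HasSum (fun m => inner ℂ (a n) (b.repr x m • b m)) (inner ℂ (a n) x) :=
        hsum.mapL (innerSL ℂ (a n))
      have h7 : (fun m => inner ℂ (b n) (b.repr x m • c m)) =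
          fun m => inner ℂ (a n) (b.repr x m • b m) := by
        funext m
        rw [inner_smul_right, inner_smul_right]
        congr 1
        exact (h3 n m).symm
      rw [h7] at h5
      exact h5.unique h6
    have hrepr : ∀ x y : H, (∀ n, inner ℂ (b n) x = inner ℂ (b n) y) → x = y := by
      intro x y h
      apply b.repr.injective
      ext n
      rw [b.repr_apply_apply, b.repr_apply_apply, h]
    have horth : (Submodule.span ℂ (range a))ᗮ = ⊥ := by
      rw [eq_bot_iff]
      intro x hx
      rw [Submodule.mem_bot]
      have hxa : ∀ n, inner ℂ (a n) x = 0 := fun n =>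
        (Submodule.mem_orthogonal _ _).mp hx _ (Submodule.subset_span ⟨n, rfl⟩)
      have h4 : V x = 0 := hrepr _ _ fun n => by rw [hkey, hxa, inner_zero_right]
      exact V.injective (h4.trans (map_zero V).symm)
    let a' : HilbertBasis ℕ ℂ H := HilbertBasis.mkOfOrthogonalEqBot ha horth
    have ha' : ∀ n, a' n = a n := fun n =>
      congrFun (HilbertBasis.coe_mkOfOrthogonalEqBot ha horth) n
    let U : UG H := b.repr.trans a'.repr.symm
    have hUb : ∀ n, U (b n) = a n := by
      intro n
      change a'.repr.symm (b.repr (b n)) = a n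
      rw [b.repr_self, a'.repr_symm_single, ha']
    refine ⟨U, Prod.ext (funext hUb) (funext fun m => ?_)⟩
    change U⁻¹ (b m) = c m
    refine hrepr _ _ fun n => ?_
    have h4 : inner ℂ (b n) (c m) = inner ℂ (a n) (b m) := (h3 n m).symm
    rw [h4, ← hUb n, ← U.inner_map_map (b n) (U⁻¹ (b m)), inv_app,
      LinearIsometryEquiv.apply_symm_apply]

theorem Phi_closed [CompleteSpace H] : IsClosedEmbedding (Phi b) := by
  refine ⟨⟨Phi_inducing b, Phi_injective b⟩, ?_⟩
  rw [Phi_range]
  have c1 : ∀ n, Continuous fun p : (ℕ → H) × (ℕ → H) => p.1 n := fun n =>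
    (continuous_apply n).comp continuous_fst
  have c2 : ∀ n, Continuous fun p : (ℕ → H) × (ℕ → H) => p.2 n := fun n =>
    (continuous_apply n).comp continuous_snd
  simp only [Set.ofPred_forall, Set.ofPred_and]
  refine IsClosed.inter ?_ (IsClosed.inter ?_ ?_)
  · exact isClosed_iInter fun n => isClosed_iInter fun m =>
      isClosed_eq ((c1 n).inner (c1 m)) continuous_const
  · exact isClosed_iInter fun n => isClosed_iInter fun m =>
      isClosed_eq ((c2 n).inner (c2 m)) continuous_const
  · exact isClosed_iInter fun n => isClosed_iInter fun m =>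
      isClosed_eq ((c1 n).inner continuous_const) (continuous_const.inner (c2 m))

/-- The unitary group is Polish. -/
theorem polish [CompleteSpace H] [TopologicalSpace.SeparableSpace H]
    (hH : ¬ FiniteDimensional ℂ H) : PolishSpace (UG H) := by
  obtain ⟨b⟩ := exists_natBasis hH
  have : SecondCountableTopology H := UniformSpace.secondCountable_of_separable H
  exact (Phi_closed b).polishSpace

/-- Two separable infinite-dimensional Hilbert spaces are isomorphic; the unitary groups too. -/
def conj {K : Type*} [NormedAddCommGroup K] [InnerProductSpace ℂ K] (j : H ≃ₗᵢ[ℂ] K) :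
    UG H ≃* UG K where
  toFun U := (j.symm.trans U).trans j
  invFun V := (j.trans V).trans j.symm
  left_inv U := by ext x; simp
  right_inv V := by ext x; simp
  map_mul' U V := by
    ext x
    change j (U (V (j.symm x))) = j (U (j.symm (j (V (j.symm x)))))
    rw [LinearIsometryEquiv.symm_apply_apply]

theorem conj_cont {K : Type*} [NormedAddCommGroup K] [InnerProductSpace ℂ K] (j : H ≃ₗᵢ[ℂ] K) :
    Continuous (conj j) :=
  continuous_rng fun v => j.continuous.comp (app_cont (j.symm v))

theorem conj_symm_cont {K : Type*} [NormedAddCommGroup K] [InnerProductSpace ℂ K]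
    (j : H ≃ₗᵢ[ℂ] K) : Continuous (conj j).symm :=
  continuous_rng fun v => j.symm.continuous.comp (app_cont (j v))

end Pool.Agent.UnitaryComplete
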